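import Mathlib
import Pool.Agent.Lib_helper28.ST.Defs
import Pool.Agent.Lib_helper28.ST.Defs2

set_option autoImplicit false

namespace Pool.Agent.ST

open Finset Pool.Agent.Lib_helper13.PL Pool.Agent.POS

section blocks
variable {G : Type*} [AddCommGroup G] [DecidableEq G]

/-- SA1 -/
theorem hg_add_pr {m : ℕ} [NeZero m] (chi : G →+ ZMod m) (B : Finset G) (hB : NoWrap chi B)
    {x y : G} (hx : x ∈ B) (hy : y ∈ B) (hxy : x + y ∈ B) :
    hg chi (x + y) = hg chi x + hg chi y := by
  unfold hg
  have h1 := hB x hx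
  have h2 := hB y hy
  have h3 := hB (x + y) hxy
  have h4 : (((chi (x + y)).valMinAbs - ((chi x).valMinAbs + (chi y).valMinAbs) : ℤ) : ZMod m) = 0 := by
    push_cast
    rw [map_add, sub_self]
  rw [ZMod.intCast_zmod_eq_zero_iff_dvd] at h4
  have h5 : |(chi (x + y)).valMinAbs - ((chi x).valMinAbs + (chi y).valMinAbs)| < m := by
    have e1 := abs_sub (chi (x + y)).valMinAbs ((chi x).valMinAbs + (chi y).valMinAbs)
    have e2 := abs_add_le (chi x).valMinAbs (chi y).valMinAbs
    linarith
  have h6 := Int.eq_zero_of_abs_lt_dvd h4 h5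
  linarith

end blocks

theorem hg_add : type_of% @hg_add_pr := @hg_add_pr

end Pool.Agent.ST
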