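import Mathlib
import Pool.Agent.Lib_helper28.ST.Defs
import Pool.Agent.Lib_helper28.ST.Defs2
import Pool.Agent.Lib_helper25.PR.PD
import Pool.Agent.Lib_helper25.PR.PE
import Pool.Agent.Lib_helper28.ST.L.SA1

/-!
# Theorem ST, block SA2: the exact peeling identity
-/

set_option autoImplicit false

namespace Pool.Agent.ST

open Finset Pool.Agent.Lib_helper13.PL Pool.Agent.POS

section blocks
variable {G : Type*} [AddCommGroup G] [DecidableEq G]

theorem sa2_TT_card (X Y Z : Finset G) :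
    TT X Y Z = (((X ×ˢ Y).filter (fun p => p.1 + p.2 ∈ Z)).card : ℤ) := by
  unfold TT
  rw [Finset.card_filter, Finset.sum_product]
  push_cast
  rfl

omit [AddCommGroup G] in
theorem sa2_sq (X : Finset G) (h : G → ℤ) :
    (X.card : ℤ) ^ 2 = 2 * (((X ×ˢ X).filter (fun p => h p.1 < h p.2)).card : ℤ) +
      (((X ×ˢ X).filter (fun p => h p.1 = h p.2)).card : ℤ) := by
  have e1 : ((X ×ˢ X).filter (fun p => h p.2 < h p.1)).card =
      ((X ×ˢ X).filter (fun p => h p.1 < h p.2)).card := by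
    refine Finset.card_nbij' Prod.swap Prod.swap ?_ ?_ ?_ ?_
    · intro p hp
      simp only [coe_filter, mem_product, Set.mem_ofPred_eq, Prod.fst_swap, Prod.snd_swap] at hp ⊢
      exact ⟨⟨hp.1.2, hp.1.1⟩, hp.2⟩
    · intro p hp
      simp only [coe_filter, mem_product, Set.mem_ofPred_eq, Prod.fst_swap, Prod.snd_swap] at hp ⊢
      exact ⟨⟨hp.1.2, hp.1.1⟩, hp.2⟩
    · intro p _
      simp
    · intro p _
      simp
  have e2 : (X ×ˢ X).card = X.card * X.card := Finset.card_product _ _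
  have e3 : (X ×ˢ X) = ((X ×ˢ X).filter (fun p => h p.1 < h p.2) ∪
      (X ×ˢ X).filter (fun p => h p.2 < h p.1)) ∪ (X ×ˢ X).filter (fun p => h p.1 = h p.2) := by
    ext p
    simp only [mem_union, mem_filter]
    constructor
    · intro hp
      rcases lt_trichotomy (h p.1) (h p.2) with h1 | h1 | h1
      · exact Or.inl (Or.inl ⟨hp, h1⟩)
      · exact Or.inr ⟨hp, h1⟩
      · exact Or.inl (Or.inr ⟨hp, h1⟩)
    · rintro ((hp | hp) | hp) <;> exact hp.1
  have e4 : (X ×ˢ X).card = ((X ×ˢ X).filter (fun p => h p.1 < h p.2)).card +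
      ((X ×ˢ X).filter (fun p => h p.2 < h p.1)).card +
        ((X ×ˢ X).filter (fun p => h p.1 = h p.2)).card := by
    conv_lhs => rw [e3]
    rw [card_union_of_disjoint, card_union_of_disjoint]
    · rw [disjoint_left]
      intro p h1 h2
      simp only [mem_filter] at h1 h2
      omega
    · rw [disjoint_left]
      intro p h1 h2
      simp only [mem_filter, mem_union] at h1 h2
      omega
  have e5 : X.card * X.card = 2 * ((X ×ˢ X).filter (fun p => h p.1 < h p.2)).card +
      ((X ×ˢ X).filter (fun p => h p.1 = h p.2)).card := by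
    rw [← e2, e4, e1]
    ring
  rw [sq]
  exact_mod_cast e5

theorem sa2_pos (B : Finset G) (h : G → ℤ)
    (hadd : ∀ x ∈ B, ∀ y ∈ B, x + y ∈ B → h (x + y) = h x + h y) :
    TT (B.filter (fun x => 0 < h x)) (B.filter (fun x => 0 < h x)) B +
      (((B ×ˢ B).filter (fun p => 0 < h p.1 ∧ h p.1 < h p.2 ∧ p.2 - p.1 ∉ B)).card : ℤ) =
    ((((B.filter (fun x => 0 < h x)) ×ˢ (B.filter (fun x => 0 < h x))).filter
      (fun p => h p.1 < h p.2)).card : ℤ) := by
  rw [sa2_TT_card]
  have e1 : (((B.filter (fun x => 0 < h x)) ×ˢ (B.filter (fun x => 0 < h x))).filter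
      (fun p => p.1 + p.2 ∈ B)).card =
      ((B ×ˢ B).filter (fun p => 0 < h p.1 ∧ h p.1 < h p.2 ∧ p.2 - p.1 ∈ B)).card := by
    refine Finset.card_nbij' (fun p => (p.1, p.1 + p.2)) (fun p => (p.1, p.2 - p.1)) ?_ ?_ ?_ ?_
    · rintro ⟨x, y⟩ hp
      simp only [coe_filter, mem_product, mem_filter, Set.mem_ofPred_eq] at hp ⊢
      obtain ⟨⟨⟨hx, hx0⟩, hy, hy0⟩, hxy⟩ := hp
      refine ⟨⟨hx, hxy⟩, hx0, ?_, ?_⟩
      · rw [hadd x hx y hy hxy]
        linarith
      · rw [add_sub_cancel_left]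
        exact hy
    · rintro ⟨x, z⟩ hp
      simp only [coe_filter, mem_product, mem_filter, Set.mem_ofPred_eq] at hp ⊢
      obtain ⟨⟨hx, hz⟩, hx0, hxz, hd⟩ := hp
      have e : x + (z - x) = z := by abel
      have h1 := hadd x hx (z - x) hd (by rw [e]; exact hz)
      rw [e] at h1
      refine ⟨⟨⟨hx, hx0⟩, hd, by linarith⟩, ?_⟩
      rw [e]
      exact hz
    · rintro ⟨x, y⟩ _
      simp
    · rintro ⟨x, y⟩ _
      simp
  have e2 : ((((B.filter (fun x => 0 < h x)) ×ˢ (B.filter (fun x => 0 < h x))).filter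
      (fun p => h p.1 < h p.2))).card =
      ((B ×ˢ B).filter (fun p => 0 < h p.1 ∧ h p.1 < h p.2 ∧ p.2 - p.1 ∈ B)).card +
        ((B ×ˢ B).filter (fun p => 0 < h p.1 ∧ h p.1 < h p.2 ∧ p.2 - p.1 ∉ B)).card := by
    rw [← card_union_of_disjoint]
    · congr 1
      ext ⟨x, z⟩
      simp only [mem_filter, mem_product, mem_union]
      constructor
      · rintro ⟨⟨⟨hx, hx0⟩, hz, hz0⟩, hxz⟩
        by_cases hd : z - x ∈ B
        · exact Or.inl ⟨⟨hx, hz⟩, hx0, hxz, hd⟩
        · exact Or.inr ⟨⟨hx, hz⟩, hx0, hxz, hd⟩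
      · rintro (⟨⟨hx, hz⟩, hx0, hxz, -⟩ | ⟨⟨hx, hz⟩, hx0, hxz, -⟩)
        · exact ⟨⟨⟨hx, hx0⟩, hz, by linarith⟩, hxz⟩
        · exact ⟨⟨⟨hx, hx0⟩, hz, by linarith⟩, hxz⟩
    · rw [disjoint_left]
      rintro p h1 h2
      simp only [mem_filter] at h1 h2
      exact h2.2.2.2 h1.2.2.2
  rw [e1, e2]
  push_cast
  ring

theorem sa2_opp (B : Finset G) (h : G → ℤ) :
    TT (B.filter (fun x => 0 < h x)) (B.filter (fun x => h x < 0)) B +
      (((B ×ˢ B).filter (fun p => 0 < h p.1 ∧ h p.2 < 0 ∧ p.1 + p.2 ∉ B)).card : ℤ) =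
    ((B.filter (fun x => 0 < h x)).card : ℤ) * (B.filter (fun x => h x < 0)).card := by
  rw [sa2_TT_card]
  have e1 : ((B ×ˢ B).filter (fun p => 0 < h p.1 ∧ h p.2 < 0 ∧ p.1 + p.2 ∉ B)) =
      (((B.filter (fun x => 0 < h x)) ×ˢ (B.filter (fun x => h x < 0))).filter
        (fun p => ¬ (p.1 + p.2 ∈ B))) := by
    ext ⟨x, y⟩
    simp only [mem_filter, mem_product]
    tauto
  rw [e1]
  have e2 := Finset.card_filter_add_card_filter_not
    (s := (B.filter (fun x => 0 < h x)) ×ˢ (B.filter (fun x => h x < 0)))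
    (fun p : G × G => p.1 + p.2 ∈ B)
  rw [Finset.card_product] at e2
  exact_mod_cast e2

omit [DecidableEq G] in
theorem sa2_levels {m : ℕ} (chi : G →+ ZMod m) (B : Finset G) (F : G → ℤ) :
    ∑ x ∈ B.filter (fun x => chi x ≠ 0), F x =
      ∑ u ∈ (B.image chi).erase 0, ∑ x ∈ lev chi B u, F x := by
  classical
  rw [← Finset.sum_fiberwise_of_maps_to (s := B.filter (fun x => chi x ≠ 0))
    (t := (B.image chi).erase 0) (g := chi)]
  · refine sum_congr rfl fun u hu => ?_
    have hu0 : u ≠ 0 := (mem_erase.mp hu).1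
    congr 1
    ext x
    unfold lev
    simp only [mem_filter]
    constructor
    · rintro ⟨⟨hx, -⟩, hxu⟩
      exact ⟨hx, hxu⟩
    · rintro ⟨hx, hxu⟩
      exact ⟨⟨hx, by rw [hxu]; exact hu0⟩, hxu⟩
  · intro x hx
    rw [mem_filter] at hx
    exact mem_erase.mpr ⟨hx.2, mem_image_of_mem _ hx.1⟩

/-- SA2 -/
theorem peel_miss_pr {m : ℕ} [NeZero m] (chi : G →+ ZMod m) (B : Finset G) (hB : NoWrap chi B) :
    GL.FF B + DD chi B ^ 2 + 4 * missp chi B + 4 * missn chi B + 8 * missm chi B ≤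
      GL.FF (lev chi B 0) - ∑ u ∈ (B.image chi).erase 0, cost (lev chi B u) (lev chi B 0) := by
  classical
  set h : G → ℤ := hg chi with hh
  have hdef : ∀ x, (chi x).valMinAbs = h x := fun x => rfl
  have h0iff : ∀ x, h x = 0 ↔ chi x = 0 := fun x => by
    rw [← hdef]
    exact ZMod.valMinAbs_eq_zero (chi x)
  have heq : ∀ x z, h x = h z ↔ chi x = chi z := fun x z => by
    rw [← hdef, ← hdef]
    exact ZMod.injective_valMinAbs.eq_iff
  have hadd : ∀ x ∈ B, ∀ y ∈ B, x + y ∈ B → h (x + y) = h x + h y :=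
    fun x hx y hy hxy => hg_add chi B hB hx hy hxy
  set B0 : Finset G := lev chi B 0 with hB0
  set P : Finset G := B.filter (fun x => 0 < h x) with hP
  set M : Finset G := B.filter (fun x => h x < 0) with hM
  set N : Finset G := B.filter (fun x => chi x ≠ 0) with hN
  have hB0mem : ∀ x, x ∈ B0 ↔ x ∈ B ∧ chi x = 0 := fun x => by
    rw [hB0]
    unfold lev
    exact mem_filter
  have hPM : Disjoint P M := by
    rw [disjoint_left]
    intro x h1 h2
    rw [hP, mem_filter] at h1
    rw [hM, mem_filter] at h2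
    linarith [h1.2, h2.2]
  have hNPM : N = P ∪ M := by
    ext x
    rw [hN, hP, hM, mem_union, mem_filter, mem_filter, mem_filter, ne_eq, ← h0iff]
    constructor
    · rintro ⟨hx, hx0⟩
      rcases lt_trichotomy (h x) 0 with h1 | h1 | h1
      · exact Or.inr ⟨hx, h1⟩
      · exact absurd h1 hx0
      · exact Or.inl ⟨hx, h1⟩
    · rintro (⟨hx, h1⟩ | ⟨hx, h1⟩)
      · exact ⟨hx, h1.ne'⟩
      · exact ⟨hx, h1.ne⟩
  have hB0N : Disjoint B0 N := by
    rw [disjoint_left]
    intro x h1 h2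
    rw [hN, mem_filter] at h2
    exact h2.2 ((hB0mem x).mp h1).2
  have hBeq : B = B0 ∪ N := by
    ext x
    rw [mem_union, hB0mem, hN, mem_filter]
    tauto
  -- decomposition of TT B B B
  have hT1 : TT B B B = TT B0 B0 B + 2 * TT N B0 B + TT N N B := by
    have e : ∀ Z : Finset G, TT (B0 ∪ N) (B0 ∪ N) Z =
        TT B0 B0 Z + 2 * TT N B0 Z + TT N N Z := by
      intro Z
      rw [TT_union1 _ _ hB0N, TT_union2 _ _ hB0N, TT_union2 _ _ hB0N, TT_comm B0 N Z]
      ring
    have e1 := e B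
    rw [← hBeq] at e1
    exact e1
  have hT2 : TT N N B = TT P P B + 2 * TT P M B + TT M M B := by
    rw [hNPM, TT_union1 _ _ hPM, TT_union2 _ _ hPM, TT_union2 _ _ hPM, TT_comm M P B]
    ring
  have hT0 : TT B0 B0 B = TT B0 B0 B0 := by
    refine TT_congr fun x hx y hy => ?_
    rw [hB0mem]
    have hx0 := ((hB0mem x).mp hx).2
    have hy0 := ((hB0mem y).mp hy).2
    constructor
    · intro hxy
      exact ⟨hxy, by rw [map_add, hx0, hy0, add_zero]⟩
    · intro hxy
      exact hxy.1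
  have hTN : TT N B0 B = ∑ u ∈ (B.image chi).erase 0, TT (lev chi B u) B0 (lev chi B u) := by
    have e1 : TT N B0 B = ∑ x ∈ N, ∑ y ∈ B0, if x + y ∈ B then (1 : ℤ) else 0 := rfl
    rw [e1, hN, sa2_levels chi B]
    refine sum_congr rfl fun u _ => ?_
    unfold TT
    refine sum_congr rfl fun x hx => sum_congr rfl fun y hy => ?_
    have hxu : chi x = u := by
      unfold lev at hx
      exact (mem_filter.mp hx).2
    have hy0 := ((hB0mem y).mp hy).2
    have e2 : x + y ∈ lev chi B u ↔ x + y ∈ B := by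
      unfold lev
      rw [mem_filter]
      constructor
      · intro h1
        exact h1.1
      · intro h1
        exact ⟨h1, by rw [map_add, hxu, hy0, add_zero]⟩
    simp only [e2]
  -- positive side
  have hpos := sa2_pos B h hadd
  have hneg := sa2_pos B (fun x => - h x) (fun x hx y hy hxy => by
    have := hadd x hx y hy hxy
    linarith)
  have hopp := sa2_opp B h
  have hMeq : B.filter (fun x => 0 < -h x) = M := by
    rw [hM]
    refine filter_congr fun x _ => ?_
    constructor <;> intro h1 <;> linarith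
  have hmisp : missp chi B =
      (((B ×ˢ B).filter (fun p => 0 < h p.1 ∧ h p.1 < h p.2 ∧ p.2 - p.1 ∉ B)).card : ℤ) := rfl
  have hmisn : missn chi B =
      (((B ×ˢ B).filter (fun p => 0 < -h p.1 ∧ -h p.1 < -h p.2 ∧ p.2 - p.1 ∉ B)).card : ℤ) := by
    unfold missn
    congr 2
    refine filter_congr fun p _ => ?_
    rw [← hh]
    constructor
    · rintro ⟨h1, h2, h3⟩
      exact ⟨by linarith, by linarith, h3⟩
    · rintro ⟨h1, h2, h3⟩
      exact ⟨by linarith, by linarith, h3⟩
  have hmism : missm chi B =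
      (((B ×ˢ B).filter (fun p => 0 < h p.1 ∧ h p.2 < 0 ∧ p.1 + p.2 ∉ B)).card : ℤ) := rfl
  rw [← hmisp] at hpos
  rw [hMeq, ← hmisn] at hneg
  rw [← hmism] at hopp
  have hsqP := sa2_sq P h
  have hsqM := sa2_sq M (fun x => - h x)
  -- squares of the levels
  have hlev : ∑ u ∈ (B.image chi).erase 0, ((lev chi B u).card : ℤ) ^ 2 =
      (((P ×ˢ P).filter (fun p => h p.1 = h p.2)).card : ℤ) +
        (((M ×ˢ M).filter (fun p => -h p.1 = -h p.2)).card : ℤ) := by
    have e1 : (((P ×ˢ P).filter (fun p => h p.1 = h p.2)).card : ℤ) +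
        (((M ×ˢ M).filter (fun p => -h p.1 = -h p.2)).card : ℤ) =
        (((N ×ˢ N).filter (fun p => chi p.1 = chi p.2)).card : ℤ) := by
      rw [← Nat.cast_add, ← card_union_of_disjoint]
      · congr 2
        ext ⟨x, z⟩
        simp only [mem_union, mem_filter, mem_product, neg_inj, heq]
        rw [hNPM]
        simp only [mem_union]
        constructor
        · rintro (⟨⟨h1, h2⟩, h3⟩ | ⟨⟨h1, h2⟩, h3⟩)
          · exact ⟨⟨Or.inl h1, Or.inl h2⟩, h3⟩
          · exact ⟨⟨Or.inr h1, Or.inr h2⟩, h3⟩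
        · rintro ⟨⟨h1 | h1, h2 | h2⟩, h3⟩
          · exact Or.inl ⟨⟨h1, h2⟩, h3⟩
          · exfalso
            rw [← heq] at h3
            rw [hP, mem_filter] at h1
            rw [hM, mem_filter] at h2
            linarith [h1.2, h2.2]
          · exfalso
            rw [← heq] at h3
            rw [hM, mem_filter] at h1
            rw [hP, mem_filter] at h2
            linarith [h1.2, h2.2]
          · exact Or.inr ⟨⟨h1, h2⟩, h3⟩
      · rw [disjoint_left]
        rintro ⟨x, z⟩ h1 h2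
        simp only [mem_filter, mem_product] at h1 h2
        exact (disjoint_left.mp hPM) h1.1.1 h2.1.1
    rw [e1]
    have e2 : (((N ×ˢ N).filter (fun p => chi p.1 = chi p.2)).card : ℤ) =
        ∑ x ∈ N, ((lev chi B (chi x)).card : ℤ) := by
      rw [Finset.card_filter, Finset.sum_product]
      push_cast
      refine sum_congr rfl fun x hx => ?_
      rw [← Finset.sum_filter]
      simp only [sum_const, mul_one, nsmul_eq_mul]
      congr 2
      ext z
      unfold lev
      rw [mem_filter, mem_filter, mem_filter]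
      rw [hN, mem_filter] at hx
      constructor
      · rintro ⟨⟨hz, -⟩, hxz⟩
        exact ⟨hz, hxz.symm⟩
      · rintro ⟨hz, hxz⟩
        exact ⟨⟨hz, by rw [hxz]; exact hx.2⟩, hxz.symm⟩
    rw [e2, hN, sa2_levels chi B]
    refine sum_congr rfl fun u _ => ?_
    have e3 : ∑ x ∈ lev chi B u, ((lev chi B (chi x)).card : ℤ) =
        ∑ x ∈ lev chi B u, ((lev chi B u).card : ℤ) := by
      refine sum_congr rfl fun x hx => ?_
      have hxu : chi x = u := by
        unfold lev at hx
        exact (mem_filter.mp hx).2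
      rw [hxu]
    rw [e3, sum_const, nsmul_eq_mul, sq]
  -- cardinalities
  have hcN : (N.card : ℤ) = P.card + M.card := by
    rw [hNPM, card_union_of_disjoint hPM]
    push_cast
    rfl
  have hcB : (B.card : ℤ) = B0.card + N.card := by
    conv_lhs => rw [hBeq]
    rw [card_union_of_disjoint hB0N]
    push_cast
    rfl
  have hNlev : (N.card : ℤ) = ∑ u ∈ (B.image chi).erase 0, ((lev chi B u).card : ℤ) := by
    have e1 := sa2_levels chi B (fun _ => 1)
    rw [← hN] at e1
    simp only [sum_const, mul_one, nsmul_eq_mul] at e1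
    exact e1
  have hcost : ∑ u ∈ (B.image chi).erase 0, cost (lev chi B u) B0 =
      2 * (∑ u ∈ (B.image chi).erase 0, ((lev chi B u).card : ℤ) ^ 2) +
        6 * (B0.card : ℤ) * N.card -
          8 * ∑ u ∈ (B.image chi).erase 0, TT (lev chi B u) B0 (lev chi B u) := by
    rw [hNlev, Finset.mul_sum, Finset.mul_sum, Finset.mul_sum, ← sum_add_distrib,
      ← sum_sub_distrib]
    refine sum_congr rfl fun u _ => ?_
    rw [TT_self]
    unfold cost
    ring
  have hDD : DD chi B = (P.card : ℤ) - M.card := rfl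
  rw [hcost, ← FF_eq, ← FF_eq, hDD]
  unfold FF
  rw [hT1, hT2, hT0, hTN, hlev]
  rw [hcB, hcN]
  rw [← hP] at hpos
  rw [← hP, ← hM] at hopp
  have k1 : TT P P B = (((P ×ˢ P).filter (fun p => h p.1 < h p.2)).card : ℤ) - missp chi B := by
    linarith
  have k2 : TT M M B = (((M ×ˢ M).filter (fun p => -h p.1 < -h p.2)).card : ℤ) - missn chi B := by
    linarith
  have k3 : TT P M B = (P.card : ℤ) * M.card - missm chi B := by
    linarith
  rw [k1, k2, k3]
  nlinarith [hsqP, hsqM]

end blocks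

theorem peel_miss : type_of% @peel_miss_pr := @peel_miss_pr

end Pool.Agent.ST
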