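import Mathlib
import Pool.Agent.Lib_helper28.ST.Defs
import Pool.Agent.Lib_helper25.PR.PD
import Pool.Agent.Lib_helper25.PR.PE
import Pool.Agent.Lib_helper28.ST.Defs2

set_option autoImplicit false

namespace Pool.Agent.ST

open Finset Pool.Agent.Lib_helper13.PL Pool.Agent.POS

variable {G : Type*} [AddCommGroup G] [DecidableEq G]

/-- SB1 : a level without majority coset -/
theorem lin_none_pr (K : AddSubgroup G) (KK : Finset G) (hKK : ∀ x, x ∈ KK ↔ x ∈ K)
    (A B0 : Finset G) (k e g : ℤ) (hk : k = KK.card)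
    (he : e = ((KK \ B0).card : ℤ) + ((B0 \ KK).card : ℤ)) (h4 : 4 * e ≤ k)
    (hg : g = A.card) (hA : ∀ x ∈ A, 2 * th K A x ≤ k) :
    3 * k * g - 6 * e * g ≤ cost A B0 := by
  have _ := h4
  have hg0 : 0 ≤ g := by rw [hg]; exact Int.natCast_nonneg _
  have hp0 : (0 : ℤ) ≤ ((KK \ B0).card : ℤ) := Int.natCast_nonneg _
  have hr0 : (0 : ℤ) ≤ ((B0 \ KK).card : ℤ) := Int.natCast_nonneg _
  have hrg : 0 ≤ ((B0 \ KK).card : ℤ) * g := mul_nonneg hr0 hg0
  rcases le_total (2 * g) k with h | h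
  · have h1 := cost_none K KK hKK A B0 k _ _ g hk rfl rfl hg
    have h2 : 0 ≤ g * (k - 2 * g) := mul_nonneg hg0 (by linarith)
    rw [he]
    nlinarith
  · have h1 := cost_no_major K KK hKK A B0 k _ _ g hk rfl rfl hg hA
    have h2 : 0 ≤ g * (2 * g - k) := mul_nonneg hg0 (by linarith)
    rw [he]
    nlinarith

theorem lin_none : type_of% @lin_none_pr := @lin_none_pr

end Pool.Agent.ST
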