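import Mathlib
import Pool.Agent.Lib_helper28.ST.Defs
import Pool.Agent.Lib_helper25.PR.PD
import Pool.Agent.Lib_helper25.PR.PE
import Pool.Agent.Lib_helper28.ST.Defs2

set_option autoImplicit false

namespace Pool.Agent.ST

open Finset Pool.Agent.Lib_helper13.PL Pool.Agent.POS

section blocks
variable {G : Type*} [AddCommGroup G] [DecidableEq G]

theorem sb2_num (k p r a t : ℤ) (hk : 0 ≤ k) (hp : 0 ≤ p) (hr : 0 ≤ r) (ha : 0 ≤ a) (ht : 0 ≤ t)
    (h1 : 2 * a ≤ k) (h2 : 2 * t ≤ k) :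
    2 * k * (p + r) + 3 * k * (a + t) - 10 * (p + r) * (a + t) ≤
      k * (2 * p + 6 * r + 6 * a + 10 * t) - 6 * a ^ 2 - 6 * t ^ 2 - 4 * a * t
      - p * (10 * a + 6 * t) - r * (6 * a + 10 * t) := by
  have g1 : 0 ≤ k * r := mul_nonneg hk hr
  have g2 : 0 ≤ a * (k - 2 * a) := mul_nonneg ha (by linarith)
  have g3 : 0 ≤ t * (7 * k - 6 * t - 4 * a) := mul_nonneg ht (by linarith)
  have g4 : 0 ≤ p * t := mul_nonneg hp ht
  have g5 : 0 ≤ r * a := mul_nonneg hr ha
  nlinarith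

theorem lin_maj_pr (K : AddSubgroup G) (KK : Finset G) (hKK : ∀ x, x ∈ KK ↔ x ∈ K)
    (A B0 C : Finset G) (k e : ℤ) (hk : k = KK.card)
    (he : e = ((KK \ B0).card : ℤ) + ((B0 \ KK).card : ℤ)) (h4 : 4 * e ≤ k)
    (x : G) (hx : k < 2 * th K A x) (hC : ∀ z, z ∈ C ↔ z - x ∈ K)
    (hc : cost A B0 < 2 * k ^ 2) :
    2 * k * e + 3 * k * (((C \ A).card : ℤ) + ((A \ C).card : ℤ))
      - 10 * e * (((C \ A).card : ℤ) + ((A \ C).card : ℤ)) ≤ cost A B0 ∧
      ∀ y, y - x ∉ K → 2 * th K A y ≤ k := by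
  classical
  have hp0 : (0 : ℤ) ≤ ((KK \ B0).card : ℤ) := Int.natCast_nonneg _
  have hr0 : (0 : ℤ) ≤ ((B0 \ KK).card : ℤ) := Int.natCast_nonneg _
  have hpr : 3 * (((KK \ B0).card : ℤ) + ((B0 \ KK).card : ℤ)) ≤ k := by linarith
  have huniq : ∀ y, y - x ∉ K → 2 * th K A y ≤ k := by
    intro y hy
    by_contra hlt
    rw [not_le] at hlt
    have hxy : x - y ∉ K := by
      intro h
      apply hy
      have := K.neg_mem h
      rwa [neg_sub] at this
    have := cost_two_major K KK hKK A B0 k _ _ hk rfl rfl hpr x y hxy hx hlt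
    linarith
  refine ⟨?_, huniq⟩
  have hCk : (C.card : ℤ) = k := by rw [pe_coset K KK hKK C x hC, hk]
  have hth : th K A x = k - ((C \ A).card : ℤ) := by
    have h1 : A.filter (fun z => z - x ∈ K) = C ∩ A := by
      ext z
      rw [mem_filter, mem_inter, hC z]
      tauto
    have h2 : th K A x = ((C ∩ A).card : ℤ) := by
      unfold th
      rw [← h1]
    have h3 := Finset.card_sdiff_add_card_inter C A
    rw [h2, ← hCk]
    omega
  have ha : 2 * ((C \ A).card : ℤ) ≤ k := by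
    rw [hth] at hx
    linarith
  have ht : 2 * ((A \ C).card : ℤ) ≤ k := by
    by_contra hlt
    rw [not_le] at hlt
    have := cost_one_major K KK hKK A B0 C k _ _ _ hk rfl rfl hpr x hx hC
      (fun y _ hy => huniq y hy) rfl hlt
    linarith
  have hone := cost_one K KK hKK A B0 C ⟨x, hC⟩ k _ _ _ _ hk rfl rfl rfl rfl
  have hk0 : 0 ≤ k := by rw [hk]; exact Int.natCast_nonneg _
  have hnum := sb2_num k ((KK \ B0).card : ℤ) ((B0 \ KK).card : ℤ) ((C \ A).card : ℤ)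
    ((A \ C).card : ℤ) hk0 hp0 hr0 (Int.natCast_nonneg _) (Int.natCast_nonneg _) ha ht
  rw [he]
  exact hnum.trans hone

end blocks

theorem lin_maj : type_of% @lin_maj_pr := @lin_maj_pr

end Pool.Agent.ST
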