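import Mathlib
import Pool.Agent.Lib_helper28.ST.Defs
import Pool.Agent.Lib_helper28.ST.Defs2
import Pool.Agent.Lib_helper25.PR.PD
import Pool.Agent.Lib_helper25.PR.PE
import Pool.Agent.Lib_helper28.ST.L.SB1
import Pool.Agent.Lib_helper28.ST.L.SB2

set_option autoImplicit false

namespace Pool.Agent.ST

open Finset Pool.Agent.Lib_helper13.PL Pool.Agent.POS

section blocks
variable {G : Type*} [AddCommGroup G] [DecidableEq G]

theorem sc1_card (K : AddSubgroup G) (KK : Finset G) (hKK : ∀ x, x ∈ KK ↔ x ∈ K) :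
    Nat.card K = KK.card := by
  have h : ((K : Set G)) = (KK : Set G) := by
    ext x
    exact (hKK x).symm
  have h2 : Nat.card K = (K : Set G).ncard := rfl
  rw [h2, h, Set.ncard_coe_finset]

theorem sc1_th_lev {m : ℕ} (chi : G →+ ZMod m) (B : Finset G) (K : AddSubgroup G)
    (hKL : ∀ x ∈ K, chi x = 0) (u : ZMod m) (x : G) (hx : chi x = u) :
    th K (lev chi B u) x = th K B x := by
  unfold th
  congr 2
  ext z
  simp only [Finset.mem_filter, lev]
  constructor
  · rintro ⟨⟨h1, _⟩, h3⟩
    exact ⟨h1, h3⟩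
  · rintro ⟨h1, h3⟩
    refine ⟨⟨h1, ?_⟩, h3⟩
    have h4 := hKL _ h3
    rw [map_sub, sub_eq_zero] at h4
    rw [h4, hx]

theorem sc1_th_le {m : ℕ} (chi : G →+ ZMod m) (B : Finset G) (K : AddSubgroup G)
    (u : ZMod m) (x : G) : th K (lev chi B u) x ≤ th K B x := by
  unfold th
  refine Int.ofNat_le.2 (Finset.card_le_card ?_)
  intro z hz
  simp only [Finset.mem_filter, lev] at hz ⊢
  exact ⟨hz.1.1, hz.2⟩

theorem sc1_th_coset (K : AddSubgroup G) (B : Finset G) (x y : G) (h : y - x ∈ K) :
    th K B y = th K B x := by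
  unfold th
  congr 2
  ext z
  simp only [Finset.mem_filter]
  have h1 : z - y ∈ K ↔ z - x ∈ K := by
    have e : z - x = (z - y) + (y - x) := by abel
    rw [e]
    exact (K.add_mem_cancel_right h).symm
  rw [h1]

/-- SC1 : one level -/
theorem maj_lev_pr [Fintype G] {m : ℕ} (chi : G →+ ZMod m) (B : Finset G)
    (K : AddSubgroup G) (KK : Finset G) (hKK : ∀ x, x ∈ KK ↔ x ∈ K)
    (hKL : ∀ x ∈ K, chi x = 0) (k e : ℤ) (hk : k = KK.card)
    (he : e = ((KK \ lev chi B 0).card : ℤ) + ((lev chi B 0 \ KK).card : ℤ)) (h4 : 4 * e ≤ k)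
    (u : ZMod m) (hc : cost (lev chi B u) (lev chi B 0) < 2 * k ^ 2) :
    ((Maj K B).filter (fun x => chi x = u) = ∅ ∧
      (3 * k - 10 * e) * ((lev chi B u).card : ℤ) ≤ cost (lev chi B u) (lev chi B 0)) ∨
    ((((Maj K B).filter (fun x => chi x = u)).card : ℤ) = k ∧
      (∀ x ∈ Maj K B, chi x = u → ∀ y ∈ Maj K B, chi y = u → x - y ∈ K) ∧
      2 * k * e + (3 * k - 10 * e) *
        ((((Maj K B).filter (fun x => chi x = u) \ lev chi B u).card : ℤ) +
          ((lev chi B u \ (Maj K B).filter (fun x => chi x = u)).card : ℤ)) ≤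
        cost (lev chi B u) (lev chi B 0)) := by
  have hcard : (Nat.card K : ℤ) = k := by rw [sc1_card K KK hKK, hk]
  have hmaj : ∀ x, x ∈ Maj K B ↔ k < 2 * th K B x := by
    intro x
    unfold Maj
    rw [Finset.mem_filter, hcard]
    simp
  have he0 : 0 ≤ e := by
    rw [he]
    exact add_nonneg (Int.natCast_nonneg _) (Int.natCast_nonneg _)
  by_cases hex : ∃ x, x ∈ Maj K B ∧ chi x = u
  · right
    obtain ⟨x, hx, hxu⟩ := hex
    have hx2 : k < 2 * th K (lev chi B u) x := by
      rw [sc1_th_lev chi B K hKL u x hxu]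
      exact (hmaj x).1 hx
    have hC : ∀ z, z ∈ KK.image (fun w => w + x) ↔ z - x ∈ K := by
      intro z
      rw [Finset.mem_image]
      constructor
      · rintro ⟨w, hw, rfl⟩
        rw [add_sub_cancel_right]
        exact (hKK w).1 hw
      · intro hz
        exact ⟨z - x, (hKK _).2 hz, sub_add_cancel z x⟩
    obtain ⟨h1, h2⟩ := lin_maj K KK hKK (lev chi B u) (lev chi B 0) (KK.image (fun w => w + x))
      k e hk he h4 x hx2 hC hc
    have hCard : ((KK.image (fun w => w + x)).card : ℤ) = k := by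
      rw [Finset.card_image_of_injective _ (add_left_injective x), hk]
    have hF : (Maj K B).filter (fun x => chi x = u) = KK.image (fun w => w + x) := by
      ext y
      rw [Finset.mem_filter, hC]
      constructor
      · rintro ⟨hy, hyu⟩
        by_contra hcon
        have h3 := h2 y hcon
        rw [sc1_th_lev chi B K hKL u y hyu] at h3
        have h4 := (hmaj y).1 hy
        linarith
      · intro hy
        constructor
        · rw [hmaj, sc1_th_coset K B x y hy]
          exact (hmaj x).1 hx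
        · have h4 := hKL _ hy
          rw [map_sub, sub_eq_zero] at h4
          rw [h4, hxu]
    rw [hF]
    refine ⟨hCard, ?_, ?_⟩
    · intro a ha hau b hb hbu
      have h5 : a - x ∈ K := (hC a).1 (by rw [← hF]; exact Finset.mem_filter.2 ⟨ha, hau⟩)
      have h6 : b - x ∈ K := (hC b).1 (by rw [← hF]; exact Finset.mem_filter.2 ⟨hb, hbu⟩)
      have h7 : a - b = (a - x) - (b - x) := by abel
      rw [h7]
      exact K.sub_mem h5 h6
    · linarith
  · left
    have hno : ∀ x, chi x = u → 2 * th K B x ≤ k := by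
      intro x hxu
      by_contra hcon
      exact hex ⟨x, (hmaj x).2 (by linarith), hxu⟩
    constructor
    · rw [Finset.filter_eq_empty_iff]
      intro x hx hxu
      exact hex ⟨x, hx, hxu⟩
    · have h := lin_none K KK hKK (lev chi B u) (lev chi B 0) k e ((lev chi B u).card : ℤ) hk he h4
        rfl ?_
      · have hg : (0 : ℤ) ≤ ((lev chi B u).card : ℤ) := Int.natCast_nonneg _
        have h5 : 0 ≤ e * ((lev chi B u).card : ℤ) := mul_nonneg he0 hg
        linarith
      · intro x hx
        have hxu : chi x = u := (Finset.mem_filter.1 hx).2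
        have h5 := sc1_th_le chi B K u x
        have h6 := hno x hxu
        linarith

end blocks

theorem maj_lev : type_of% @maj_lev_pr := @maj_lev_pr

end Pool.Agent.ST
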