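import Mathlib
import Pool.Agent.Lib_helper28.ST.Defs
import Pool.Agent.Lib_helper28.ST.Defs2
set_option autoImplicit false

namespace Pool.Agent.ST

open Finset Pool.Agent.Lib_helper13.PL Pool.Agent.POS

section blocks
variable {G : Type*} [AddCommGroup G] [DecidableEq G]

theorem sc2_card (K : AddSubgroup G) (KK : Finset G) (hKK : ∀ x, x ∈ KK ↔ x ∈ K) :
    Nat.card K = KK.card := by
  have h : (K : Set G) = (KK : Set G) := by
    ext x
    exact (hKK x).symm
  have h2 : Nat.card K = (K : Set G).ncard := rfl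
  rw [h2, h, Set.ncard_coe_finset]

theorem sc2_pos (K : AddSubgroup G) (KK : Finset G) (hKK : ∀ x, x ∈ KK ↔ x ∈ K) :
    0 < KK.card := card_pos.mpr ⟨0, (hKK 0).mpr K.zero_mem⟩

theorem sc2_mem [Fintype G] (K : AddSubgroup G) (KK : Finset G) (hKK : ∀ x, x ∈ KK ↔ x ∈ K)
    (B : Finset G) (x : G) : x ∈ Maj K B ↔ (KK.card : ℤ) < 2 * th K B x := by
  unfold Maj
  rw [mem_filter, sc2_card K KK hKK]
  exact ⟨fun h => h.2, fun h => ⟨mem_univ _, h⟩⟩

theorem sc2_in {m : ℕ} (chi : G →+ ZMod m) (B : Finset G)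
    (K : AddSubgroup G) (KK : Finset G) (hKK : ∀ x, x ∈ KK ↔ x ∈ K)
    (hKL : ∀ x ∈ K, chi x = 0) (x : G) (hx : x ∈ K) :
    (KK.card : ℤ) = th K B x + ((KK \ lev chi B 0).card : ℤ) := by
  classical
  have h1 : (B.filter (fun z => z - x ∈ K)) = KK ∩ lev chi B 0 := by
    ext z
    unfold lev
    rw [mem_filter, mem_inter, mem_filter, hKK]
    constructor
    · intro h
      have hz : z ∈ K := by
        have := K.add_mem h.2 hx
        rwa [sub_add_cancel] at this
      exact ⟨hz, h.1, hKL z hz⟩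
    · intro h
      exact ⟨h.2.1, K.sub_mem h.1 hx⟩
  have h2 : th K B x = ((B.filter (fun z => z - x ∈ K)).card : ℤ) := by
    unfold th
    congr
  have h3 := card_inter_add_card_sdiff KK (lev chi B 0)
  rw [h2, h1]
  exact_mod_cast h3.symm

theorem sc2_out {m : ℕ} (chi : G →+ ZMod m) (B : Finset G)
    (K : AddSubgroup G) (KK : Finset G) (hKK : ∀ x, x ∈ KK ↔ x ∈ K)
    (hKL : ∀ x ∈ K, chi x = 0) (x : G) (hx0 : chi x = 0) (hx : x ∉ K) :
    th K B x ≤ ((lev chi B 0 \ KK).card : ℤ) := by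
  classical
  have h2 : th K B x = ((B.filter (fun z => z - x ∈ K)).card : ℤ) := by
    unfold th
    congr
  rw [h2]
  have h1 : (B.filter (fun z => z - x ∈ K)) ⊆ lev chi B 0 \ KK := by
    intro z hz
    unfold lev
    rw [mem_filter] at hz
    rw [mem_sdiff, mem_filter, hKK]
    refine ⟨⟨hz.1, ?_⟩, ?_⟩
    · have := hKL _ hz.2
      rw [map_sub, hx0, sub_zero] at this
      exact this
    · intro hzK
      apply hx
      have := K.sub_mem hzK hz.2
      rwa [sub_sub_cancel] at this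
  exact_mod_cast card_le_card h1

/-- SC2 : level 0 -/
theorem maj_zero_pr [Fintype G] {m : ℕ} (chi : G →+ ZMod m) (B : Finset G)
    (K : AddSubgroup G) (KK : Finset G) (hKK : ∀ x, x ∈ KK ↔ x ∈ K)
    (hKL : ∀ x ∈ K, chi x = 0) (k e : ℤ) (hk : k = KK.card)
    (he : e = ((KK \ lev chi B 0).card : ℤ) + ((lev chi B 0 \ KK).card : ℤ)) (h4 : 4 * e ≤ k) :
    (∀ x, chi x = 0 → (x ∈ Maj K B ↔ x ∈ K)) ∧
      e = (((Maj K B \ B).filter (fun x => chi x = 0)).card : ℤ) +
        (((B \ Maj K B).filter (fun x => chi x = 0)).card : ℤ) := by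
  have hpos : (0 : ℤ) < KK.card := by exact_mod_cast sc2_pos K KK hKK
  have hn1 : (0 : ℤ) ≤ ((KK \ lev chi B 0).card : ℤ) := by positivity
  have hn2 : (0 : ℤ) ≤ ((lev chi B 0 \ KK).card : ℤ) := by positivity
  have hmaj : ∀ x, chi x = 0 → (x ∈ Maj K B ↔ x ∈ K) := by
    intro x hx0
    rw [sc2_mem K KK hKK]
    constructor
    · intro h
      by_contra hx
      have := sc2_out chi B K KK hKK hKL x hx0 hx
      omega
    · intro hx
      have := sc2_in chi B K KK hKK hKL x hx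
      omega
  refine ⟨hmaj, ?_⟩
  have e1 : (Maj K B \ B).filter (fun x => chi x = 0) = KK \ lev chi B 0 := by
    ext x
    unfold lev
    rw [mem_filter, mem_sdiff, mem_sdiff, mem_filter, hKK]
    constructor
    · intro h
      exact ⟨(hmaj x h.2).mp h.1.1, fun h' => h.1.2 h'.1⟩
    · intro h
      have hx0 := hKL x h.1
      exact ⟨⟨(hmaj x hx0).mpr h.1, fun h' => h.2 ⟨h', hx0⟩⟩, hx0⟩
  have e2 : (B \ Maj K B).filter (fun x => chi x = 0) = lev chi B 0 \ KK := by
    ext x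
    unfold lev
    rw [mem_filter, mem_sdiff, mem_sdiff, mem_filter, hKK]
    constructor
    · intro h
      exact ⟨⟨h.1.1, h.2⟩, fun h' => h.1.2 ((hmaj x h.2).mpr h')⟩
    · intro h
      exact ⟨⟨h.1.1, fun h' => h.2 ((hmaj x h.1.2).mp h')⟩, h.1.2⟩
  rw [e1, e2]
  exact he

end blocks

theorem maj_zero : type_of% @maj_zero_pr := @maj_zero_pr

end Pool.Agent.ST
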