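import Mathlib
import Pool.Agent.Lib_helper28.ST.Defs
import Pool.Agent.Lib_helper25.PR.PB
import Pool.Agent.Lib_helper25.PR.PC
import Pool.Agent.Lib_helper28.ST.Defs2
import Pool.Agent.Lib_helper25.PR.PD
import Pool.Agent.Lib_helper25.PR.PE
import Pool.Agent.Lib_helper28.ST.L.SA2
import Pool.Agent.Lib_helper28.ST.L.SC1
import Pool.Agent.Lib_helper28.ST.L.SC2

/-!
# Theorem ST, block SC3: the budget
-/

set_option autoImplicit false

namespace Pool.Agent.ST

open Finset Pool.Agent.Lib_helper13.PL Pool.Agent.POS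

section sc3
variable {G : Type*} [AddCommGroup G] [DecidableEq G]

theorem sc3_cost_empty (B0 : Finset G) : cost (∅ : Finset G) B0 = 0 := by
  unfold cost dlt
  simp

/-- the part of a set on the levels with the property `P` -/
theorem sc3_fiber {m : ℕ} [NeZero m] (chi : G →+ ZMod m) (P : ZMod m → Prop) [DecidablePred P]
    (X : Finset G) :
    ((X.filter (fun x => P (chi x))).card : ℤ) =
      ∑ u ∈ univ.filter P, (((X.filter (fun x => chi x = u))).card : ℤ) := by
  have h := Finset.card_eq_sum_card_fiberwise (f := chi) (s := X.filter (fun x => P (chi x)))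
    (t := univ.filter P) (by
      intro x hx
      simpa using (Finset.mem_filter.mp hx).2)
  rw [h]
  push_cast
  refine Finset.sum_congr rfl fun u hu => ?_
  congr 2
  ext x
  simp only [Finset.mem_filter]
  constructor
  · rintro ⟨⟨h1, h2⟩, h3⟩
    exact ⟨h1, h3⟩
  · rintro ⟨h1, h3⟩
    exact ⟨⟨h1, by rw [h3]; exact (Finset.mem_filter.mp hu).2⟩, h3⟩

theorem budget_pr [Fintype G] {m : ℕ} [NeZero m] (chi : G →+ ZMod m) (B : Finset G)
    (hB : NoWrap chi B) (K : AddSubgroup G) (KK : Finset G) (hKK : ∀ x, x ∈ KK ↔ x ∈ K)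
    (hKL : ∀ x ∈ K, chi x = 0) (k e : ℤ) (hk : k = KK.card)
    (he : e = ((KK \ lev chi B 0).card : ℤ) + ((lev chi B 0 \ KK).card : ℤ)) (h4 : 4 * e ≤ k)
    (hF : -4 * k ^ 2 < 5 * GL.FF B) :
    ∃ np nm : ℕ,
      (∀ x ∈ Maj K B, ∀ y ∈ Maj K B, chi x = chi y → x - y ∈ K) ∧
      (((Maj K B).filter (fun x => 0 < hg chi x)).card : ℤ) = np * k ∧
      (((Maj K B).filter (fun x => hg chi x < 0)).card : ℤ) = nm * k ∧
      ∀ y : ℤ, e + y = ((Maj K B \ B).card : ℤ) + ((B \ Maj K B).card : ℤ) →
        0 ≤ y ∧ |DD chi B - ((np : ℤ) - nm) * k| ≤ y ∧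
        GL.FF B + DD chi B ^ 2 + 4 * missp chi B + 4 * missn chi B + 8 * missm chi B ≤
          k ^ 2 - 6 * k * e + 9 * e ^ 2 - 2 * k * e * ((np : ℤ) + nm) - (3 * k - 10 * e) * y := by
  classical
  -- positivity
  have hk1 : 1 ≤ k := by
    have h0 : (0 : G) ∈ KK := (hKK 0).2 K.zero_mem
    have : 0 < KK.card := Finset.card_pos.mpr ⟨0, h0⟩
    rw [hk]
    exact_mod_cast this
  have he0 : 0 ≤ e := by rw [he]; positivity
  set B0 := lev chi B 0 with hB0
  -- the value of level 0
  have hF0 : GL.FF B0 ≤ k ^ 2 - 6 * k * e + 9 * e ^ 2 := by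
    have h := ff0 K KK hKK B0 k _ _ hk rfl rfl
    have hp : (0 : ℤ) ≤ ((KK \ B0).card : ℤ) := by positivity
    have hr : (0 : ℤ) ≤ ((B0 \ KK).card : ℤ) := by positivity
    rw [he]
    nlinarith [mul_nonneg hp hr]
  have hpeel := peel_miss chi B hB
  rw [← hB0] at hpeel
  have hcn : ∀ u, 0 ≤ cost (lev chi B u) B0 := fun u => cost_nonneg _ _
  have hmp : 0 ≤ missp chi B := by unfold missp; positivity
  have hmn : 0 ≤ missn chi B := by unfold missn; positivity
  have hmm : 0 ≤ missm chi B := by unfold missm; positivity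
  have hc0 : ∀ u, u ∉ B.image chi → cost (lev chi B u) B0 = 0 := by
    intro u hu
    have : lev chi B u = ∅ := by
      unfold lev
      rw [Finset.filter_eq_empty_iff]
      intro x hx hxu
      exact hu (Finset.mem_image.mpr ⟨x, hx, hxu⟩)
    rw [this]
    exact sc3_cost_empty B0
  have hsum : ∑ u ∈ (B.image chi).erase 0, cost (lev chi B u) B0 =
      ∑ u ∈ univ.filter (fun u : ZMod m => u ≠ 0), cost (lev chi B u) B0 := by
    refine Finset.sum_subset ?_ ?_
    · intro u hu
      simp only [Finset.mem_filter, Finset.mem_univ, true_and]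
      exact (Finset.mem_erase.mp hu).1
    · intro u hu hu'
      apply hc0
      intro hmem
      exact hu' (Finset.mem_erase.mpr ⟨(Finset.mem_filter.mp hu).2, hmem⟩)
  have hcu : ∀ u, u ≠ 0 → cost (lev chi B u) B0 < 2 * k ^ 2 := by
    intro u hu
    have h1 : cost (lev chi B u) B0 ≤
        ∑ u ∈ univ.filter (fun u : ZMod m => u ≠ 0), cost (lev chi B u) B0 :=
      Finset.single_le_sum (f := fun u => cost (lev chi B u) B0) (fun i _ => hcn i)
        (by simp [hu])
    have h2 := sq_nonneg (DD chi B)
    rw [hsum] at hpeel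
    nlinarith
  -- levels
  have hlev := fun (u : ZMod m) (hu : u ≠ 0) =>
    maj_lev chi B K KK hKK hKL k e hk he h4 u (hcu u hu)
  have hzero := maj_zero chi B K KK hKK hKL k e hk he h4
  rw [← hB0] at hlev
  set X := Maj K B with hX
  set Mu : ZMod m → Finset G := fun u => X.filter (fun x => chi x = u) with hMu
  set dev : ZMod m → ℤ := fun u =>
    ((Mu u \ lev chi B u).card : ℤ) + ((lev chi B u \ Mu u).card : ℤ) with hdev
  set ne : ZMod m → ℕ := fun u => if (Mu u).Nonempty then 1 else 0 with hne
  have hdev0 : ∀ u, 0 ≤ dev u := fun u => by simp only [hdev]; positivity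
  have hcard : ∀ u, u ≠ 0 → ((Mu u).card : ℤ) = ne u * k := by
    intro u hu
    rcases hlev u hu with ⟨h1, -⟩ | ⟨h1, -, -⟩
    · have h1' : Mu u = ∅ := h1
      simp [hne, h1']
    · have h1' : ((Mu u).card : ℤ) = k := h1
      have h2 : (Mu u).Nonempty := by
        rw [← Finset.card_pos]
        have : (0 : ℤ) < (Mu u).card := by rw [h1']; linarith
        exact_mod_cast this
      simp [hne, h2, h1']
  have hcost : ∀ u, u ≠ 0 → 2 * k * e * ne u + (3 * k - 10 * e) * dev u ≤
      cost (lev chi B u) B0 := by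
    intro u hu
    rcases hlev u hu with ⟨h1, h2⟩ | ⟨h1, -, h2⟩
    · have h1' : Mu u = ∅ := h1
      have h3 : dev u = (lev chi B u).card := by simp [hdev, h1']
      have h4 : ne u = 0 := by simp [hne, h1']
      rw [h3, h4]
      simpa using h2
    · have h1' : ((Mu u).card : ℤ) = k := h1
      have h3 : (Mu u).Nonempty := by
        rw [← Finset.card_pos]
        have : (0 : ℤ) < (Mu u).card := by rw [h1']; linarith
        exact_mod_cast this
      have h4 : ne u = 1 := by simp [hne, h3]
      rw [h4]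
      simpa using h2
  refine ⟨∑ u ∈ univ.filter (fun u : ZMod m => 0 < u.valMinAbs), ne u,
    ∑ u ∈ univ.filter (fun u : ZMod m => u.valMinAbs < 0), ne u, ?_, ?_, ?_, ?_⟩
  · intro x hx y hy hxy
    by_cases hx0 : chi x = 0
    · exact K.sub_mem ((hzero.1 x hx0).1 hx) ((hzero.1 y (hxy ▸ hx0)).1 hy)
    · rcases hlev (chi x) hx0 with ⟨h1, -⟩ | ⟨-, h1, -⟩
      · exfalso
        have : x ∈ X.filter (fun z => chi z = chi x) := Finset.mem_filter.mpr ⟨hx, rfl⟩
        rw [h1] at this
        exact absurd this (Finset.notMem_empty _)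
      · exact h1 x hx rfl y hy hxy.symm
  · have h := sc3_fiber chi (fun u => 0 < u.valMinAbs) X
    have h' : X.filter (fun x => 0 < hg chi x) = X.filter (fun x => 0 < (chi x).valMinAbs) := rfl
    rw [h', h]
    push_cast
    rw [Finset.sum_mul]
    refine Finset.sum_congr rfl fun u hu => ?_
    refine hcard u ?_
    rintro rfl
    simp at hu
  · have h := sc3_fiber chi (fun u => u.valMinAbs < 0) X
    have h' : X.filter (fun x => hg chi x < 0) = X.filter (fun x => (chi x).valMinAbs < 0) := rfl
    rw [h', h]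
    push_cast
    rw [Finset.sum_mul]
    refine Finset.sum_congr rfl fun u hu => ?_
    refine hcard u ?_
    rintro rfl
    simp at hu
  · intro y hy
    -- the level sets of the differences
    have hd1 : ∀ u, (X \ B).filter (fun x => chi x = u) = Mu u \ lev chi B u := by
      intro u
      ext x
      simp only [hMu, lev, Finset.mem_filter, Finset.mem_sdiff]
      tauto
    have hd2 : ∀ u, (B \ X).filter (fun x => chi x = u) = lev chi B u \ Mu u := by
      intro u
      ext x
      simp only [hMu, lev, Finset.mem_filter, Finset.mem_sdiff]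
      tauto
    have hs1 := sc3_fiber chi (fun _ => True) (X \ B)
    have hs2 := sc3_fiber chi (fun _ => True) (B \ X)
    simp only [Finset.filter_true, hd1] at hs1
    simp only [Finset.filter_true, hd2] at hs2
    have hdev00 : dev 0 = e := by
      rw [hzero.2, hd1, hd2]
    have htot : e + y = ∑ u, dev u := by
      rw [hy, hs1, hs2, ← Finset.sum_add_distrib]
    have hsplit0 : ∀ f : ZMod m → ℤ, ∑ u, f u = f 0 +
        ∑ u ∈ univ.filter (fun u : ZMod m => u ≠ 0), f u := by
      intro f
      rw [← Finset.add_sum_erase univ f (Finset.mem_univ 0)]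
      congr 1
      refine Finset.sum_congr ?_ fun _ _ => rfl
      ext u
      simp
    have hyy : y = ∑ u ∈ univ.filter (fun u : ZMod m => u ≠ 0), dev u := by
      have := hsplit0 dev
      linarith
    have hsplit : ∀ f : ZMod m → ℤ, ∑ u ∈ univ.filter (fun u : ZMod m => u ≠ 0), f u =
        ∑ u ∈ univ.filter (fun u : ZMod m => 0 < u.valMinAbs), f u +
        ∑ u ∈ univ.filter (fun u : ZMod m => u.valMinAbs < 0), f u := by
      intro f
      rw [← Finset.sum_union]
      · refine Finset.sum_congr ?_ fun _ _ => rfl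
        ext u
        simp only [Finset.mem_filter, Finset.mem_univ, true_and, Finset.mem_union]
        rw [← or_comm, ← ne_iff_lt_or_gt, ne_eq, ne_eq, ZMod.valMinAbs_eq_zero]
      · rw [Finset.disjoint_left]
        intro u hu hu'
        have h1 := (Finset.mem_filter.mp hu).2
        have h2 := (Finset.mem_filter.mp hu').2
        omega
    -- deviations of the masses
    have hmass : ∀ u : ZMod m, u ≠ 0 → |((lev chi B u).card : ℤ) - ne u * k| ≤ dev u := by
      intro u hu
      rw [← hcard u hu]
      have h1 := Finset.card_sdiff_add_card_inter (lev chi B u) (Mu u)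
      have h2 := Finset.card_sdiff_add_card_inter (Mu u) (lev chi B u)
      rw [Finset.inter_comm] at h2
      have h1' : (((lev chi B u) \ (Mu u)).card : ℤ) + ((lev chi B u) ∩ (Mu u)).card =
        (lev chi B u).card := by exact_mod_cast h1
      have h2' : (((Mu u) \ (lev chi B u)).card : ℤ) + ((lev chi B u) ∩ (Mu u)).card =
        (Mu u).card := by exact_mod_cast h2
      have h3 : (0 : ℤ) ≤ (((lev chi B u) \ (Mu u)).card : ℤ) := by positivity
      have h4 : (0 : ℤ) ≤ (((Mu u) \ (lev chi B u)).card : ℤ) := by positivity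
      simp only [hdev]
      rw [abs_le]
      constructor <;> linarith
    have hSP : |(∑ u ∈ univ.filter (fun u : ZMod m => 0 < u.valMinAbs),
        (((lev chi B u).card : ℤ) - ne u * k))| ≤
        ∑ u ∈ univ.filter (fun u : ZMod m => 0 < u.valMinAbs), dev u := by
      refine (Finset.abs_sum_le_sum_abs _ _).trans (Finset.sum_le_sum fun u hu => ?_)
      refine hmass u ?_
      rintro rfl
      simp at hu
    have hSN : |(∑ u ∈ univ.filter (fun u : ZMod m => u.valMinAbs < 0),
        (((lev chi B u).card : ℤ) - ne u * k))| ≤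
        ∑ u ∈ univ.filter (fun u : ZMod m => u.valMinAbs < 0), dev u := by
      refine (Finset.abs_sum_le_sum_abs _ _).trans (Finset.sum_le_sum fun u hu => ?_)
      refine hmass u ?_
      rintro rfl
      simp at hu
    have hDD : DD chi B = ∑ u ∈ univ.filter (fun u : ZMod m => 0 < u.valMinAbs),
        ((lev chi B u).card : ℤ) - ∑ u ∈ univ.filter (fun u : ZMod m => u.valMinAbs < 0),
        ((lev chi B u).card : ℤ) := by
      unfold DD
      rw [sc3_fiber chi (fun u => 0 < u.valMinAbs) B, sc3_fiber chi (fun u => u.valMinAbs < 0) B]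
      rfl
    have hbud : 2 * k * e * ((∑ u ∈ univ.filter (fun u : ZMod m => 0 < u.valMinAbs), (ne u : ℤ)) +
        ∑ u ∈ univ.filter (fun u : ZMod m => u.valMinAbs < 0), (ne u : ℤ)) +
        (3 * k - 10 * e) * y ≤
        ∑ u ∈ univ.filter (fun u : ZMod m => u ≠ 0), cost (lev chi B u) B0 := by
      rw [← hsplit (fun u => (ne u : ℤ)), hyy, Finset.mul_sum, Finset.mul_sum,
        ← Finset.sum_add_distrib]
      exact Finset.sum_le_sum fun u hu => hcost u (Finset.mem_filter.mp hu).2
    rw [Finset.sum_sub_distrib, ← Finset.sum_mul] at hSP hSN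
    rw [hsplit dev] at hyy
    push_cast
    refine ⟨?_, ?_, ?_⟩
    · rw [hyy]
      exact add_nonneg (Finset.sum_nonneg fun u _ => hdev0 u)
        (Finset.sum_nonneg fun u _ => hdev0 u)
    · rw [abs_le] at hSP hSN ⊢
      rw [hDD, hyy, sub_mul]
      constructor <;> linarith [hSP.1, hSP.2, hSN.1, hSN.2]
    · rw [hsum] at hpeel
      linarith

end sc3

theorem budget : type_of% @budget_pr := @budget_pr

end Pool.Agent.ST
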