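import Mathlib
import Pool.Agent.Lib_helper28.ST.Defs
import Pool.Agent.Lib_helper28.ST.Defs2

set_option autoImplicit false

namespace Pool.Agent.ST

open Finset Pool.Agent.Lib_helper13.PL Pool.Agent.POS

section blocks
variable {G : Type*} [AddCommGroup G] [DecidableEq G]

theorem sd1_gen (B X Z W : Finset G) (φ : G → G → G)
    (hinj : ∀ x ∈ X, Set.InjOn (φ x) (Z : Set G))
    (hW : ∀ x ∈ X, ∀ z ∈ Z, φ x z ∈ B → φ x z ∈ W) :
    (X.card : ℤ) * (Z.card - W.card) ≤
      (((X ×ˢ Z).filter fun p => φ p.1 p.2 ∉ B).card : ℤ) := by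
  have h1 : ∀ x ∈ X, (Z.card : ℤ) - W.card ≤ ((Z.filter fun z => φ x z ∉ B).card : ℤ) := by
    intro x hx
    have h2 : (Z.filter fun z => φ x z ∈ B).card ≤ W.card := by
      refine Finset.card_le_card_of_injOn (φ x) ?_ ?_
      · intro z hz
        rw [Finset.mem_coe, Finset.mem_filter] at hz
        exact hW x hx z hz.1 hz.2
      · exact (hinj x hx).mono (Finset.coe_subset.2 (Finset.filter_subset _ _))
    have h3 := Finset.card_filter_add_card_filter_not (s := Z) (fun z => φ x z ∈ B)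
    have h4 : ((Z.filter fun z => φ x z ∈ B).card : ℤ) + (Z.filter fun z => φ x z ∉ B).card =
        Z.card := by exact_mod_cast h3
    have h5 : ((Z.filter fun z => φ x z ∈ B).card : ℤ) ≤ W.card := by exact_mod_cast h2
    linarith
  have h6 : (((X ×ˢ Z).filter fun p => φ p.1 p.2 ∉ B).card : ℤ) =
      ∑ x ∈ X, ((Z.filter fun z => φ x z ∉ B).card : ℤ) := by
    rw [Finset.card_filter, Finset.sum_product]
    push_cast
    refine Finset.sum_congr rfl fun x _ => ?_
    rw [Finset.card_filter]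
    push_cast
    rfl
  rw [h6]
  calc (X.card : ℤ) * (Z.card - W.card) = ∑ x ∈ X, ((Z.card : ℤ) - W.card) := by
        rw [Finset.sum_const, nsmul_eq_mul]
    _ ≤ _ := Finset.sum_le_sum h1

theorem sd1_hg {m : ℕ} (chi : G →+ ZMod m) (K : AddSubgroup G) (hKL : ∀ x ∈ K, chi x = 0)
    {x x' : G} (h : x' - x ∈ K) : hg chi x' = hg chi x := by
  have h1 := hKL _ h
  rw [map_sub, sub_eq_zero] at h1
  unfold hg
  rw [h1]

/-- SD1 : counting missing pairs -/
theorem missp_ge_pr {m : ℕ} (chi : G →+ ZMod m) (B : Finset G) (K : AddSubgroup G)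
    (hKL : ∀ x ∈ K, chi x = 0) (x z : G) (hx : 0 < hg chi x) (hxz : hg chi x < hg chi z) :
    th K B x * (th K B z - th K B (z - x)) ≤ missp chi B := by
  classical
  unfold th missp
  refine (sd1_gen B (B.filter fun y => y - x ∈ K) (B.filter fun y => y - z ∈ K)
    (B.filter fun y => y - (z - x) ∈ K) (fun a b => b - a) ?_ ?_).trans ?_
  · intro a _ b _ b' _ h
    exact sub_left_injective h
  · intro a ha b hb hB
    rw [Finset.mem_filter] at ha hb ⊢
    refine ⟨hB, ?_⟩
    have h := K.sub_mem hb.2 ha.2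
    have e : b - z - (a - x) = b - a - (z - x) := by abel
    rwa [e] at h
  · refine Int.ofNat_le.2 (Finset.card_le_card ?_)
    intro q hq
    rw [Finset.mem_filter, Finset.mem_product, Finset.mem_filter, Finset.mem_filter] at hq
    obtain ⟨⟨⟨ha, ha'⟩, hb, hb'⟩, hn⟩ := hq
    rw [Finset.mem_filter, Finset.mem_product]
    refine ⟨⟨ha, hb⟩, ?_, ?_, hn⟩
    · rw [sd1_hg chi K hKL ha']
      exact hx
    · rw [sd1_hg chi K hKL ha', sd1_hg chi K hKL hb']
      exact hxz

theorem missn_ge_pr {m : ℕ} (chi : G →+ ZMod m) (B : Finset G) (K : AddSubgroup G)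
    (hKL : ∀ x ∈ K, chi x = 0) (x z : G) (hx : hg chi x < 0) (hxz : hg chi z < hg chi x) :
    th K B x * (th K B z - th K B (z - x)) ≤ missn chi B := by
  classical
  unfold th missn
  refine (sd1_gen B (B.filter fun y => y - x ∈ K) (B.filter fun y => y - z ∈ K)
    (B.filter fun y => y - (z - x) ∈ K) (fun a b => b - a) ?_ ?_).trans ?_
  · intro a _ b _ b' _ h
    exact sub_left_injective h
  · intro a ha b hb hB
    rw [Finset.mem_filter] at ha hb ⊢
    refine ⟨hB, ?_⟩
    have h := K.sub_mem hb.2 ha.2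
    have e : b - z - (a - x) = b - a - (z - x) := by abel
    rwa [e] at h
  · refine Int.ofNat_le.2 (Finset.card_le_card ?_)
    intro q hq
    rw [Finset.mem_filter, Finset.mem_product, Finset.mem_filter, Finset.mem_filter] at hq
    obtain ⟨⟨⟨ha, ha'⟩, hb, hb'⟩, hn⟩ := hq
    rw [Finset.mem_filter, Finset.mem_product]
    refine ⟨⟨ha, hb⟩, ?_, ?_, hn⟩
    · rw [sd1_hg chi K hKL ha', sd1_hg chi K hKL hb']
      exact hxz
    · rw [sd1_hg chi K hKL ha']
      exact hx

theorem missm_ge_pr {m : ℕ} (chi : G →+ ZMod m) (B : Finset G) (K : AddSubgroup G)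
    (hKL : ∀ x ∈ K, chi x = 0) (x z : G) (hx : 0 < hg chi x) (hz : hg chi z < 0) :
    th K B x * (th K B z - th K B (x + z)) ≤ missm chi B := by
  classical
  unfold th missm
  refine (sd1_gen B (B.filter fun y => y - x ∈ K) (B.filter fun y => y - z ∈ K)
    (B.filter fun y => y - (x + z) ∈ K) (fun a b => a + b) ?_ ?_).trans ?_
  · intro a _ b _ b' _ h
    exact add_left_cancel h
  · intro a ha b hb hB
    rw [Finset.mem_filter] at ha hb ⊢
    refine ⟨hB, ?_⟩
    have h := K.add_mem ha.2 hb.2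
    have e : a - x + (b - z) = a + b - (x + z) := by abel
    rwa [e] at h
  · refine Int.ofNat_le.2 (Finset.card_le_card ?_)
    intro q hq
    rw [Finset.mem_filter, Finset.mem_product, Finset.mem_filter, Finset.mem_filter] at hq
    obtain ⟨⟨⟨ha, ha'⟩, hb, hb'⟩, hn⟩ := hq
    rw [Finset.mem_filter, Finset.mem_product]
    refine ⟨⟨ha, hb⟩, ?_, ?_, hn⟩
    · rw [sd1_hg chi K hKL ha']
      exact hx
    · rw [sd1_hg chi K hKL hb']
      exact hz

end blocks

theorem missp_ge : type_of% @missp_ge_pr := @missp_ge_pr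

theorem missn_ge : type_of% @missn_ge_pr := @missn_ge_pr

theorem missm_ge : type_of% @missm_ge_pr := @missm_ge_pr

end Pool.Agent.ST
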