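import Mathlib
import Pool.Agent.Lib_helper28.ST.Defs
import Pool.Agent.Lib_helper28.ST.Defs2
import Pool.Agent.Lib_helper25.PR.PD
import Pool.Agent.Lib_helper25.PR.PE
import Pool.Agent.Lib_helper28.ST.L.SC2
set_option autoImplicit false

namespace Pool.Agent.ST

open Finset Pool.Agent.Lib_helper13.PL Pool.Agent.POS

section blocks
variable {G : Type*} [AddCommGroup G] [DecidableEq G]

open Classical in
/-- the coset of `x` -/
noncomputable def sd2_cos [Fintype G] (K : AddSubgroup G) (x : G) : Finset G :=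
  univ.filter (fun w => w - x ∈ K)

theorem sd2_mem [Fintype G] (K : AddSubgroup G) (x w : G) : w ∈ sd2_cos K x ↔ w - x ∈ K := by
  classical
  unfold sd2_cos
  rw [mem_filter]
  exact ⟨fun h => h.2, fun h => ⟨mem_univ _, h⟩⟩

theorem sd2_card [Fintype G] (K : AddSubgroup G) (KK : Finset G) (hKK : ∀ x, x ∈ KK ↔ x ∈ K)
    (x : G) : (sd2_cos K x).card = KK.card := by
  have h : sd2_cos K x = KK.image (fun a => a + x) := by
    ext w
    rw [sd2_mem, mem_image]
    constructor
    · intro h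
      exact ⟨w - x, (hKK _).mpr h, sub_add_cancel w x⟩
    · rintro ⟨a, ha, rfl⟩
      rw [add_sub_cancel_right]
      exact (hKK _).mp ha
  rw [h, card_image_of_injective _ (add_left_injective x)]

theorem sd2_th [Fintype G] (K : AddSubgroup G) (B : Finset G) (x : G) :
    th K B x = ((B ∩ sd2_cos K x).card : ℤ) := by
  classical
  unfold th
  congr 2
  ext w
  rw [mem_filter, mem_inter, sd2_mem]

theorem sd2_congr [Fintype G] (K : AddSubgroup G) (B : Finset G) (x w : G) (h : w - x ∈ K) :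
    th K B w = th K B x := by
  rw [sd2_th, sd2_th]
  have : sd2_cos K w = sd2_cos K x := by
    ext a
    rw [sd2_mem, sd2_mem]
    constructor
    · intro ha
      have := K.add_mem ha h
      rwa [sub_add_sub_cancel] at this
    · intro ha
      have := K.sub_mem ha h
      rwa [sub_sub_sub_cancel_right] at this
  rw [this]

theorem sd2_maj [Fintype G] (K : AddSubgroup G) (B : Finset G) (x w : G) (h : w - x ∈ K) :
    w ∈ Maj K B ↔ x ∈ Maj K B := by
  classical
  unfold Maj
  rw [mem_filter, mem_filter, sd2_congr K B x w h]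
  exact ⟨fun h => ⟨mem_univ _, h.2⟩, fun h => ⟨mem_univ _, h.2⟩⟩

theorem sd2_chi {m : ℕ} (chi : G →+ ZMod m) (K : AddSubgroup G)
    (hKL : ∀ x ∈ K, chi x = 0) (x w : G) (h : w - x ∈ K) : chi w = chi x := by
  have := hKL _ h
  rw [map_sub] at this
  exact sub_eq_zero.mp this

theorem sd2_gap [Fintype G] (K : AddSubgroup G) (KK : Finset G) (hKK : ∀ x, x ∈ KK ↔ x ∈ K)
    (B : Finset G) (x : G) :
    ((sd2_cos K x \ B).card : ℤ) = (KK.card : ℤ) - th K B x := by
  rw [sd2_th, ← sd2_card K KK hKK x]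
  have h := card_inter_add_card_sdiff (sd2_cos K x) B
  rw [inter_comm] at h
  have h' : (((B ∩ sd2_cos K x).card : ℤ)) + ((sd2_cos K x \ B).card : ℤ) =
      ((sd2_cos K x).card : ℤ) := by exact_mod_cast h
  linarith

theorem dev_three_pr [Fintype G] {m : ℕ} (chi : G →+ ZMod m) (B : Finset G)
    (K : AddSubgroup G) (KK : Finset G) (hKK : ∀ x, x ∈ KK ↔ x ∈ K)
    (hKL : ∀ x ∈ K, chi x = 0) (k e : ℤ) (hk : k = KK.card)
    (he : e = ((KK \ lev chi B 0).card : ℤ) + ((lev chi B 0 \ KK).card : ℤ)) (h4 : 4 * e ≤ k)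
    (y : ℤ) (hy : e + y = ((Maj K B \ B).card : ℤ) + ((B \ Maj K B).card : ℤ))
    (x z v : G) (hx : x ∈ Maj K B) (hz : z ∈ Maj K B) (hv : v ∉ Maj K B)
    (hx0 : chi x ≠ 0) (hz0 : chi z ≠ 0) (hxz : x - z ∉ K) :
    (chi v ≠ 0 → (k - th K B x) + (k - th K B z) + th K B v ≤ y) ∧
      (chi v = 0 → (k - th K B x) + (k - th K B z) ≤ y ∧ th K B v ≤ e) := by
  classical
  obtain ⟨hmaj, he2⟩ := maj_zero chi B K KK hKK hKL k e hk he h4
  have s1 := card_filter_add_card_filter_not (s := Maj K B \ B) (fun x => chi x = 0)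
  have s2 := card_filter_add_card_filter_not (s := B \ Maj K B) (fun x => chi x = 0)
  have s1' : (((Maj K B \ B).filter (fun x => chi x = 0)).card : ℤ) +
      (((Maj K B \ B).filter (fun x => ¬ chi x = 0)).card : ℤ) = ((Maj K B \ B).card : ℤ) := by
    exact_mod_cast s1
  have s2' : (((B \ Maj K B).filter (fun x => chi x = 0)).card : ℤ) +
      (((B \ Maj K B).filter (fun x => ¬ chi x = 0)).card : ℤ) = ((B \ Maj K B).card : ℤ) := by
    exact_mod_cast s2
  have hyy : y = (((Maj K B \ B).filter (fun x => ¬ chi x = 0)).card : ℤ) +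
      (((B \ Maj K B).filter (fun x => ¬ chi x = 0)).card : ℤ) := by linarith
  have gx := sd2_gap K KK hKK B x
  have gz := sd2_gap K KK hKK B z
  have hdis : Disjoint (sd2_cos K x \ B) (sd2_cos K z \ B) := by
    rw [Finset.disjoint_left]
    intro w hw hw'
    rw [mem_sdiff, sd2_mem] at hw hw'
    apply hxz
    have := K.sub_mem hw'.1 hw.1
    rwa [sub_sub_sub_cancel_left] at this
  have hsub : (sd2_cos K x \ B) ∪ (sd2_cos K z \ B) ⊆
      (Maj K B \ B).filter (fun x => ¬ chi x = 0) := by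
    intro w hw
    rw [mem_union, mem_sdiff, mem_sdiff, sd2_mem, sd2_mem] at hw
    rw [mem_filter, mem_sdiff]
    rcases hw with ⟨h1, h2⟩ | ⟨h1, h2⟩
    · refine ⟨⟨(sd2_maj K B x w h1).mpr hx, h2⟩, ?_⟩
      rw [sd2_chi chi K hKL x w h1]
      exact hx0
    · refine ⟨⟨(sd2_maj K B z w h1).mpr hz, h2⟩, ?_⟩
      rw [sd2_chi chi K hKL z w h1]
      exact hz0
  have hc1 : ((sd2_cos K x \ B).card : ℤ) + ((sd2_cos K z \ B).card : ℤ) ≤
      (((Maj K B \ B).filter (fun x => ¬ chi x = 0)).card : ℤ) := by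
    have := card_le_card hsub
    rw [card_union_of_disjoint hdis] at this
    exact_mod_cast this
  have hn : (0 : ℤ) ≤ (((B \ Maj K B).filter (fun x => ¬ chi x = 0)).card : ℤ) := by positivity
  constructor
  · intro hv0
    have hsub2 : B ∩ sd2_cos K v ⊆ (B \ Maj K B).filter (fun x => ¬ chi x = 0) := by
      intro w hw
      rw [mem_inter, sd2_mem] at hw
      rw [mem_filter, mem_sdiff]
      refine ⟨⟨hw.1, fun h => hv ((sd2_maj K B v w hw.2).mp h)⟩, ?_⟩
      rw [sd2_chi chi K hKL v w hw.2]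
      exact hv0
    have hc2 : th K B v ≤ (((B \ Maj K B).filter (fun x => ¬ chi x = 0)).card : ℤ) := by
      rw [sd2_th]
      exact_mod_cast card_le_card hsub2
    linarith
  · intro hv0
    refine ⟨by linarith, ?_⟩
    have hvK : v ∉ K := fun h => hv ((hmaj v hv0).mpr h)
    have hsub3 : B ∩ sd2_cos K v ⊆ lev chi B 0 \ KK := by
      intro w hw
      rw [mem_inter, sd2_mem] at hw
      unfold lev
      rw [mem_sdiff, mem_filter, hKK]
      refine ⟨⟨hw.1, ?_⟩, ?_⟩
      · rw [sd2_chi chi K hKL v w hw.2]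
        exact hv0
      · intro hwK
        apply hvK
        have := K.sub_mem hwK hw.2
        rwa [sub_sub_cancel] at this
    have hc3 : th K B v ≤ ((lev chi B 0 \ KK).card : ℤ) := by
      rw [sd2_th]
      exact_mod_cast card_le_card hsub3
    have hn1 : (0 : ℤ) ≤ ((KK \ lev chi B 0).card : ℤ) := by positivity
    linarith

end blocks

theorem dev_three : type_of% @dev_three_pr := @dev_three_pr

end Pool.Agent.ST
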