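import Mathlib
import Pool.Agent.Lib_helper28.ST.Defs
import Pool.Agent.Lib_helper28.ST.Defs2

set_option autoImplicit false

namespace Pool.Agent.ST

open Finset Pool.Agent.Lib_helper13.PL Pool.Agent.POS

theorem sd3_key1 (k e p s : ℤ) (hk : 0 < k) (he : 0 ≤ e) (h4 : 4 * e ≤ k)
    (hp : 0 ≤ p) (hp2 : 2 * p ≤ k) (hs : 0 ≤ s) (hs2 : s ≤ k) :
    9 * k ^ 2 ≤ 20 * ((k - p) * (k - s)) + 5 * ((3 * k - 10 * e) * (p + s)) + 50 * k * e -
      45 * e ^ 2 := by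
  have h1 : 0 ≤ e * (k - 4 * e) := mul_nonneg he (by linarith)
  have h2 : 0 ≤ k * (k - 4 * e) := mul_nonneg hk.le (by linarith)
  have h3 : 0 ≤ k * (k - s) := mul_nonneg hk.le (by linarith)
  have h5 : 0 ≤ e * (k - s) := mul_nonneg he (by linarith)
  have h6 : 0 ≤ s * (k - 4 * e) := mul_nonneg hs (by linarith)
  have h7 : 0 ≤ e * k := mul_nonneg he hk.le
  have h8 : 0 ≤ s * k := mul_nonneg hs hk.le
  by_cases hc : 0 ≤ -k + 4 * s - 10 * e
  · have h9 : 0 ≤ p * (-k + 4 * s - 10 * e) := mul_nonneg hp hc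
    nlinarith
  · have h9 : 0 ≤ (k - 2 * p) * (k - 4 * s + 10 * e) := mul_nonneg (by linarith) (by linarith)
    nlinarith

theorem sd3_key2 (k e p s : ℤ) (hk : 0 < k) (he : 0 ≤ e) (h4 : 4 * e ≤ k)
    (hp : 0 ≤ p) (hp2 : 2 * p ≤ k) (hs : 0 ≤ s) (hs2 : 2 * s ≤ k) :
    9 * k ^ 2 ≤ 20 * ((k - p) * (k - s - e)) + 5 * ((3 * k - 10 * e) * (p + s)) + 50 * k * e -
      45 * e ^ 2 := by
  have h1 : 0 ≤ e * (k - 4 * e) := mul_nonneg he (by linarith)
  have h2 : 0 ≤ k * (k - 4 * e) := mul_nonneg hk.le (by linarith)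
  have h3 : 0 ≤ k * (k - 2 * s) := mul_nonneg hk.le (by linarith)
  have h5 : 0 ≤ e * (k - 2 * s) := mul_nonneg he (by linarith)
  have h6 : 0 ≤ s * (k - 4 * e) := mul_nonneg hs (by linarith)
  have h7 : 0 ≤ e * k := mul_nonneg he hk.le
  have h8 : 0 ≤ s * k := mul_nonneg hs hk.le
  by_cases hc : 0 ≤ -k + 4 * s - 6 * e
  · have h9 : 0 ≤ p * (-k + 4 * s - 6 * e) := mul_nonneg hp hc
    nlinarith
  · have h9 : 0 ≤ (k - 2 * p) * (k - 4 * s + 6 * e) := mul_nonneg (by linarith) (by linarith)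
    nlinarith

/-- SD3 : numbers -/
theorem closure_num_pr (k e y p p' g F M : ℤ) (hk : 0 < k) (he : 0 ≤ e) (h4 : 4 * e ≤ k)
    (hp : 0 ≤ p) (hp2 : 2 * p ≤ k) (hp' : 0 ≤ p') (hp'2 : 2 * p' ≤ k) (hg : 0 ≤ g)
    (hg2 : 2 * g ≤ k) (hy : p + p' + g ≤ y ∨ (p + p' ≤ y ∧ g ≤ e))
    (hM : (k - p) * (k - p' - g) ≤ M) (hF : -4 * k ^ 2 < 5 * F) (n : ℤ) (hn : 2 ≤ n)
    (hbud : F + 4 * M ≤ k ^ 2 - 6 * k * e + 9 * e ^ 2 - 2 * k * e * n - (3 * k - 10 * e) * y) :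
    False := by
  have hke : 0 ≤ k * e := mul_nonneg hk.le he
  have hn' : k * e * 2 ≤ k * e * n := mul_le_mul_of_nonneg_left hn hke
  have hcoef : 0 ≤ 3 * k - 10 * e := by linarith
  rcases hy with hy | ⟨hy, hge⟩
  · have h1 := sd3_key1 k e p (p' + g) hk he h4 hp hp2 (by linarith) (by linarith)
    have h2 : (3 * k - 10 * e) * (p + (p' + g)) ≤ (3 * k - 10 * e) * y :=
      mul_le_mul_of_nonneg_left (by linarith) hcoef
    have h3 : (k - p) * (k - (p' + g)) = (k - p) * (k - p' - g) := by ring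
    rw [h3] at h1
    nlinarith
  · have h1 := sd3_key2 k e p p' hk he h4 hp hp2 hp' hp'2
    have h2 : (3 * k - 10 * e) * (p + p') ≤ (3 * k - 10 * e) * y :=
      mul_le_mul_of_nonneg_left (by linarith) hcoef
    have h3 : (k - p) * (k - p' - e) ≤ (k - p) * (k - p' - g) :=
      mul_le_mul_of_nonneg_left (by linarith) (by linarith)
    nlinarith

theorem closure_num : type_of% @closure_num_pr := @closure_num_pr

end Pool.Agent.ST
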