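import Mathlib
import Pool.Agent.Lib_helper28.ST.Defs
import Pool.Agent.Lib_helper25.PR.PE
import Pool.Agent.Lib_helper28.ST.Defs2
import Pool.Agent.Lib_helper25.PR.PD
import Pool.Agent.Lib_helper28.ST.L.SC3
import Pool.Agent.Lib_helper28.ST.L.SD1
import Pool.Agent.Lib_helper28.ST.L.SD2
import Pool.Agent.Lib_helper28.ST.L.SD3

/-!
# Theorem ST, block SD4: closure
-/

set_option autoImplicit false

namespace Pool.Agent.ST

open Finset Pool.Agent.Lib_helper13.PL Pool.Agent.POS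

section blocks
variable {G : Type*} [AddCommGroup G] [DecidableEq G]

lemma sd4_sub (K : AddSubgroup G) (KK : Finset G) (hKK : ∀ x, x ∈ KK ↔ x ∈ K) (S : Finset G)
    (hS : ∀ x ∈ S, ∀ y, y - x ∈ K → y ∈ S) (x : G) (hx : x ∈ S) :
    KK.image (fun y => x + y) ⊆ S := by
  intro z hz
  rw [Finset.mem_image] at hz
  obtain ⟨y, hy, rfl⟩ := hz
  refine hS x hx _ ?_
  rw [add_sub_cancel_left]
  exact (hKK y).1 hy

lemma sd4_card (KK : Finset G) (x : G) : (KK.image (fun y => x + y)).card = KK.card :=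
  Finset.card_image_of_injective _ (add_right_injective x)

lemma sd4_one (K : AddSubgroup G) (KK : Finset G) (hKK : ∀ x, x ∈ KK ↔ x ∈ K) (S : Finset G)
    (hS : ∀ x ∈ S, ∀ y, y - x ∈ K → y ∈ S) (x : G) (hx : x ∈ S) :
    (KK.card : ℤ) ≤ S.card := by
  have h := Finset.card_le_card (sd4_sub K KK hKK S hS x hx)
  rw [sd4_card] at h
  exact_mod_cast h

lemma sd4_two (K : AddSubgroup G) (KK : Finset G) (hKK : ∀ x, x ∈ KK ↔ x ∈ K) (S : Finset G)
    (hS : ∀ x ∈ S, ∀ y, y - x ∈ K → y ∈ S) (x z : G) (hx : x ∈ S) (hz : z ∈ S)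
    (hxz : x - z ∉ K) :
    2 * (KK.card : ℤ) ≤ S.card := by
  have hd : Disjoint (KK.image (fun y => x + y)) (KK.image (fun y => z + y)) := by
    rw [Finset.disjoint_left]
    intro w hw hw'
    rw [Finset.mem_image] at hw hw'
    obtain ⟨y, hy, rfl⟩ := hw
    obtain ⟨y', hy', h⟩ := hw'
    apply hxz
    have e : x - z = y' - y := by
      have h2 : x = z + y' - y := by rw [h]; abel
      rw [h2]; abel
    rw [e]
    exact K.sub_mem ((hKK _).1 hy') ((hKK _).1 hy)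
  have h := Finset.card_le_card (Finset.union_subset (sd4_sub K KK hKK S hS x hx)
    (sd4_sub K KK hKK S hS z hz))
  rw [Finset.card_union_of_disjoint hd, sd4_card, sd4_card] at h
  have h' : ((KK.card + KK.card : ℕ) : ℤ) ≤ (S.card : ℤ) := by exact_mod_cast h
  push_cast at h'
  linarith

lemma sd4_hg {m : ℕ} (chi : G →+ ZMod m) (K : AddSubgroup G) (hKL : ∀ x ∈ K, chi x = 0)
    (x y : G) (h : y - x ∈ K) : hg chi y = hg chi x := by
  unfold hg
  have h1 := hKL _ h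
  rw [map_sub, sub_eq_zero] at h1
  rw [h1]

lemma sd4_natcard (K : AddSubgroup G) (KK : Finset G) (hKK : ∀ x, x ∈ KK ↔ x ∈ K) :
    Nat.card K = KK.card := by
  have e : K ≃ KK := Equiv.subtypeEquivRight (fun x => (hKK x).symm)
  rw [Nat.card_congr e, Nat.card_eq_fintype_card, Fintype.card_coe]

lemma sd4_mem [Fintype G] (K : AddSubgroup G) (KK : Finset G) (hKK : ∀ x, x ∈ KK ↔ x ∈ K)
    (B : Finset G) (k : ℤ) (hk : k = KK.card) (x : G) :
    x ∈ Maj K B ↔ k < 2 * th K B x := by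
  unfold Maj
  rw [Finset.mem_filter, sd4_natcard K KK hKK, hk]
  simp

lemma sd4_per [Fintype G] (K : AddSubgroup G) (B : Finset G) (x : G) (hx : x ∈ Maj K B)
    (y : G) (h : y - x ∈ K) : y ∈ Maj K B := by
  unfold Maj at *
  rw [Finset.mem_filter] at *
  refine ⟨Finset.mem_univ _, ?_⟩
  rw [pe_th_congr K B h]
  exact hx.2

lemma sd4_th_le (K : AddSubgroup G) (KK : Finset G) (hKK : ∀ x, x ∈ KK ↔ x ∈ K) (B : Finset G)
    (k : ℤ) (hk : k = KK.card) (x : G) : th K B x ≤ k := by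
  rw [pe_th K KK hKK, hk]
  exact_mod_cast Finset.card_filter_le _ _

lemma sd4_th_nonneg (K : AddSubgroup G) (B : Finset G) (x : G) : 0 ≤ th K B x := by
  unfold th
  positivity

/-- the common part -/
lemma sd4_core [Fintype G] {m : ℕ} [NeZero m] (chi : G →+ ZMod m) (B : Finset G)
    (K : AddSubgroup G) (KK : Finset G) (hKK : ∀ x, x ∈ KK ↔ x ∈ K)
    (hKL : ∀ x ∈ K, chi x = 0) (k e : ℤ) (hk : k = KK.card)
    (he : e = ((KK \ lev chi B 0).card : ℤ) + ((lev chi B 0 \ KK).card : ℤ)) (h4 : 4 * e ≤ k)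
    (hF : -4 * k ^ 2 < 5 * GL.FF B) (n y M : ℤ) (hn : 2 ≤ n)
    (hy : e + y = ((Maj K B \ B).card : ℤ) + ((B \ Maj K B).card : ℤ))
    (hbud : GL.FF B + 4 * M ≤ k ^ 2 - 6 * k * e + 9 * e ^ 2 - 2 * k * e * n - (3 * k - 10 * e) * y)
    (x z v : G) (hx : x ∈ Maj K B) (hz : z ∈ Maj K B) (hv : v ∉ Maj K B)
    (hx0 : chi x ≠ 0) (hz0 : chi z ≠ 0) (hxz : x - z ∉ K)
    (hM : th K B x * (th K B z - th K B v) ≤ M) : False := by
  have hkp : 0 < k := by rw [hk]; exact pe_pos K KK hKK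
  have he0 : 0 ≤ e := by rw [he]; positivity
  have d := dev_three chi B K KK hKK hKL k e hk he h4 y hy x z v hx hz hv hx0 hz0 hxz
  rw [sd4_mem K KK hKK B k hk] at hx hz hv
  have h1 := sd4_th_le K KK hKK B k hk x
  have h2 := sd4_th_le K KK hKK B k hk z
  have h3 := sd4_th_nonneg K B v
  refine closure_num k e y (k - th K B x) (k - th K B z) (th K B v) (GL.FF B) M hkp he0 h4
    (by linarith) (by linarith) (by linarith) (by linarith) h3 (by linarith) ?_ ?_ hF n hn hbud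
  · by_cases hv0 : chi v = 0
    · right; exact d.2 hv0
    · left; exact d.1 hv0
  · have e1 : (k - (k - th K B x)) * (k - (k - th K B z) - th K B v) =
        th K B x * (th K B z - th K B v) := by ring
    rw [e1]
    exact hM

/-- SD4 : **closure** -/
theorem closure_pr [Fintype G] {m : ℕ} [NeZero m] (chi : G →+ ZMod m) (B : Finset G)
    (hB : NoWrap chi B) (K : AddSubgroup G) (KK : Finset G) (hKK : ∀ x, x ∈ KK ↔ x ∈ K)
    (hKL : ∀ x ∈ K, chi x = 0) (k e : ℤ) (hk : k = KK.card)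
    (he : e = ((KK \ lev chi B 0).card : ℤ) + ((lev chi B 0 \ KK).card : ℤ)) (h4 : 4 * e ≤ k)
    (hF : -4 * k ^ 2 < 5 * GL.FF B) :
    (∀ x ∈ Maj K B, ∀ z ∈ Maj K B, 0 < hg chi x → hg chi x < hg chi z → z - x ∈ Maj K B) ∧
    (∀ x ∈ Maj K B, ∀ z ∈ Maj K B, hg chi x < 0 → hg chi z < hg chi x → z - x ∈ Maj K B) ∧
    (∀ x ∈ Maj K B, ∀ z ∈ Maj K B, 0 < hg chi x → hg chi z < 0 → x + z ∈ Maj K B) := by
  obtain ⟨np, nm, hone, hnp, hnm, hbud⟩ := budget chi B hB K KK hKK hKL k e hk he h4 hF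
  have hkp : 0 < k := by rw [hk]; exact pe_pos K KK hKK
  obtain ⟨y, hy⟩ : ∃ y : ℤ, e + y = ((Maj K B \ B).card : ℤ) + ((B \ Maj K B).card : ℤ) :=
    ⟨((Maj K B \ B).card : ℤ) + ((B \ Maj K B).card : ℤ) - e, by ring⟩
  obtain ⟨hy0, hyD, hb⟩ := hbud y hy
  have m1 : 0 ≤ missp chi B := by unfold missp; positivity
  have m2 : 0 ≤ missn chi B := by unfold missn; positivity
  have m3 : 0 ≤ missm chi B := by unfold missm; positivity
  have hD2 : 0 ≤ DD chi B ^ 2 := sq_nonneg _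
  -- periodic sets
  have hSp : ∀ x ∈ (Maj K B).filter (fun x => 0 < hg chi x), ∀ y, y - x ∈ K →
      y ∈ (Maj K B).filter (fun x => 0 < hg chi x) := by
    intro x hx y h
    rw [Finset.mem_filter] at hx ⊢
    exact ⟨sd4_per K B x hx.1 y h, by rw [sd4_hg chi K hKL x y h]; exact hx.2⟩
  have hSn : ∀ x ∈ (Maj K B).filter (fun x => hg chi x < 0), ∀ y, y - x ∈ K →
      y ∈ (Maj K B).filter (fun x => hg chi x < 0) := by
    intro x hx y h
    rw [Finset.mem_filter] at hx ⊢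
    exact ⟨sd4_per K B x hx.1 y h, by rw [sd4_hg chi K hKL x y h]; exact hx.2⟩
  have hne : ∀ x, hg chi x ≠ 0 → chi x ≠ 0 := by
    intro x h h0
    apply h
    unfold hg
    rw [h0, ZMod.valMinAbs_zero]
  have hK' : ∀ x z, hg chi x ≠ hg chi z → x - z ∉ K := by
    intro x z h h'
    exact h (sd4_hg chi K hKL z x h')
  have hnp0 : (0 : ℤ) ≤ np := Int.natCast_nonneg _
  have hnm0 : (0 : ℤ) ≤ nm := Int.natCast_nonneg _
  refine ⟨?_, ?_, ?_⟩
  · intro x hx z hz h0 hlt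
    by_contra hv
    have hKx := hK' x z (ne_of_lt hlt)
    have h2 := sd4_two K KK hKK _ hSp x z (Finset.mem_filter.mpr ⟨hx, h0⟩)
      (Finset.mem_filter.mpr ⟨hz, h0.trans hlt⟩) hKx
    rw [hnp, ← hk] at h2
    have h3 : (2 : ℤ) ≤ np := le_of_mul_le_mul_right h2 hkp
    exact sd4_core chi B K KK hKK hKL k e hk he h4 hF (np + nm) y (missp chi B) (by linarith) hy
      (by linarith) x z (z - x) hx hz hv (hne x (ne_of_gt h0)) (hne z (ne_of_gt (h0.trans hlt)))
      hKx (missp_ge chi B K hKL x z h0 hlt)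
  · intro x hx z hz h0 hlt
    by_contra hv
    have hKx := hK' x z (ne_of_gt hlt)
    have h2 := sd4_two K KK hKK _ hSn x z (Finset.mem_filter.mpr ⟨hx, h0⟩)
      (Finset.mem_filter.mpr ⟨hz, hlt.trans h0⟩) hKx
    rw [hnm, ← hk] at h2
    have h3 : (2 : ℤ) ≤ nm := le_of_mul_le_mul_right h2 hkp
    exact sd4_core chi B K KK hKK hKL k e hk he h4 hF (np + nm) y (missn chi B) (by linarith) hy
      (by linarith) x z (z - x) hx hz hv (hne x (ne_of_lt h0)) (hne z (ne_of_lt (hlt.trans h0)))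
      hKx (missn_ge chi B K hKL x z h0 hlt)
  · intro x hx z hz h0 hlt
    by_contra hv
    have hKx := hK' x z (ne_of_gt (hlt.trans h0))
    have h2 := sd4_one K KK hKK _ hSp x (Finset.mem_filter.mpr ⟨hx, h0⟩)
    have h2' := sd4_one K KK hKK _ hSn z (Finset.mem_filter.mpr ⟨hz, hlt⟩)
    rw [hnp, ← hk] at h2
    rw [hnm, ← hk] at h2'
    have h3 : (1 : ℤ) ≤ np := le_of_mul_le_mul_right (by linarith) hkp
    have h3' : (1 : ℤ) ≤ nm := le_of_mul_le_mul_right (by linarith) hkp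
    exact sd4_core chi B K KK hKK hKL k e hk he h4 hF (np + nm) y (missm chi B) (by linarith) hy
      (by linarith) x z (x + z) hx hz hv (hne x (ne_of_gt h0)) (hne z (ne_of_lt hlt))
      hKx (missm_ge chi B K hKL x z h0 hlt)

end blocks

theorem closure : type_of% @closure_pr := @closure_pr

end Pool.Agent.ST
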