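import Mathlib
import Pool.Agent.Lib_helper28.ST.Defs
import Pool.Agent.Lib_helper28.ST.Defs2

set_option autoImplicit false

namespace Pool.Agent.ST

open Finset Pool.Agent.Lib_helper13.PL Pool.Agent.POS

/-- large `T` -/
theorem sf1_large (k p r T w F F0 : ℤ) (hk : 0 < k) (hp : 0 ≤ p) (hr : 0 ≤ r)
    (h4 : 4 * (p + r) ≤ k) (hT5 : 3 * k ≤ 5 * T) (hF : 13 * w ^ 2 - 4 * k ^ 2 < 5 * F)
    (hF0 : F0 ≤ k ^ 2 - 6 * k * (p + r) + 9 * p ^ 2 + 6 * p * r + 9 * r ^ 2)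
    (h2 : F ≤ F0 - (3 * k - 6 * (p + r)) * T) : False := by
  have h5 : (3 * k - 6 * (p + r)) * (3 * k) ≤ (3 * k - 6 * (p + r)) * (5 * T) :=
    mul_le_mul_of_nonneg_left hT5 (by linarith)
  have h6 : 0 ≤ (p + r) * (k - 4 * (p + r)) := mul_nonneg (by linarith) (by linarith)
  have h7 : 0 ≤ p * r := mul_nonneg hp hr
  have h8 : 0 ≤ k * (p + r) := mul_nonneg hk.le (by linarith)
  have h9 : 0 ≤ w ^ 2 := sq_nonneg w
  nlinarith

theorem sf1_a (k p r T : ℤ) (hk : 0 < k) (hp : 0 ≤ p) (hr : 0 ≤ r)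
    (h4 : 4 * (p + r) ≤ k) (hT5 : 5 * T ≤ 3 * k) (hT : k - p + r ≤ 3 * T)
    (hT4 : 4 * T ≤ 3 * (k - p + r)) :
    144 * k ^ 2 - 480 * k * (p + r) + 720 * p ^ 2 + 480 * p * r + 720 * r ^ 2 ≤
      117 * (k - p + r) ^ 2 + 168 * (k - p + r) * T - 192 * T ^ 2 := by
  have a1 : 0 ≤ (3 * T - (k - p + r)) * (3 * k - 5 * T) := mul_nonneg (by linarith) (by linarith)
  have a2 : 0 ≤ (3 * T - (k - p + r)) * (3 * (k - p + r) - 4 * T) :=
    mul_nonneg (by linarith) (by linarith)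
  have a3 : 0 ≤ (3 * k - 5 * T) * (3 * (k - p + r) - 4 * T) :=
    mul_nonneg (by linarith) (by linarith)
  have a4 : 0 ≤ (3 * k - 5 * T) * p := mul_nonneg (by linarith) hp
  have a5 : 0 ≤ (3 * k - 5 * T) * r := mul_nonneg (by linarith) hr
  have a6 : 0 ≤ (3 * T - (k - p + r)) * p := mul_nonneg (by linarith) hp
  have a7 : 0 ≤ (3 * T - (k - p + r)) * r := mul_nonneg (by linarith) hr
  have a8 : 0 ≤ (3 * (k - p + r) - 4 * T) * p := mul_nonneg (by linarith) hp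
  have a9 : 0 ≤ (3 * (k - p + r) - 4 * T) * r := mul_nonneg (by linarith) hr
  have b1 : 0 ≤ (k - 4 * (p + r)) * p := mul_nonneg (by linarith) hp
  have b2 : 0 ≤ (k - 4 * (p + r)) * r := mul_nonneg (by linarith) hr
  have b3 : 0 ≤ (k - 4 * (p + r)) * (3 * k - 5 * T) := mul_nonneg (by linarith) (by linarith)
  have b4 : 0 ≤ (k - 4 * (p + r)) * (3 * T - (k - p + r)) := mul_nonneg (by linarith) (by linarith)
  have b5 : 0 ≤ (k - 4 * (p + r)) * (3 * (k - p + r) - 4 * T) :=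
    mul_nonneg (by linarith) (by linarith)
  have b6 : 0 ≤ (k - 4 * (p + r)) ^ 2 := sq_nonneg _
  have b7 : 0 ≤ p * r := mul_nonneg hp hr
  have b8 : 0 ≤ p ^ 2 := sq_nonneg _
  have b9 : 0 ≤ r ^ 2 := sq_nonneg _
  nlinarith

theorem sf1_b (k p r T : ℤ) (hk : 0 < k) (hp : 0 ≤ p) (hr : 0 ≤ r)
    (h4 : 4 * (p + r) ≤ k) (hT5 : 5 * T ≤ 3 * k) (hT4 : 3 * (k - p + r) ≤ 4 * T) :
    9 * k ^ 2 - 30 * k * (p + r) + 45 * p ^ 2 + 30 * p * r + 45 * r ^ 2 ≤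
      30 * (k - p + r) * T - 25 * T ^ 2 := by
  have a3 : 0 ≤ (3 * k - 5 * T) * (4 * T - 3 * (k - p + r)) :=
    mul_nonneg (by linarith) (by linarith)
  have a4 : 0 ≤ (3 * k - 5 * T) * p := mul_nonneg (by linarith) hp
  have a5 : 0 ≤ (3 * k - 5 * T) * r := mul_nonneg (by linarith) hr
  have a8 : 0 ≤ (4 * T - 3 * (k - p + r)) * p := mul_nonneg (by linarith) hp
  have a9 : 0 ≤ (4 * T - 3 * (k - p + r)) * r := mul_nonneg (by linarith) hr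
  have b1 : 0 ≤ (k - 4 * (p + r)) * p := mul_nonneg (by linarith) hp
  have b2 : 0 ≤ (k - 4 * (p + r)) * r := mul_nonneg (by linarith) hr
  have b3 : 0 ≤ (k - 4 * (p + r)) * (3 * k - 5 * T) := mul_nonneg (by linarith) (by linarith)
  have b5 : 0 ≤ (k - 4 * (p + r)) * (4 * T - 3 * (k - p + r)) :=
    mul_nonneg (by linarith) (by linarith)
  have b6 : 0 ≤ (k - 4 * (p + r)) ^ 2 := sq_nonneg _
  have b7 : 0 ≤ p * r := mul_nonneg hp hr
  have b8 : 0 ≤ p ^ 2 := sq_nonneg _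
  have b9 : 0 ≤ r ^ 2 := sq_nonneg _
  nlinarith

/-- SF1 : numbers -/
theorem single_num_pr (k p r c T w F F0 : ℤ) (hk : 0 < k) (hp : 0 ≤ p) (hr : 0 ≤ r)
    (h4 : 4 * (p + r) ≤ k) (hc : c = k - p + r) (hw : 0 ≤ w) (hT : c ≤ 3 * T)
    (hTw : 3 * c ≤ 4 * (T + w)) (hF : 13 * w ^ 2 - 4 * k ^ 2 < 5 * F)
    (hF0 : F0 ≤ k ^ 2 - 6 * k * (p + r) + 9 * p ^ 2 + 6 * p * r + 9 * r ^ 2)
    (h1 : F ≤ F0 - 6 * c * T + 5 * T ^ 2) (h2 : F ≤ F0 - (3 * k - 6 * (p + r)) * T) : False := by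
  rcases le_total (3 * k) (5 * T) with hT5 | hT5
  · exact sf1_large k p r T w F F0 hk hp hr h4 hT5 hF hF0 h2
  · rcases le_total (4 * T) (3 * c) with hT4 | hT4
    · subst hc
      have h5 := sf1_a k p r T hk hp hr h4 hT5 hT hT4
      have h6 : (3 * (k - p + r) - 4 * T) ^ 2 ≤ (4 * w) ^ 2 :=
        pow_le_pow_left₀ (by linarith) (by linarith) 2
      nlinarith
    · subst hc
      have h5 := sf1_b k p r T hk hp hr h4 hT5 hT4
      have h9 : 0 ≤ w ^ 2 := sq_nonneg w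
      nlinarith

theorem single_num : type_of% @single_num_pr := @single_num_pr

end Pool.Agent.ST
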