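import Mathlib
import Pool.Agent.Lib_helper28.ST.Defs
import Pool.Agent.Lib_helper25.PR.PA
import Pool.Agent.Lib_helper25.PR.PB
import Pool.Agent.Lib_helper25.PR.PC
import Pool.Agent.Lib_helper25.PR.PD
import Pool.Agent.Lib_helper25.PR.PE
import Pool.Agent.Lib_helper25.PR.PM
import Pool.Agent.Lib_helper28.ST.Defs2
import Pool.Agent.Lib_helper28.ST.L.SB1
import Pool.Agent.Lib_helper28.ST.L.SF1

/-!
# Theorem ST, block SF2: there is a second majority coset
-/

set_option autoImplicit false

namespace Pool.Agent.ST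

open Finset Pool.Agent.Lib_helper13.PL Pool.Agent.POS

section blocks
variable {G : Type*} [AddCommGroup G] [DecidableEq G]

lemma sf2_natcard (K : AddSubgroup G) (KK : Finset G) (hKK : ∀ x, x ∈ KK ↔ x ∈ K) :
    Nat.card K = KK.card := by
  have e : K ≃ KK := Equiv.subtypeEquivRight (fun x => (hKK x).symm)
  rw [Nat.card_congr e, Nat.card_eq_fintype_card, Fintype.card_coe]

lemma sf2_th (K : AddSubgroup G) (A B : Finset G) (h : A ⊆ B) (x : G) :
    th K A x ≤ th K B x := by
  classical
  unfold th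
  exact_mod_cast Finset.card_le_card (Finset.filter_subset_filter _ h)

lemma sf2_sq {ι : Type*} (I : Finset ι) (g : ι → ℤ) (hg : ∀ i ∈ I, 0 ≤ g i) :
    ∑ i ∈ I, g i ^ 2 ≤ (∑ i ∈ I, g i) ^ 2 := by
  classical
  induction I using Finset.induction_on with
  | empty => simp
  | insert u I hu ih =>
    rw [Finset.sum_insert hu, Finset.sum_insert hu]
    have h1 := ih (fun i hi => hg i (Finset.mem_insert_of_mem hi))
    have h2 := hg u (Finset.mem_insert_self _ _)
    have h3 : 0 ≤ ∑ i ∈ I, g i := Finset.sum_nonneg fun i hi => hg i (Finset.mem_insert_of_mem hi)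
    nlinarith [mul_nonneg h2 h3]

/-- SF2 -/
theorem no_single_pr [Fintype G] {m : ℕ} [NeZero m] (chi : G →+ ZMod m) (B : Finset G)
    (hB : NoWrap chi B) (K : AddSubgroup G) (KK : Finset G) (hKK : ∀ x, x ∈ KK ↔ x ∈ K)
    (k e w : ℤ) (hk : k = KK.card)
    (he : e = ((KK \ lev chi B 0).card : ℤ) + ((lev chi B 0 \ KK).card : ℤ)) (h4 : 4 * e ≤ k)
    (hw : 0 ≤ w) (hF : 13 * w ^ 2 - 4 * k ^ 2 < 5 * GL.FF B)
    (hT : (4 * (lev chi B 0).card : ℤ) ≤ 3 * B.card)
    (hTw : 7 * ((lev chi B 0).card : ℤ) ≤ 4 * (B.card + w))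
    (hnone : ∀ x ∈ Maj K B, chi x = 0) : False := by
  have hkp : 0 < k := by rw [hk]; exact pe_pos K KK hKK
  have hstar := pl_star chi B hB
  have hcard := pm_card chi B
  have hDD := pm_DD chi B
  have hff := ff0 K KK hKK (lev chi B 0) k _ _ hk rfl rfl
  have hc := pe_card KK (lev chi B 0)
  rw [← hk] at hc
  set U := (B.image chi).erase 0 with hU
  set g : ZMod m → ℤ := fun u => ((lev chi B u).card : ℤ) with hg
  have hgn : ∀ u ∈ U, 0 ≤ g u := fun u _ => Int.natCast_nonneg _
  -- the first bound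
  have b1 : (3 * k - 6 * e) * ∑ u ∈ U, g u ≤
      ∑ u ∈ U, cost (lev chi B u) (lev chi B 0) := by
    rw [Finset.mul_sum]
    refine Finset.sum_le_sum fun u hu => ?_
    have hu0 : u ≠ 0 := (Finset.mem_erase.mp hu).1
    have h1 := lin_none K KK hKK (lev chi B u) (lev chi B 0) k e (g u) hk he h4 rfl ?_
    · linarith
    · intro x hx
      have hx' := hx
      unfold lev at hx'
      rw [Finset.mem_filter] at hx'
      have h2 : x ∉ Maj K B := by
        intro h
        apply hu0
        rw [← hx'.2]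
        exact hnone x h
      have h3 : 2 * th K B x ≤ k := by
        by_contra h
        apply h2
        unfold Maj
        rw [Finset.mem_filter, sf2_natcard K KK hKK, ← hk]
        exact ⟨Finset.mem_univ _, by linarith⟩
      have h5 := sf2_th K (lev chi B u) B (Finset.filter_subset _ _) x
      linarith
  -- the second bound
  have b2 : 6 * ((lev chi B 0).card : ℤ) * ∑ u ∈ U, g u - 6 * ∑ u ∈ U, g u ^ 2 ≤
      ∑ u ∈ U, cost (lev chi B u) (lev chi B 0) := by
    rw [Finset.mul_sum, Finset.mul_sum, ← Finset.sum_sub_distrib]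
    refine Finset.sum_le_sum fun u _ => ?_
    have h1 := cost_small (lev chi B u) (lev chi B 0)
    have h2 : 6 * ((lev chi B 0).card : ℤ) * g u - 6 * g u ^ 2 =
        6 * ((lev chi B u).card : ℤ) * (((lev chi B 0).card : ℤ) - (lev chi B u).card) := by
      rw [hg]; ring
    rw [h2]
    exact h1
  have s1 := Finset.sum_filter_add_sum_filter_not U (fun u => 0 < u.valMinAbs) g
  have s2 := Finset.sum_filter_add_sum_filter_not U (fun u => 0 < u.valMinAbs) (fun u => g u ^ 2)
  have q1 := sf2_sq (U.filter (fun u => 0 < u.valMinAbs)) g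
    (fun u hu => hgn u (Finset.mem_filter.mp hu).1)
  have q2 := sf2_sq (U.filter (fun u => ¬ 0 < u.valMinAbs)) g
    (fun u hu => hgn u (Finset.mem_filter.mp hu).1)
  have n1 : 0 ≤ ∑ u ∈ U.filter (fun u => 0 < u.valMinAbs), g u :=
    Finset.sum_nonneg fun u hu => hgn u (Finset.mem_filter.mp hu).1
  have n2 : 0 ≤ ∑ u ∈ U.filter (fun u => ¬ 0 < u.valMinAbs), g u :=
    Finset.sum_nonneg fun u hu => hgn u (Finset.mem_filter.mp hu).1
  have hD' : DD chi B = ∑ u ∈ U.filter (fun u => 0 < u.valMinAbs), g u -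
      ∑ u ∈ U.filter (fun u => ¬ 0 < u.valMinAbs), g u := hDD
  have hc' : (B.card : ℤ) = ((lev chi B 0).card : ℤ) + ∑ u ∈ U, g u := hcard
  generalize (∑ u ∈ U.filter (fun u => 0 < u.valMinAbs), g u) = P at *
  generalize (∑ u ∈ U.filter (fun u => ¬ 0 < u.valMinAbs), g u) = N at *
  generalize (∑ u ∈ U, cost (lev chi B u) (lev chi B 0)) = C at *
  generalize (∑ u ∈ U.filter (fun u => 0 < u.valMinAbs), g u ^ 2) = P2 at *
  generalize (∑ u ∈ U.filter (fun u => ¬ 0 < u.valMinAbs), g u ^ 2) = N2 at *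
  have hPN := mul_nonneg n1 n2
  have hF0' : GL.FF B ≤ GL.FF (lev chi B 0) - C := by
    have := sq_nonneg (DD chi B)
    linarith
  refine single_num k ((KK \ lev chi B 0).card : ℤ) ((lev chi B 0 \ KK).card : ℤ)
    ((lev chi B 0).card : ℤ) (P + N) w (GL.FF B) (GL.FF (lev chi B 0)) hkp (by positivity)
    (by positivity) (by linarith) hc hw (by linarith) (by linarith) (by linarith) (by linarith)
    ?_ ?_
  · rw [hD'] at hstar
    rw [← s1] at b2
    nlinarith
  · rw [← s1, he] at b1
    linarith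

end blocks

theorem no_single : type_of% @no_single_pr := @no_single_pr

end Pool.Agent.ST
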