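import Mathlib
import Pool.Agent.Lib_helper28.ST.Defs
import Pool.Agent.Lib_helper28.ST.Defs2
set_option autoImplicit false

/-! Block SG1 -/

namespace Pool.Agent.ST

open Finset Pool.Agent.Lib_helper13.PL Pool.Agent.POS

theorem sg1_zero (e y w : ℝ) (he : 0 ≤ e) (h4 : e ≤ 1 / 4) (hy : 0 ≤ y) (hw : 0 ≤ w)
    (h : 13 / 5 * w ^ 2 + (3 - 10 * e) * y + 10 * e - 9 * e ^ 2 < 9 / 5) :
    e + y < 6 / 10 ∧ e + y + w ≤ 89 / 100 := by
  have h1 : e + y < 6 / 10 := by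
    by_contra hc
    have hc' : 6 / 10 ≤ e + y := not_lt.1 hc
    have h2 : 0 ≤ (3 - 10 * e) * (e + y - 6 / 10) := mul_nonneg (by linarith) (by linarith)
    nlinarith [sq_nonneg w, sq_nonneg e]
  refine ⟨h1, ?_⟩
  have h3 : 0 ≤ e * (7 - 10 * (e + y)) := mul_nonneg he (by linarith)
  have h4 : 3 * (e + y) + 13 / 5 * w ^ 2 < 9 / 5 := by nlinarith [sq_nonneg e]
  nlinarith [sq_nonneg (w - 15 / 26)]

theorem sg1_one (e y w D : ℝ) (he : 0 ≤ e) (h4 : e ≤ 1 / 4) (hy : 0 ≤ y) (hw : 0 ≤ w)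
    (hD : 1 - y ≤ |D|)
    (h : 13 / 5 * w ^ 2 + D ^ 2 + (3 - 10 * e) * y + 8 * e - 9 * e ^ 2 < 9 / 5) :
    e + y ≤ 525 / 1000 ∧ e + y + w ≤ 71 / 100 := by
  have hy1 : y < 1 := by
    by_contra hc
    have hc' : 1 ≤ y := not_lt.1 hc
    have h2 : 0 ≤ (3 - 10 * e) * (y - 1) := mul_nonneg (by linarith) (by linarith)
    nlinarith [sq_nonneg w, sq_nonneg D, mul_nonneg he (sub_nonneg.2 h4)]
  have hD2 : (1 - y) ^ 2 ≤ D ^ 2 := by
    rw [← sq_abs D]
    exact pow_le_pow_left₀ (by linarith) hD 2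
  obtain ⟨s, hs⟩ : ∃ s, s = e + y := ⟨_, rfl⟩
  have hy2 : y = s - e := by linarith
  subst hy2
  have h5 : 13 / 5 * w ^ 2 + s + s ^ 2 + e * (7 - 12 * s) + 2 * e ^ 2 < 4 / 5 := by nlinarith
  have hs1 : s ≤ 7 / 12 := by
    by_contra hc
    have hc' : 7 / 12 < s := not_le.1 hc
    rcases le_or_gt (2 / 3) s with h6 | h6
    · nlinarith [sq_nonneg w, sq_nonneg (s - 1), mul_nonneg (sub_nonneg.2 h4)
        (sub_nonneg.2 h6), sq_nonneg (e - 1 / 4), mul_nonneg he (sub_nonneg.2 h4)]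
    · nlinarith [sq_nonneg w, sq_nonneg (e - (12 * s - 7) / 4),
        mul_nonneg (sub_nonneg.2 h6.le) (sub_nonneg.2 hc'.le)]
  have h7 : 13 / 5 * w ^ 2 + s + s ^ 2 < 4 / 5 := by
    nlinarith [sq_nonneg e, mul_nonneg he (sub_nonneg.2 hs1)]
  constructor
  · have : s ≤ 525 / 1000 := by nlinarith [sq_nonneg w]
    linarith
  · have : s + w ≤ 71 / 100 := by
      by_contra hc
      have hc' : 71 / 100 < s + w := not_le.1 hc
      nlinarith [sq_nonneg (s - 3 / 8), sq_nonneg (w - 1 / 3)]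
    linarith

theorem sg1_two (e y w D : ℝ) (he : 0 ≤ e) (h4 : e ≤ 1 / 4) (hy : 0 ≤ y) (hw : 0 ≤ w)
    (hD : 2 - y ≤ |D|)
    (h : 13 / 5 * w ^ 2 + D ^ 2 + (3 - 10 * e) * y + 10 * e - 9 * e ^ 2 < 9 / 5) : False := by
  rcases le_or_gt 2 y with h2 | h2
  · have h2 : 0 ≤ (3 - 10 * e) * (y - 2) := mul_nonneg (by linarith) (by linarith)
    nlinarith [sq_nonneg w, sq_nonneg D, mul_nonneg he (sub_nonneg.2 h4)]
  · have hD2 : (2 - y) ^ 2 ≤ D ^ 2 := by
      rw [← sq_abs D]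
      exact pow_le_pow_left₀ (by linarith) hD 2
    nlinarith [sq_nonneg w, mul_nonneg he (sub_nonneg.2 h4), sq_nonneg (y - 1 / 2),
      sq_nonneg (y - 7 / 4), mul_nonneg hy (sub_nonneg.2 h4)]

theorem s1_num_pr (k e y D w F : ℤ) (np nm : ℕ) (hk : 0 < k) (he : 0 ≤ e) (h4 : 4 * e ≤ k)
    (hy : 0 ≤ y) (hw : 0 ≤ w) (hN : 1 ≤ np + nm) (hD : |D - ((np : ℤ) - nm) * k| ≤ y)
    (hF : 13 * w ^ 2 - 4 * k ^ 2 < 5 * F)
    (hbud : F + D ^ 2 ≤ k ^ 2 - 6 * k * e + 9 * e ^ 2 - 2 * k * e * ((np : ℤ) + nm)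
      - (3 * k - 10 * e) * y) :
    (np = nm ∧ 100 * (e + y + w) ≤ 89 * k ∧ 10 * (e + y) < 6 * k) ∨
      ((np = nm + 1 ∨ nm = np + 1) ∧ 100 * (e + y + w) ≤ 71 * k ∧
        1000 * (e + y) ≤ 525 * k) := by
  have hk' : (0 : ℝ) < k := by exact_mod_cast hk
  obtain ⟨E, hE⟩ : ∃ E : ℝ, (e : ℝ) = E * k := ⟨e / k, by field_simp⟩
  obtain ⟨Y, hY⟩ : ∃ Y : ℝ, (y : ℝ) = Y * k := ⟨y / k, by field_simp⟩
  obtain ⟨W, hW⟩ : ∃ W : ℝ, (w : ℝ) = W * k := ⟨w / k, by field_simp⟩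
  obtain ⟨X, hX⟩ : ∃ X : ℝ, (D : ℝ) = X * k := ⟨D / k, by field_simp⟩
  have he' : 0 ≤ E := by
    have h : (0 : ℝ) ≤ e := by exact_mod_cast he
    rw [hE] at h
    exact nonneg_of_mul_nonneg_left h hk'
  have hy' : 0 ≤ Y := by
    have h : (0 : ℝ) ≤ y := by exact_mod_cast hy
    rw [hY] at h
    exact nonneg_of_mul_nonneg_left h hk'
  have hw' : 0 ≤ W := by
    have h : (0 : ℝ) ≤ w := by exact_mod_cast hw
    rw [hW] at h
    exact nonneg_of_mul_nonneg_left h hk'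
  have h4' : E ≤ 1 / 4 := by
    have h : 4 * (e : ℝ) ≤ k := by exact_mod_cast h4
    rw [hE] at h
    nlinarith
  have hsum : 13 * w ^ 2 - 4 * k ^ 2 + 5 * D ^ 2 < 5 * (k ^ 2 - 6 * k * e + 9 * e ^ 2
      - 2 * k * e * ((np : ℤ) + nm) - (3 * k - 10 * e) * y) := by linarith
  have hsum' : 13 * (w : ℝ) ^ 2 - 4 * k ^ 2 + 5 * D ^ 2 < 5 * (k ^ 2 - 6 * k * e + 9 * e ^ 2
      - 2 * k * e * ((np : ℝ) + nm) - (3 * k - 10 * e) * y) := by exact_mod_cast hsum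
  have hmain : 13 / 5 * W ^ 2 + X ^ 2 + (3 - 10 * E) * Y + (6 + 2 * ((np : ℝ) + nm)) * E
      - 9 * E ^ 2 < 9 / 5 := by
    rw [hE, hY, hW, hX] at hsum'
    have h : (k : ℝ) ^ 2 * (13 / 5 * W ^ 2 + X ^ 2 + (3 - 10 * E) * Y
        + (6 + 2 * ((np : ℝ) + nm)) * E - 9 * E ^ 2) < (k : ℝ) ^ 2 * (9 / 5) := by
      nlinarith
    exact lt_of_mul_lt_mul_left h (by positivity)
  -- the deviation
  have hD' : |X - ((np : ℝ) - nm)| ≤ Y := by
    have h : |(D : ℝ) - ((np : ℝ) - nm) * k| ≤ y := by exact_mod_cast hD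
    rw [hX, hY] at h
    have h2 : X * (k : ℝ) - ((np : ℝ) - nm) * k = (X - ((np : ℝ) - nm)) * k := by ring
    rw [h2, abs_mul, abs_of_pos hk'] at h
    exact le_of_mul_le_mul_right h hk'
  have hD2 := abs_le.1 hD'
  rcases lt_trichotomy np nm with hlt | heq | hgt
  · by_cases h1 : nm = np + 1
    · right
      have hX1 : 1 - Y ≤ |X| := by
        have : (nm : ℝ) = np + 1 := by exact_mod_cast h1
        have h3 : X ≤ -1 + Y := by linarith [hD2.2]
        have := neg_abs_le X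
        linarith
      have hn : (1 : ℝ) ≤ (np : ℝ) + nm := by exact_mod_cast hN
      have h5 := sg1_one E Y W X he' h4' hy' hw' hX1 (by nlinarith)
      refine ⟨Or.inr h1, ?_, ?_⟩
      · have h6 : (100 : ℝ) * (e + y + w) ≤ 71 * k := by rw [hE, hY, hW]; nlinarith [h5.2]
        exact_mod_cast h6
      · have h6 : (1000 : ℝ) * (e + y) ≤ 525 * k := by rw [hE, hY]; nlinarith [h5.1]
        exact_mod_cast h6
    · exfalso
      have h2 : np + 2 ≤ nm := by omega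
      have h2' : (np : ℝ) + 2 ≤ nm := by exact_mod_cast h2
      have h0 : (0 : ℝ) ≤ np := by positivity
      have hX1 : 2 - Y ≤ |X| := by
        have h3 : X ≤ -2 + Y := by linarith [hD2.2]
        have := neg_abs_le X
        linarith
      exact sg1_two E Y W X he' h4' hy' hw' hX1 (by nlinarith)
  · left
    have h2 : 1 ≤ np := by omega
    have h2' : (1 : ℝ) ≤ np := by exact_mod_cast h2
    have h3' : (1 : ℝ) ≤ nm := by rw [← heq]; exact h2'
    have h5 := sg1_zero E Y W he' h4' hy' hw' (by nlinarith [sq_nonneg X])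
    refine ⟨heq, ?_, ?_⟩
    · have h6 : (100 : ℝ) * (e + y + w) ≤ 89 * k := by rw [hE, hY, hW]; nlinarith [h5.2]
      exact_mod_cast h6
    · have h6 : (10 : ℝ) * (e + y) < 6 * k := by rw [hE, hY]; nlinarith [h5.1]
      exact_mod_cast h6
  · by_cases h1 : np = nm + 1
    · right
      have hX1 : 1 - Y ≤ |X| := by
        have : (np : ℝ) = nm + 1 := by exact_mod_cast h1
        have h3 : 1 - Y ≤ X := by linarith [hD2.1]
        have := le_abs_self X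
        linarith
      have hn : (1 : ℝ) ≤ (np : ℝ) + nm := by exact_mod_cast hN
      have h5 := sg1_one E Y W X he' h4' hy' hw' hX1 (by nlinarith)
      refine ⟨Or.inl h1, ?_, ?_⟩
      · have h6 : (100 : ℝ) * (e + y + w) ≤ 71 * k := by rw [hE, hY, hW]; nlinarith [h5.2]
        exact_mod_cast h6
      · have h6 : (1000 : ℝ) * (e + y) ≤ 525 * k := by rw [hE, hY]; nlinarith [h5.1]
        exact_mod_cast h6
    · exfalso
      have h2 : nm + 2 ≤ np := by omega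
      have h2' : (nm : ℝ) + 2 ≤ np := by exact_mod_cast h2
      have h0 : (0 : ℝ) ≤ nm := by positivity
      have hX1 : 2 - Y ≤ |X| := by
        have h3 : 2 - Y ≤ X := by linarith [hD2.1]
        have := le_abs_self X
        linarith
      exact sg1_two E Y W X he' h4' hy' hw' hX1 (by nlinarith)

theorem s1_num : type_of% @s1_num_pr := @s1_num_pr

end Pool.Agent.ST
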