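import Mathlib
import Pool.Agent.Lib_helper28.ST.Defs
import Pool.Agent.Lib_helper28.ST.Defs2
import Pool.Agent.Lib_helper25.PR.PD
import Pool.Agent.Lib_helper25.PR.PE

set_option autoImplicit false

namespace Pool.Agent.ST

open Finset Pool.Agent.Lib_helper13.PL Pool.Agent.POS

/-- SG2 : odd number of cosets -/
theorem final_odd_pr (k N p0 P P' R R' w d F F' A Q t : ℤ) (hk : 0 < k) (hN : 3 ≤ N)
    (hp0 : 0 ≤ p0) (hP : 0 ≤ P) (hP' : 0 ≤ P') (hR : 0 ≤ R) (hR' : 0 ≤ R') (hw : 0 ≤ w)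
    (hA : A = p0 + P + P') (hQ : Q = R + R') (ht : t = Q + w - A)
    (h1 : 100 * (A + Q + w) ≤ 89 * k) (h2 : 10 * A < 6 * k)
    (hF' : F' ≤ UB k N p0 P P' R R' 0) (hd0 : 0 ≤ d)
    (hd : (0 ≤ t ∧ 4 * d ≤ 6 * N - 18) ∨ (t < 0 ∧ 4 * d ≤ 6 * N - 6))
    (hF : F ≤ F' + 4 * w * (k * d + 6 * Q) - 6 * (N * k + Q - A) * w + 9 * w ^ 2) :
    F ≤ (k - |t|) * (k - 5 * |t|) := by
  unfold UB at hF'
  have hwk : 0 ≤ w * k := mul_nonneg hw hk.le
  have a1 : 0 ≤ w * (12 * k - 8 * Q - 16 * A - 4 * w) := mul_nonneg hw (by linarith)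
  have a2 : 0 ≤ k * p0 * (N - 3) := mul_nonneg (mul_nonneg hk.le hp0) (by linarith)
  have a3 : 0 ≤ R * R' := mul_nonneg hR hR'
  have a4 : 0 ≤ P * P' := mul_nonneg hP hP'
  have a5 : 0 ≤ R * P' := mul_nonneg hR hP'
  have a6 : 0 ≤ R' * P := mul_nonneg hR' hP
  rcases hd with ⟨ht0, hd⟩ | ⟨ht0, hd⟩
  · rw [abs_of_nonneg ht0]
    have b1 : w * k * (4 * d) ≤ w * k * (6 * N - 18) := mul_le_mul_of_nonneg_left hd hwk
    have b2 : 0 ≤ p0 * (16 * k - 4 * p0 - 16 * Q) := mul_nonneg hp0 (by linarith)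
    have b3 : 0 ≤ P * (k - Q) := mul_nonneg hP (by linarith)
    have b4 : 0 ≤ P' * (k - Q) := mul_nonneg hP' (by linarith)
    subst ht hA hQ
    nlinarith
  · rw [abs_of_neg ht0]
    have b1 : w * k * (4 * d) ≤ w * k * (6 * N - 6) := mul_le_mul_of_nonneg_left hd hwk
    have b2 : 0 ≤ p0 * (k - p0) := mul_nonneg hp0 (by linarith)
    have b3 : 0 ≤ R * (12 * k - 16 * A) := mul_nonneg hR (by linarith)
    have b4 : 0 ≤ R' * (12 * k - 16 * A) := mul_nonneg hR' (by linarith)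
    have a7 : 0 ≤ R * P := mul_nonneg hR hP
    have a8 : 0 ≤ R' * P' := mul_nonneg hR' hP'
    subst ht hA hQ
    nlinarith

theorem final_odd : type_of% @final_odd_pr := @final_odd_pr

end Pool.Agent.ST
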