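import Mathlib
import Pool.Agent.Lib_helper28.ST.Defs
import Pool.Agent.Lib_helper28.ST.Defs2
import Pool.Agent.Lib_helper25.PR.PD
import Pool.Agent.Lib_helper25.PR.PE

set_option autoImplicit false

namespace Pool.Agent.ST

open Finset Pool.Agent.Lib_helper13.PL Pool.Agent.POS

/-- the common polynomial part -/
theorem sg3_c1 (k p0 P P' R R' w : ℤ) (hk : 0 < k)
    (hp0 : 0 ≤ p0) (hP : 0 ≤ P) (hP' : 0 ≤ P') (hR : 0 ≤ R) (hR' : 0 ≤ R') (hw : 0 ≤ w)
    (h1 : 100 * (p0 + P + P' + R + R' + w) ≤ 71 * k) :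
    0 ≤ 12 * k * p0 + 8 * k * P + 12 * k * P' + 4 * k * R
      + w * (8 * k - 8 * (R + R') - 16 * (p0 + P + P') - 4 * w) - 4 * p0 ^ 2
      - 16 * p0 * (R + R') + 8 * R * R' + 8 * P * P' - 12 * R * P - 8 * R * P' - 8 * R' * P
      - 12 * R' * P' := by
  have hs : 0 ≤ 71 * k - 100 * (p0 + P + P' + R + R' + w) := by linarith
  have hk' := hk.le
  have a1 := mul_nonneg hp0 hs
  have a2 := mul_nonneg hP hs
  have a3 := mul_nonneg hP' hs
  have a4 := mul_nonneg hR hs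
  have a5 := mul_nonneg hR' hs
  have a6 := mul_nonneg hw hs
  have b1 := mul_nonneg hk' hp0
  have b2 := mul_nonneg hk' hP
  have b3 := mul_nonneg hk' hP'
  have b4 := mul_nonneg hk' hR
  have b5 := mul_nonneg hk' hR'
  have b6 := mul_nonneg hk' hw
  have c1 := mul_nonneg hp0 hP
  have c2 := mul_nonneg hp0 hP'
  have c3 := mul_nonneg hp0 hR
  have c4 := mul_nonneg hp0 hR'
  have c5 := mul_nonneg hp0 hw
  have c6 := mul_nonneg hP hP'
  have c7 := mul_nonneg hP hR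
  have c8 := mul_nonneg hP hR'
  have c9 := mul_nonneg hP hw
  have d1 := mul_nonneg hP' hR
  have d2 := mul_nonneg hP' hR'
  have d3 := mul_nonneg hP' hw
  have d4 := mul_nonneg hR hR'
  have d5 := mul_nonneg hR hw
  have d6 := mul_nonneg hR' hw
  have e1 := sq_nonneg p0
  have e2 := sq_nonneg P
  have e3 := sq_nonneg P'
  have e4 := sq_nonneg R
  have e5 := sq_nonneg R'
  have e6 := sq_nonneg w
  have f1 := sq_nonneg (2 * P - w)
  linarith

theorem sg3_c2 (k p0 P P' R R' w : ℤ) (hk : 0 < k)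
    (hp0 : 0 ≤ p0) (hP : 0 ≤ P) (hP' : 0 ≤ P') (hR : 0 ≤ R) (hR' : 0 ≤ R') (hw : 0 ≤ w)
    (h1 : 100 * (p0 + P + P' + R + R' + w) ≤ 71 * k) (h2 : 1000 * (p0 + P + P') ≤ 525 * k)
    (h3 : 4 * p0 ≤ k) :
    0 ≤ 4 * k * p0 + 4 * k * P' + 12 * k * R + 8 * k * R'
      + w * (12 * k - 8 * (R + R') - 16 * (p0 + P + P') - 4 * w) - 4 * p0 ^ 2
      - 16 * p0 * (R + R') + 8 * R * R' + 8 * P * P' - 12 * R * P - 8 * R * P' - 8 * R' * P
      - 12 * R' * P' := by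
  have hs : 0 ≤ 71 * k - 100 * (p0 + P + P' + R + R' + w) := by linarith
  have hs2 : 0 ≤ 525 * k - 1000 * (p0 + P + P') := by linarith
  have hs3 : 0 ≤ k - 4 * p0 := by linarith
  have hk' := hk.le
  have a6 := mul_nonneg hw hs
  have a7 := mul_nonneg hR hs2
  have a8 := mul_nonneg hR' hs2
  have a9 := mul_nonneg hw hs2
  have a10 := mul_nonneg hR' hs3
  have a11 := mul_nonneg hp0 hs3
  have b1 := mul_nonneg hk' hp0
  have b3 := mul_nonneg hk' hP'
  have b4 := mul_nonneg hk' hR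
  have b5 := mul_nonneg hk' hR'
  have b6 := mul_nonneg hk' hw
  have c1 := mul_nonneg hp0 hP
  have c2 := mul_nonneg hp0 hP'
  have c3 := mul_nonneg hp0 hR
  have c4 := mul_nonneg hp0 hR'
  have c5 := mul_nonneg hp0 hw
  have c6 := mul_nonneg hP hP'
  have c7 := mul_nonneg hP hR
  have c8 := mul_nonneg hP hR'
  have c9 := mul_nonneg hP hw
  have d1 := mul_nonneg hP' hR
  have d2 := mul_nonneg hP' hR'
  have d3 := mul_nonneg hP' hw
  have d4 := mul_nonneg hR hR'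
  have d5 := mul_nonneg hR hw
  have d6 := mul_nonneg hR' hw
  have e1 := sq_nonneg p0
  have e6 := sq_nonneg w
  linarith

theorem sg3_c3 (k p0 P P' R R' w : ℤ) (hk : 0 < k)
    (hp0 : 0 ≤ p0) (hP : 0 ≤ P) (hP' : 0 ≤ P') (hR : 0 ≤ R) (hR' : 0 ≤ R') (hw : 0 ≤ w)
    (h1 : 100 * (p0 + P + P' + R + R' + w) ≤ 71 * k) (h2 : 1000 * (p0 + P + P') ≤ 525 * k)
    (h4 : 5 * (R + R' + w - (p0 + P + P')) ≤ 2 * k) :
    0 ≤ 12 * k * p0 + 8 * k * P + 12 * k * P' + 4 * k * R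
      + w * (4 * k - 8 * (R + R') - 16 * (p0 + P + P') - 4 * w) - 4 * p0 ^ 2
      - 16 * p0 * (R + R') + 8 * R * R' + 8 * P * P' - 12 * R * P - 8 * R * P' - 8 * R' * P
      - 12 * R' * P' := by
  have hs : 0 ≤ 71 * k - 100 * (p0 + P + P' + R + R' + w) := by linarith
  have hs2 : 0 ≤ 525 * k - 1000 * (p0 + P + P') := by linarith
  have hs4 : 0 ≤ 2 * k - 5 * (R + R' + w - (p0 + P + P')) := by linarith
  have hk' := hk.le
  have a1 := mul_nonneg hp0 hs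
  have a2 := mul_nonneg hP hs
  have a3 := mul_nonneg hP' hs
  have a4 := mul_nonneg hR hs
  have a5 := mul_nonneg hR' hs
  have a6 := mul_nonneg hw hs
  have g1 := mul_nonneg hp0 hs4
  have g2 := mul_nonneg hP hs4
  have g3 := mul_nonneg hP' hs4
  have g4 := mul_nonneg hR hs4
  have g5 := mul_nonneg hR' hs4
  have g6 := mul_nonneg hw hs4
  have b1 := mul_nonneg hk' hp0
  have b2 := mul_nonneg hk' hP
  have b3 := mul_nonneg hk' hP'
  have b4 := mul_nonneg hk' hR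
  have b5 := mul_nonneg hk' hR'
  have b6 := mul_nonneg hk' hw
  have c1 := mul_nonneg hp0 hP
  have c2 := mul_nonneg hp0 hP'
  have c3 := mul_nonneg hp0 hR
  have c4 := mul_nonneg hp0 hR'
  have c5 := mul_nonneg hp0 hw
  have c6 := mul_nonneg hP hP'
  have c7 := mul_nonneg hP hR
  have c8 := mul_nonneg hP hR'
  have c9 := mul_nonneg hP hw
  have d1 := mul_nonneg hP' hR
  have d2 := mul_nonneg hP' hR'
  have d3 := mul_nonneg hP' hw
  have d4 := mul_nonneg hR hR'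
  have d5 := mul_nonneg hR hw
  have d6 := mul_nonneg hR' hw
  have e1 := sq_nonneg p0
  have e2 := sq_nonneg P
  have e3 := sq_nonneg P'
  have e4 := sq_nonneg R
  have e5 := sq_nonneg R'
  have e6 := sq_nonneg w
  have f1 := sq_nonneg (2 * P - w)
  have f2 := sq_nonneg (p0 + P + P' - w)
  have f3 := sq_nonneg (2 * (p0 + P + P') - w)
  have f4 := sq_nonneg (3 * (p0 + P + P') - w)
  linarith

theorem sg3_c4a (k p0 P P' R R' w : ℤ) (hk : 0 < k)
    (hp0 : 0 ≤ p0) (hP : 0 ≤ P) (hP' : 0 ≤ P') (hR : 0 ≤ R) (hR' : 0 ≤ R') (hw : 0 ≤ w)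
    (h1 : 100 * (p0 + P + P' + R + R' + w) ≤ 71 * k)
    (h5 : 5 * k ≤ 10 * (R + R') + 7 * w) :
    0 ≤ 5 * (12 * k * p0 + 8 * k * P + 12 * k * P' + 4 * k * R
      + w * (- 4 * k + 10 * (R + R') - 10 * (p0 + P + P') + 5 * w) - 4 * p0 ^ 2
      - 16 * p0 * (R + R') + 8 * R * R' + 8 * P * P' - 12 * R * P - 8 * R * P' - 8 * R' * P
      - 12 * R' * P') + 13 * w ^ 2 := by
  have hs : 0 ≤ 71 * k - 100 * (p0 + P + P' + R + R' + w) := by linarith
  have hs5 : 0 ≤ 10 * (R + R') + 7 * w - 5 * k := by linarith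
  have hk' := hk.le
  have a1 := mul_nonneg hp0 hs
  have a2 := mul_nonneg hP hs
  have a3 := mul_nonneg hP' hs
  have a4 := mul_nonneg hR hs
  have a5 := mul_nonneg hR' hs
  have a6 := mul_nonneg hw hs
  have g6 := mul_nonneg hw hs5
  have b1 := mul_nonneg hk' hp0
  have b2 := mul_nonneg hk' hP
  have b3 := mul_nonneg hk' hP'
  have b4 := mul_nonneg hk' hR
  have b5 := mul_nonneg hk' hR'
  have b6 := mul_nonneg hk' hw
  have c1 := mul_nonneg hp0 hP
  have c2 := mul_nonneg hp0 hP'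
  have c3 := mul_nonneg hp0 hR
  have c4 := mul_nonneg hp0 hR'
  have c5 := mul_nonneg hp0 hw
  have c6 := mul_nonneg hP hP'
  have c7 := mul_nonneg hP hR
  have c8 := mul_nonneg hP hR'
  have c9 := mul_nonneg hP hw
  have d1 := mul_nonneg hP' hR
  have d2 := mul_nonneg hP' hR'
  have d3 := mul_nonneg hP' hw
  have d4 := mul_nonneg hR hR'
  have d5 := mul_nonneg hR hw
  have d6 := mul_nonneg hR' hw
  have e1 := sq_nonneg p0
  have e2 := sq_nonneg P
  have e3 := sq_nonneg P'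
  have e4 := sq_nonneg R
  have e5 := sq_nonneg R'
  have e6 := sq_nonneg w
  have f1 := sq_nonneg (2 * P - w)
  linarith

theorem sg3_c4b (k p0 P P' R R' w : ℤ) (hk : 0 < k)
    (hp0 : 0 ≤ p0) (hP : 0 ≤ P) (hP' : 0 ≤ P') (hR : 0 ≤ R) (hR' : 0 ≤ R') (hw : 0 ≤ w)
    (h1 : 100 * (p0 + P + P' + R + R' + w) ≤ 71 * k)
    (h5 : 10 * (R + R') + 7 * w ≤ 5 * k) :
    0 ≤ 12 * k * p0 + 8 * k * P + 12 * k * P' + 4 * k * R
      + w * (4 * k - 8 * (R + R') - 16 * (p0 + P + P') - 4 * w) - 4 * p0 ^ 2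
      - 16 * p0 * (R + R') + 8 * R * R' + 8 * P * P' - 12 * R * P - 8 * R * P' - 8 * R' * P
      - 12 * R' * P' := by
  have hs : 0 ≤ 71 * k - 100 * (p0 + P + P' + R + R' + w) := by linarith
  have hs5 : 0 ≤ 5 * k - 10 * (R + R') - 7 * w := by linarith
  have hk' := hk.le
  have a1 := mul_nonneg hp0 hs
  have a2 := mul_nonneg hP hs
  have a3 := mul_nonneg hP' hs
  have a4 := mul_nonneg hR hs
  have a5 := mul_nonneg hR' hs
  have a6 := mul_nonneg hw hs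
  have g6 := mul_nonneg hw hs5
  have b1 := mul_nonneg hk' hp0
  have b2 := mul_nonneg hk' hP
  have b3 := mul_nonneg hk' hP'
  have b4 := mul_nonneg hk' hR
  have b5 := mul_nonneg hk' hR'
  have b6 := mul_nonneg hk' hw
  have c1 := mul_nonneg hp0 hP
  have c2 := mul_nonneg hp0 hP'
  have c3 := mul_nonneg hp0 hR
  have c4 := mul_nonneg hp0 hR'
  have c5 := mul_nonneg hp0 hw
  have c6 := mul_nonneg hP hP'
  have c7 := mul_nonneg hP hR
  have c8 := mul_nonneg hP hR'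
  have c9 := mul_nonneg hP hw
  have d1 := mul_nonneg hP' hR
  have d2 := mul_nonneg hP' hR'
  have d3 := mul_nonneg hP' hw
  have d4 := mul_nonneg hR hR'
  have d5 := mul_nonneg hR hw
  have d6 := mul_nonneg hR' hw
  have e1 := sq_nonneg p0
  have e2 := sq_nonneg P
  have e3 := sq_nonneg P'
  have e4 := sq_nonneg R
  have e5 := sq_nonneg R'
  have e6 := sq_nonneg w
  have f1 := sq_nonneg (10 * P - 3 * w)
  linarith

/-- SG3 : even number of cosets -/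
theorem final_even_pr (k N p0 P P' R R' w d F F' A Q t : ℤ) (hk : 0 < k) (hN : 2 ≤ N)
    (hp0 : 0 ≤ p0) (hP : 0 ≤ P) (hP' : 0 ≤ P') (hR : 0 ≤ R) (hR' : 0 ≤ R') (hw : 0 ≤ w)
    (hA : A = p0 + P + P') (hQ : Q = R + R') (ht : t = Q + w - A)
    (h1 : 100 * (A + Q + w) ≤ 71 * k) (h2 : 1000 * A ≤ 525 * k) (h3 : 4 * p0 ≤ k)
    (hF' : F' ≤ UB k N p0 P P' R R' 1) (hd0 : 0 ≤ d)
    (hd : (0 ≤ t ∧ 4 * d ≤ 6 * N - 12) ∨ (t < 0 ∧ 4 * d ≤ 6 * N - 8) ∨
      (0 ≤ t ∧ 5 * t ≤ 2 * k ∧ 4 * d ≤ 6 * N - 8) ∨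
      (0 ≤ t ∧ 4 * d ≤ 6 * N - 8 ∧ 5 * F + 13 * w ^ 2 ≤ 5 * F'))
    (hF : F ≤ F' + 4 * w * (k * d + 6 * Q) - 6 * (N * k + Q - A) * w + 9 * w ^ 2) :
    F ≤ |t| * (5 * |t| - 4 * k) := by
  subst hA hQ ht
  unfold UB at hF'
  have hn : 0 ≤ k * p0 * (N - 2) := mul_nonneg (mul_nonneg hk.le hp0) (by linarith)
  have hkw : 0 ≤ k * w := mul_nonneg hk.le hw
  rcases hd with ⟨h0, hd⟩ | ⟨h0, hd⟩ | ⟨h0, h5, hd⟩ | ⟨h0, hd, h6⟩
  · rw [abs_of_nonneg h0]
    have hd' : 0 ≤ k * w * (6 * N - 12 - 4 * d) := mul_nonneg hkw (by linarith)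
    have key := sg3_c1 k p0 P P' R R' w hk hp0 hP hP' hR hR' hw (by linarith)
    linarith
  · rw [abs_of_neg h0]
    have hd' : 0 ≤ k * w * (6 * N - 8 - 4 * d) := mul_nonneg hkw (by linarith)
    have key := sg3_c2 k p0 P P' R R' w hk hp0 hP hP' hR hR' hw (by linarith) (by linarith) h3
    linarith
  · rw [abs_of_nonneg h0]
    have hd' : 0 ≤ k * w * (6 * N - 8 - 4 * d) := mul_nonneg hkw (by linarith)
    have key := sg3_c3 k p0 P P' R R' w hk hp0 hP hP' hR hR' hw (by linarith) (by linarith)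
      (by linarith)
    linarith
  · rw [abs_of_nonneg h0]
    have hd' : 0 ≤ k * w * (6 * N - 8 - 4 * d) := mul_nonneg hkw (by linarith)
    rcases le_total (5 * k) (10 * (R + R') + 7 * w) with h7 | h7
    · have key := sg3_c4a k p0 P P' R R' w hk hp0 hP hP' hR hR' hw (by linarith) h7
      linarith
    · have key := sg3_c4b k p0 P P' R R' w hk hp0 hP hP' hR hR' hw (by linarith) h7
      linarith

theorem final_even : type_of% @final_even_pr := @final_even_pr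

end Pool.Agent.ST
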