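import Mathlib
import Pool.Agent.Lib_helper28.ST.Defs
import Pool.Agent.Lib_helper28.ST.Defs2
set_option autoImplicit false

/-! Block SG4 -/

namespace Pool.Agent.ST

open Finset Pool.Agent.Lib_helper13.PL Pool.Agent.POS

theorem di_odd_pr (q j i : ℕ) (k t : ℤ) (hj : 1 ≤ j) (hi : q ≤ 3 * i) (hk : 0 < k)
    (ht : -6 * k < 10 * t) (hb : 25 * ((2 * j + 1) * k + t) ≤ 12 * (q * k)) :
    2 * (2 * j + 1) ≤ q ∧ 3 * j < q ∧
    (0 ≤ t → 4 * ((2 * j + 1 - i) + 2 * (2 * j + 1 - i)) + 18 ≤ 6 * (2 * j + 1)) ∧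
    (t < 0 → 4 * ((2 * j + 1 - i) + 2 * (2 * j + 1 - i)) + 6 ≤ 6 * (2 * j + 1)) := by
  have h1 : 25 * (2 * (j : ℤ) + 1) - 15 < 12 * q := by
    by_contra hc
    have hc' : 12 * (q : ℤ) ≤ 25 * (2 * (j : ℤ) + 1) - 15 := not_lt.1 hc
    nlinarith [mul_le_mul_of_nonneg_right hc' hk.le]
  have h2 : 0 ≤ t → 25 * (2 * (j : ℤ) + 1) ≤ 12 * q := by
    intro h0
    by_contra hc
    have hc' : 12 * (q : ℤ) + 1 ≤ 25 * (2 * (j : ℤ) + 1) := by omega
    nlinarith [mul_le_mul_of_nonneg_right hc' hk.le]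
  have h1' : 25 * (2 * j + 1) < 12 * q + 15 := by omega
  refine ⟨by omega, by omega, ?_, ?_⟩
  · intro h0
    have h3 := h2 h0
    have h3' : 25 * (2 * j + 1) ≤ 12 * q := by omega
    omega
  · intro h0
    omega

theorem di_even_pr (q j i : ℕ) (k t : ℤ) (hi : q ≤ 3 * i) (hk : 0 < k)
    (ht : -21 * k ≤ 40 * t) (hb : 25 * ((2 * j + 2) * k + t) ≤ 12 * (q * k)) :
    2 * (2 * j + 2) ≤ q ∧ 3 * (j + 1) < q ∧
    (0 ≤ t → 4 * ((2 * j + 3 - i) + 2 * (2 * j + 2 - i)) + 12 ≤ 6 * (2 * j + 2) ∨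
      (4 * ((2 * j + 3 - i) + 2 * (2 * j + 2 - i)) + 8 ≤ 6 * (2 * j + 2) ∧
        (5 * t ≤ 2 * k ∨ q = 6))) ∧
    (t < 0 → 4 * ((2 * j + 3 - i) + 2 * (2 * j + 2 - i)) + 8 ≤ 6 * (2 * j + 2)) := by
  have h1 : 1000 * (2 * (j : ℤ) + 2) - 525 ≤ 480 * q := by
    by_contra hc
    have hc' : 480 * (q : ℤ) + 1 ≤ 1000 * (2 * (j : ℤ) + 2) - 525 := by omega
    nlinarith [mul_le_mul_of_nonneg_right hc' hk.le]
  have h2 : 0 ≤ t → 25 * (2 * (j : ℤ) + 2) ≤ 12 * q := by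
    intro h0
    by_contra hc
    have hc' : 12 * (q : ℤ) + 1 ≤ 25 * (2 * (j : ℤ) + 2) := by omega
    nlinarith [mul_le_mul_of_nonneg_right hc' hk.le]
  have h3 : 2 * k < 5 * t → 25 * (2 * (j : ℤ) + 2) + 10 < 12 * q := by
    intro h0
    by_contra hc
    have hc' : 12 * (q : ℤ) ≤ 25 * (2 * (j : ℤ) + 2) + 10 := not_lt.1 hc
    nlinarith [mul_le_mul_of_nonneg_right hc' hk.le]
  have h1' : 1000 * (2 * j + 2) ≤ 480 * q + 525 := by omega
  refine ⟨by omega, by omega, ?_, ?_⟩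
  · intro h0
    have h4 := h2 h0
    have h4' : 25 * (2 * j + 2) ≤ 12 * q := by omega
    rcases le_or_gt (5 * t) (2 * k) with h5 | h5
    · by_cases h6 : 4 * ((2 * j + 3 - i) + 2 * (2 * j + 2 - i)) + 12 ≤ 6 * (2 * j + 2)
      · exact Or.inl h6
      · right
        refine ⟨?_, Or.inl h5⟩
        omega
    · have h6 := h3 h5
      have h6' : 25 * (2 * j + 2) + 10 < 12 * q := by omega
      by_cases h7 : q = 6
      · right
        refine ⟨?_, Or.inr h7⟩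
        omega
      · left
        omega
  · intro h0
    omega

theorem di_odd : type_of% @di_odd_pr := @di_odd_pr

theorem di_even : type_of% @di_even_pr := @di_even_pr

end Pool.Agent.ST
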