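import Mathlib
import Pool.Agent.Lib_helper28.ST.Defs
import Pool.Agent.Lib_helper28.ST.Defs2

/-!
# Theorem ST, block SH1: `G / K` is cyclic, generated by `a`
-/

set_option autoImplicit false

namespace Pool.Agent.ST

open Finset Pool.Agent.Lib_helper13.PL Pool.Agent.POS

section blocks
variable {G : Type*} [AddCommGroup G] [DecidableEq G]

/-- SH1 -/
theorem exists_phi_pr [Finite G] (K : AddSubgroup G) (a : G)
    (h : ∀ x : G, ∃ i : ℤ, x - i • a ∈ K) :
    ∃ (q : ℕ) (_ : NeZero q) (phi : G →+ ZMod q), Function.Surjective phi ∧ phi a = 1 ∧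
      (∀ x, phi x = 0 ↔ x ∈ K) ∧ Nat.card G = q * Nat.card K := by
  have hq : 0 < addOrderOf (QuotientAddGroup.mk a : G ⧸ K) := addOrderOf_pos _
  haveI : NeZero (addOrderOf (QuotientAddGroup.mk a : G ⧸ K)) := ⟨hq.ne'⟩
  let f : { f : ℤ →+ G ⧸ K // f (addOrderOf (QuotientAddGroup.mk a : G ⧸ K) : ℤ) = 0 } :=
    ⟨zmultiplesHom (G ⧸ K) (QuotientAddGroup.mk a : G ⧸ K), by
      rw [zmultiplesHom_apply, natCast_zsmul, addOrderOf_nsmul_eq_zero]⟩
  have hL : ∀ i : ℤ, ZMod.lift _ f (i : ZMod (addOrderOf (QuotientAddGroup.mk a : G ⧸ K))) =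
      i • (QuotientAddGroup.mk a : G ⧸ K) := by
    intro i
    rw [ZMod.lift_coe]
    rfl
  have hinj : Function.Injective (ZMod.lift _ f) := by
    rw [ZMod.lift_injective]
    intro m hm
    have hm' : m • (QuotientAddGroup.mk a : G ⧸ K) = 0 := hm
    rw [ZMod.intCast_zmod_eq_zero_iff_dvd, addOrderOf_dvd_iff_zsmul_eq_zero]
    exact hm'
  have hsur : Function.Surjective (ZMod.lift _ f) := by
    intro y
    obtain ⟨x, rfl⟩ := QuotientAddGroup.mk_surjective y
    obtain ⟨i, hi⟩ := h x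
    refine ⟨(i : ZMod _), ?_⟩
    rw [hL]
    have h1 : i • (QuotientAddGroup.mk a : G ⧸ K) = (QuotientAddGroup.mk (i • a) : G ⧸ K) := rfl
    rw [h1, QuotientAddGroup.eq]
    have h2 : -(i • a) + x = x - i • a := by abel
    rw [h2]
    exact hi
  let e := AddEquiv.ofBijective (ZMod.lift _ f) ⟨hinj, hsur⟩
  refine ⟨addOrderOf (QuotientAddGroup.mk a : G ⧸ K), this,
    e.symm.toAddMonoidHom.comp (QuotientAddGroup.mk' K), ?_, ?_, ?_, ?_⟩
  · intro z
    obtain ⟨x, hx⟩ := QuotientAddGroup.mk'_surjective K (e z)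
    refine ⟨x, ?_⟩
    show e.symm (QuotientAddGroup.mk' K x) = z
    rw [hx, AddEquiv.symm_apply_apply]
  · show e.symm (QuotientAddGroup.mk' K a) = 1
    rw [AddEquiv.symm_apply_eq]
    show (QuotientAddGroup.mk a : G ⧸ K) = ZMod.lift _ f 1
    have h1 := hL 1
    rw [Int.cast_one, one_zsmul] at h1
    exact h1.symm
  · intro x
    show e.symm (QuotientAddGroup.mk' K x) = 0 ↔ x ∈ K
    rw [AddEquiv.symm_apply_eq, map_zero]
    exact QuotientAddGroup.eq_zero_iff x
  · rw [AddSubgroup.card_eq_card_quotient_mul_card_addSubgroup K]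
    congr 1
    rw [← Nat.card_congr e.toEquiv, Nat.card_zmod]

end blocks

theorem exists_phi : type_of% @exists_phi_pr := @exists_phi_pr

end Pool.Agent.ST
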