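import Mathlib
import Pool.Agent.Lib_helper28.ST.Defs
import Pool.Agent.Lib_helper28.ST.Defs2

/-! ST, block SH2. -/

set_option autoImplicit false

namespace Pool.Agent.ST

open Finset Pool.Agent.Lib_helper13.PL Pool.Agent.POS

section
variable {G : Type*} [AddCommGroup G] [DecidableEq G]

/-- the elements of `X` by their height -/
theorem sh2_lev {q : ℕ} [NeZero q] (phi : G →+ ZMod q) (K : AddSubgroup G)
    (hker : ∀ x, phi x = 0 ↔ x ∈ K) (a : G) (ha : phi a = 1) (jm jp : ℕ) (hj : jm ≤ jp)
    (hj2 : jp ≤ jm + 1) (hq : 2 * (jp + jm + 1) ≤ q) (X : Finset G) (hX : APS K a jm jp X)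
    (x : G) : x ∈ X ↔ -(jm : ℤ) ≤ hg phi x ∧ hg phi x ≤ jp := by
  rw [hX x]
  unfold hg
  have hz : ∀ r : ℤ, phi (r • a) = (r : ZMod q) := by
    intro r
    rw [map_zsmul, ha, zsmul_one]
  constructor
  · rintro ⟨r, h1, h2, h3⟩
    rw [← hker, map_sub, hz, sub_eq_zero] at h3
    have h4 : (phi x).valMinAbs = r := by
      rw [ZMod.valMinAbs_spec]
      refine ⟨h3, ?_⟩
      rw [Set.mem_Ioc]
      constructor <;> omega
    rw [h4]
    exact ⟨h1, h2⟩
  · rintro ⟨h1, h2⟩
    refine ⟨(phi x).valMinAbs, h1, h2, ?_⟩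
    rw [← hker, map_sub, hz, ZMod.coe_valMinAbs, sub_self]

/-- each level has at most `|K|` elements -/
theorem sh2_fib [Fintype G] {q : ℕ} [NeZero q] (phi : G →+ ZMod q) (K : AddSubgroup G)
    (hker : ∀ x, phi x = 0 ↔ x ∈ K) (S : Finset G) (r : ℤ) :
    (S.filter (fun y => hg phi y = r)).card ≤ Nat.card K := by
  classical
  rcases (S.filter (fun y => hg phi y = r)).eq_empty_or_nonempty with h | ⟨y₀, hy₀⟩
  · rw [h]
    simp
  · have h1 : Nat.card K = (univ.filter (fun y => y ∈ K)).card := by
      rw [Nat.card_eq_fintype_card, Fintype.card_subtype]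
    rw [h1]
    refine Finset.card_le_card_of_injOn (fun y => y - y₀) ?_ ?_
    · intro y hy
      have h2 := (Finset.mem_filter.1 (Finset.mem_coe.1 hy)).2
      have h3 := (Finset.mem_filter.1 hy₀).2
      have h4 : phi y = phi y₀ := by
        unfold hg at h2 h3
        rw [← ZMod.coe_valMinAbs (phi y), ← ZMod.coe_valMinAbs (phi y₀), h2, h3]
      rw [Finset.mem_coe, Finset.mem_filter]
      refine ⟨Finset.mem_univ _, ?_⟩
      rw [← hker, map_sub, h4, sub_self]
    · intro y _ y' _ h
      simpa using h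

theorem sh2_cnt [Fintype G] {q : ℕ} [NeZero q] (phi : G →+ ZMod q) (K : AddSubgroup G)
    (hker : ∀ x, phi x = 0 ↔ x ∈ K) (S : Finset G) (I : Finset ℤ)
    (h : ∀ y ∈ S, hg phi y ∈ I) : S.card ≤ Nat.card K * I.card :=
  Finset.card_le_mul_card_image_of_maps_to h _ fun r _ => sh2_fib phi K hker S r

/-- pairs with one element outside `X` -/
theorem sh2_out (X B : Finset G) (f : G → G) (hf : Function.Injective f) :
    (B.filter (fun y => f y ∈ B)).card ≤
      (X.filter (fun y => f y ∈ X)).card + 2 * (B \ X).card := by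
  have h1 : B.filter (fun y => f y ∈ B) ⊆ X.filter (fun y => f y ∈ X) ∪
      ((B \ X) ∪ B.filter (fun y => f y ∈ B \ X)) := by
    intro y hy
    rw [Finset.mem_filter] at hy
    simp only [Finset.mem_union, Finset.mem_filter, Finset.mem_sdiff]
    tauto
  have h2 : (B.filter (fun y => f y ∈ B \ X)).card ≤ (B \ X).card := by
    refine Finset.card_le_card_of_injOn f ?_ hf.injOn
    intro y hy
    exact (Finset.mem_filter.1 (Finset.mem_coe.1 hy)).2
  have h3 := Finset.card_le_card h1
  have h4 := Finset.card_union_le (X.filter (fun y => f y ∈ X))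
    ((B \ X) ∪ B.filter (fun y => f y ∈ B \ X))
  have h5 := Finset.card_union_le (B \ X) (B.filter (fun y => f y ∈ B \ X))
  omega

/-- SH2 : triples through an outer element -/
theorem tri_le_pr [Fintype G] {q : ℕ} [NeZero q] (phi : G →+ ZMod q) (K : AddSubgroup G)
    (hker : ∀ x, phi x = 0 ↔ x ∈ K) (a : G) (ha : phi a = 1) (jm jp : ℕ) (hj : jm ≤ jp)
    (hj2 : jp ≤ jm + 1) (hq : 2 * (jp + jm + 1) ≤ q) (X B : Finset G) (hX : APS K a jm jp X)
    (x : G) (i : ℕ) (hi : (i : ℤ) = |hg phi x|) :
    3 * (B.card : ℤ) - (2 * dlt B x + dlt' B x) ≤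
      Nat.card K * (((2 * jp + 1 - i) + 2 * (jp + jm + 1 - i) : ℕ) : ℤ) + 6 * ((B \ X).card : ℤ) := by
  have hlev := sh2_lev phi K hker a ha jm jp hj hj2 hq X hX
  set d : ℤ := hg phi x with hd
  have hdx : ((d : ℤ) : ZMod q) = phi x := by
    rw [hd]
    exact ZMod.coe_valMinAbs (phi x)
  have hdb : d * 2 ∈ Set.Ioc (-(q : ℤ)) q := ((ZMod.valMinAbs_spec (phi x) d).1 hd.symm).2
  rw [Set.mem_Ioc] at hdb
  have hi' : (i : ℤ) = d ∧ 0 ≤ d ∨ (i : ℤ) = -d ∧ d < 0 := by
    rcases abs_cases d with h | h
    · left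
      exact ⟨hi.trans h.1, h.2⟩
    · right
      exact ⟨hi.trans h.1, h.2⟩
  clear_value d
  -- the two counts
  have e1 : (B.card : ℤ) - dlt B x = ((B.filter (fun y => y + x ∈ B)).card : ℤ) := by
    unfold dlt
    have h := Finset.card_filter_add_card_filter_not (s := B) (fun y => y + x ∈ B)
    omega
  have e2 : (B.card : ℤ) - dlt' B x = ((B.filter (fun y => x - y ∈ B)).card : ℤ) := by
    unfold dlt'
    have h := Finset.card_filter_add_card_filter_not (s := B) (fun y => x - y ∈ B)
    omega
  have o1 := sh2_out X B (fun y => y + x) (add_left_injective x)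
  have o2 := sh2_out X B (fun y => x - y) (sub_right_injective (b := x))
  have c1 : (X.filter (fun y => y + x ∈ X)).card ≤ Nat.card K * (jp + jm + 1 - i) := by
    have h := sh2_cnt phi K hker (X.filter (fun y => y + x ∈ X))
      (Finset.Icc (max (-(jm : ℤ)) (-(jm : ℤ) - d)) (min (jp : ℤ) ((jp : ℤ) - d))) (by
        intro y hy
        obtain ⟨h1, h2⟩ := Finset.mem_filter.1 hy
        rw [hlev] at h1 h2
        have h3 : hg phi (y + x) = hg phi y + d := by
          unfold hg
          rw [ZMod.valMinAbs_spec]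
          constructor
          · rw [map_add, Int.cast_add, hdx, ZMod.coe_valMinAbs]
          · rw [Set.mem_Ioc]
            have h4 : ((hg phi y + d : ℤ) : ZMod q) = ((hg phi (y + x) : ℤ) : ZMod q) := by
              unfold hg
              rw [Int.cast_add, hdx, ZMod.coe_valMinAbs, ZMod.coe_valMinAbs, map_add]
            rw [ZMod.intCast_eq_intCast_iff_dvd_sub] at h4
            obtain ⟨t, ht⟩ := h4
            have ht0 : t = 0 := by
              have h5 : (q : ℤ) * t ≤ jp + jm + q / 2 := by
                have : 2 * (hg phi (y + x) - (hg phi y + d)) ≤ 2 * (jp + jm) + q := by omega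
                omega
              have h6 : -(jp + jm + q / 2 : ℤ) ≤ (q : ℤ) * t := by
                have : -(2 * (jp + jm : ℤ) + q) ≤ 2 * (hg phi (y + x) - (hg phi y + d)) := by omega
                omega
              by_contra hne
              rcases lt_or_gt_of_ne hne with h7 | h7
              · have : (q : ℤ) * t ≤ -q := by nlinarith [(Nat.cast_nonneg q : (0 : ℤ) ≤ q)]
                omega
              · have : (q : ℤ) ≤ (q : ℤ) * t := by nlinarith [(Nat.cast_nonneg q : (0 : ℤ) ≤ q)]
                omega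
            rw [ht0, mul_zero] at ht
            have h8 : hg phi (y + x) = hg phi y + d := by omega
            change -(q : ℤ) < (hg phi y + d) * 2 ∧ (hg phi y + d) * 2 ≤ q
            omega
        rw [Finset.mem_Icc]
        omega)
    refine h.trans (Nat.mul_le_mul_left _ ?_)
    rw [Int.card_Icc]
    omega
  have c2 : (X.filter (fun y => x - y ∈ X)).card ≤ Nat.card K * (2 * jp + 1 - i) := by
    have h := sh2_cnt phi K hker (X.filter (fun y => x - y ∈ X))
      (Finset.Icc (max (-(jm : ℤ)) (d - jp)) (min (jp : ℤ) (d + jm))) (by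
        intro y hy
        obtain ⟨h1, h2⟩ := Finset.mem_filter.1 hy
        rw [hlev] at h1 h2
        have h3 : d = hg phi y + hg phi (x - y) := by
          rw [hd]
          unfold hg at h1 h2 ⊢
          rw [ZMod.valMinAbs_spec]
          constructor
          · rw [Int.cast_add, ZMod.coe_valMinAbs, ZMod.coe_valMinAbs, map_sub]
            ring
          · rw [Set.mem_Ioc]
            omega
        rw [Finset.mem_Icc]
        omega)
    refine h.trans (Nat.mul_le_mul_left _ ?_)
    rw [Int.card_Icc]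
    omega
  have f1 : ((X.filter (fun y => y + x ∈ X)).card : ℤ) ≤
      Nat.card K * ((jp + jm + 1 - i : ℕ) : ℤ) := by exact_mod_cast c1
  have f2 : ((X.filter (fun y => x - y ∈ X)).card : ℤ) ≤
      Nat.card K * ((2 * jp + 1 - i : ℕ) : ℤ) := by exact_mod_cast c2
  have g1 : ((B.filter (fun y => y + x ∈ B)).card : ℤ) ≤
      ((X.filter (fun y => y + x ∈ X)).card : ℤ) + 2 * ((B \ X).card : ℤ) := by
    exact_mod_cast o1
  have g2 : ((B.filter (fun y => x - y ∈ B)).card : ℤ) ≤
      ((X.filter (fun y => x - y ∈ X)).card : ℤ) + 2 * ((B \ X).card : ℤ) := by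
    exact_mod_cast o2
  push_cast
  rw [mul_add]
  linarith

end

theorem tri_le : type_of% @tri_le_pr := @tri_le_pr

end Pool.Agent.ST
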