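import Mathlib
import Pool.Agent.Lib_helper28.ST.Defs
import Pool.Agent.Lib_helper25.PR.PA
import Pool.Agent.Lib_helper25.PR.PC
import Pool.Agent.Lib_helper25.PR.PD
import Pool.Agent.Lib_helper28.ST.Defs2
import Pool.Agent.Lib_helper25.PR.PE

/-!
# Theorem ST, block SH3: the bound of the profile
-/

set_option autoImplicit false

namespace Pool.Agent.ST

open Finset Pool.Agent.Lib_helper13.PL Pool.Agent.POS

theorem sh3_sq {ι : Type*} (S : Finset ι) (a : ι → ℤ) (ha : ∀ u ∈ S, 0 ≤ a u) :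
    ∑ u ∈ S, a u ^ 2 ≤ (∑ u ∈ S, a u) ^ 2 := by
  classical
  induction S using Finset.induction_on with
  | empty => simp
  | insert i s hi ih =>
    rw [Finset.sum_insert hi, Finset.sum_insert hi]
    have h1 := ih fun u hu => ha u (Finset.mem_insert_of_mem hu)
    have h2 := ha i (Finset.mem_insert_self _ _)
    have h3 : 0 ≤ ∑ u ∈ s, a u := Finset.sum_nonneg fun u hu =>
      ha u (Finset.mem_insert_of_mem hu)
    nlinarith [mul_nonneg h2 h3]

theorem sh3_sum {ι : Type*} [DecidableEq ι] (S I : Finset ι) (hI : I ⊆ S) (f a g : ι → ℤ)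
    (ha : ∀ u, 0 ≤ a u) (hg : ∀ u, 0 ≤ g u) (k p : ℤ)
    (hin : ∀ u ∈ I, k * (2 * p + 6 * a u) - 6 * a u ^ 2 - 10 * p * a u ≤ f u)
    (hout : ∀ u ∈ S \ I, 6 * g u * (k - g u) - 6 * p * g u ≤ f u) :
    2 * k * p * (I.card : ℤ) + 6 * k * (∑ u ∈ I, a u) - 6 * (∑ u ∈ I, a u) ^ 2
      - 10 * p * (∑ u ∈ I, a u) + 6 * k * (∑ u ∈ S \ I, g u) - 6 * (∑ u ∈ S \ I, g u) ^ 2
      - 6 * p * (∑ u ∈ S \ I, g u) ≤ ∑ u ∈ S, f u := by
  have h1 : ∑ u ∈ S, f u = ∑ u ∈ S \ I, f u + ∑ u ∈ I, f u := (Finset.sum_sdiff hI).symm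
  have h2 := Finset.sum_le_sum hin
  have h3 := Finset.sum_le_sum hout
  have e2 : ∑ u ∈ I, (k * (2 * p + 6 * a u) - 6 * a u ^ 2 - 10 * p * a u) =
      2 * k * p * (I.card : ℤ) + 6 * k * (∑ u ∈ I, a u) - 6 * (∑ u ∈ I, a u ^ 2)
      - 10 * p * (∑ u ∈ I, a u) := by
    have : ∀ u ∈ I, k * (2 * p + 6 * a u) - 6 * a u ^ 2 - 10 * p * a u =
        2 * k * p + 6 * k * a u - 6 * a u ^ 2 - 10 * p * a u := fun u _ => by ring
    rw [Finset.sum_congr rfl this, Finset.sum_sub_distrib, Finset.sum_sub_distrib,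
      Finset.sum_add_distrib, Finset.sum_const, ← Finset.mul_sum, ← Finset.mul_sum,
      ← Finset.mul_sum, nsmul_eq_mul]
    ring
  have e3 : ∑ u ∈ S \ I, (6 * g u * (k - g u) - 6 * p * g u) =
      6 * k * (∑ u ∈ S \ I, g u) - 6 * (∑ u ∈ S \ I, g u ^ 2)
      - 6 * p * (∑ u ∈ S \ I, g u) := by
    have : ∀ u ∈ S \ I, 6 * g u * (k - g u) - 6 * p * g u =
        6 * k * g u - 6 * g u ^ 2 - 6 * p * g u := fun u _ => by ring
    rw [Finset.sum_congr rfl this, Finset.sum_sub_distrib, Finset.sum_sub_distrib,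
      ← Finset.mul_sum, ← Finset.mul_sum, ← Finset.mul_sum]
  have s1 := sh3_sq I a fun u _ => ha u
  have s2 := sh3_sq (S \ I) g fun u _ => hg u
  linarith

section
variable {G : Type*} [AddCommGroup G] [DecidableEq G]

/-- one side -/
theorem sh3_side [Fintype G] {q : ℕ} [NeZero q] (phi : G →+ ZMod q) (K : AddSubgroup G)
    (KK : Finset G) (hKK : ∀ x, x ∈ KK ↔ x ∈ K)
    (hker : ∀ x, phi x = 0 ↔ x ∈ K) (hsurj : ∀ u, ∃ x, phi x = u) (X B : Finset G)
    (k : ℤ) (hk : k = KK.card) (hX0 : 4 * ((X \ B).card : ℤ) ≤ 3 * k)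
    (p0 : ℤ) (hp0 : p0 = ((KK \ lev phi B 0).card : ℤ))
    (pos : ZMod q → Prop) [DecidablePred pos] (hpos0 : ¬ pos 0) (I : Finset (ZMod q))
    (hI : ∀ u ∈ I, pos u) (hXI : ∀ x, pos (phi x) → (x ∈ X ↔ phi x ∈ I)) (P R : ℤ)
    (hP : P = (((X \ B).filter (fun x => pos (phi x))).card : ℤ))
    (hR : R = (((B \ X).filter (fun x => pos (phi x))).card : ℤ)) :
    2 * k * p0 * (I.card : ℤ) + 6 * k * P - 6 * P ^ 2 - 10 * p0 * P + 6 * k * R - 6 * R ^ 2
        - 6 * p0 * R ≤
      ∑ u ∈ ((B.image phi).erase 0).filter pos, cost (lev phi B u) (lev phi B 0) ∧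
    ((B.filter (fun x => pos (phi x))).card : ℤ) = I.card * k - P + R := by
  classical
  have hkpos : 0 < k := by
    rw [hk]; exact_mod_cast Finset.card_pos.2 ⟨0, (hKK 0).2 K.zero_mem⟩
  -- the cosets
  set Cu : ZMod q → Finset G := fun u => Finset.univ.filter (fun x => phi x = u) with hCu
  have hcst : ∀ u w, phi w = u → ∀ x, x ∈ Cu u ↔ x - w ∈ K := by
    intro u w hw x
    rw [← hker, map_sub, sub_eq_zero, hw]
    simp [hCu]
  have hCk : ∀ u, ((Cu u).card : ℤ) = k := by
    intro u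
    obtain ⟨w, hw⟩ := hsurj u
    rw [hk, Nat.cast_inj]
    refine Finset.card_bij (fun x _ => x - w) ?_ ?_ ?_
    · intro x hx
      exact (hKK _).2 ((hcst u w hw x).1 hx)
    · intro x _ y _ h
      exact sub_left_injective h
    · intro y hy
      refine ⟨y + w, (hcst u w hw _).2 (by simpa using (hKK y).1 hy), by simp⟩
  set S := ((B.image phi).erase 0).filter pos with hS
  have hIS : I ⊆ S := by
    intro u hu
    have hpu := hI u hu
    refine Finset.mem_filter.2 ⟨Finset.mem_erase.2 ⟨fun h => hpos0 (h ▸ hpu), ?_⟩, hpu⟩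
    by_contra hc
    have hsub : Cu u ⊆ X \ B := by
      intro x hx
      have hxu : phi x = u := (Finset.mem_filter.1 hx).2
      refine Finset.mem_sdiff.2 ⟨(hXI x (by rw [hxu]; exact hpu)).2 (by rw [hxu]; exact hu), ?_⟩
      intro hxB
      exact hc (Finset.mem_image.2 ⟨x, hxB, hxu⟩)
    have h1 : ((Cu u).card : ℤ) ≤ (X \ B).card := by exact_mod_cast Finset.card_le_card hsub
    rw [hCk] at h1
    linarith
  set a : ZMod q → ℤ := fun u => ((Cu u \ lev phi B u).card : ℤ) with ha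
  set g : ZMod q → ℤ := fun u => ((lev phi B u).card : ℤ) with hg
  have hsubC : ∀ u, lev phi B u ⊆ Cu u := by
    intro u x hx
    exact Finset.mem_filter.2 ⟨Finset.mem_univ _, (Finset.mem_filter.1 hx).2⟩
  have hag : ∀ u, g u = k - a u := by
    intro u
    have h1 := Finset.card_sdiff_add_card_eq_card (hsubC u)
    have h2 : ((Cu u \ lev phi B u).card : ℤ) + (lev phi B u).card = (Cu u).card := by
      exact_mod_cast h1
    rw [hCk] at h2
    simp only [ha, hg]
    linarith
  have hr0 : ((lev phi B 0 \ KK).card : ℤ) = 0 := by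
    have : lev phi B 0 \ KK = ∅ := by
      rw [Finset.sdiff_eq_empty_iff_subset]
      intro x hx
      exact (hKK x).2 ((hker x).1 (Finset.mem_filter.1 hx).2)
    rw [this]; simp
  have hPs : P = ∑ u ∈ I, a u := by
    rw [hP, Finset.card_eq_sum_card_fiberwise (f := phi) (t := I)]
    · push_cast
      refine Finset.sum_congr rfl fun u hu => ?_
      simp only [ha]
      congr 2
      ext x
      simp only [Finset.mem_filter, Finset.mem_sdiff, hCu, lev, Finset.mem_univ, true_and]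
      constructor
      · rintro ⟨⟨⟨_, h2⟩, _⟩, h4⟩
        exact ⟨h4, fun h => h2 h.1⟩
      · rintro ⟨h1, h2⟩
        have h3 : pos (phi x) := by rw [h1]; exact hI u hu
        exact ⟨⟨⟨(hXI x h3).2 (by rw [h1]; exact hu), fun h => h2 ⟨h, h1⟩⟩, h3⟩, h1⟩
    · intro x hx
      simp only [Finset.coe_filter, Finset.mem_sdiff, Set.mem_ofPred_eq] at hx
      exact (hXI x hx.2).1 hx.1.1
  have hRs : R = ∑ u ∈ S \ I, g u := by
    rw [hR, Finset.card_eq_sum_card_fiberwise (f := phi) (t := S \ I)]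
    · push_cast
      refine Finset.sum_congr rfl fun u hu => ?_
      simp only [hg]
      congr 2
      ext x
      simp only [Finset.mem_filter, Finset.mem_sdiff, lev]
      have hu1 := (Finset.mem_sdiff.1 hu).1
      have hu2 := (Finset.mem_sdiff.1 hu).2
      have hu3 : pos u := (Finset.mem_filter.1 hu1).2
      constructor
      · rintro ⟨⟨⟨h1, _⟩, _⟩, h4⟩
        exact ⟨h1, h4⟩
      · rintro ⟨h1, h2⟩
        have h3 : pos (phi x) := by rw [h2]; exact hu3
        refine ⟨⟨⟨h1, fun h => hu2 ?_⟩, h3⟩, h2⟩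
        have := (hXI x h3).1 h
        rwa [h2] at this
    · intro x hx
      simp only [Finset.coe_filter, Finset.mem_sdiff, Set.mem_ofPred_eq] at hx
      have h5 : phi x ≠ 0 := fun h => hpos0 (h ▸ hx.2)
      simp only [Finset.coe_sdiff, Set.mem_diff, Finset.mem_coe]
      exact ⟨Finset.mem_filter.2 ⟨Finset.mem_erase.2 ⟨h5, Finset.mem_image_of_mem _ hx.1.1⟩, hx.2⟩,
        fun h => hx.1.2 ((hXI x hx.2).2 h)⟩
  refine ⟨?_, ?_⟩
  · rw [hPs, hRs]
    refine sh3_sum S I hIS _ a g (fun u => by simp only [ha]; positivity)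
      (fun u => by simp only [hg]; positivity) k p0 ?_ ?_
    · intro u hu
      obtain ⟨w, hw⟩ := hsurj u
      have ht : ((lev phi B u \ Cu u).card : ℤ) = 0 := by
        rw [Finset.sdiff_eq_empty_iff_subset.2 (hsubC u)]; simp
      have h := cost_one K KK hKK (lev phi B u) (lev phi B 0) (Cu u) ⟨w, hcst u w hw⟩
        k p0 0 (a u) 0 hk hp0 hr0.symm rfl ht.symm
      linarith
    · intro u _
      have h := cost_none K KK hKK (lev phi B u) (lev phi B 0) k p0 0 (g u) hk hp0 hr0.symm rfl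
      linarith
  · rw [hPs, hRs]
    have h1 : ((B.filter (fun x => pos (phi x))).card : ℤ) = ∑ u ∈ S, g u := by
      rw [Finset.card_eq_sum_card_fiberwise (f := phi) (t := S)]
      · push_cast
        refine Finset.sum_congr rfl fun u hu => ?_
        simp only [hg]
        congr 2
        ext x
        simp only [Finset.mem_filter, lev]
        have hu3 : pos u := (Finset.mem_filter.1 hu).2
        constructor
        · rintro ⟨⟨h1, _⟩, h4⟩; exact ⟨h1, h4⟩
        · rintro ⟨h1, h2⟩; exact ⟨⟨h1, by rw [h2]; exact hu3⟩, h2⟩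
      · intro x hx
        simp only [Finset.coe_filter, Set.mem_ofPred_eq] at hx
        have h5 : phi x ≠ 0 := fun h => hpos0 (h ▸ hx.2)
        exact Finset.mem_coe.2 (Finset.mem_filter.2
          ⟨Finset.mem_erase.2 ⟨h5, Finset.mem_image_of_mem _ hx.1⟩, hx.2⟩)
    rw [h1, ← Finset.sum_sdiff hIS, Finset.sum_congr rfl fun u (_ : u ∈ I) => hag u,
      Finset.sum_sub_distrib, Finset.sum_const, nsmul_eq_mul]
    ring

/-- SH3 : the bound of the profile -/
theorem prof_bound_pr [Fintype G] {q : ℕ} [NeZero q] (phi : G →+ ZMod q) (K : AddSubgroup G)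
    (hker : ∀ x, phi x = 0 ↔ x ∈ K) (a : G) (ha : phi a = 1) (jm jp : ℕ)
    (hjm : 3 * jm < q) (hjp : 3 * jp < q) (X B : Finset G) (hX : APS K a jm jp X)
    (hB : NoWrap phi B) (k : ℤ) (hk : k = Nat.card K) (hX0 : 4 * ((X \ B).card : ℤ) ≤ 3 * k) :
    GL.FF B ≤ UB k (jp + jm + 1)
      (((X \ B).filter (fun x => hg phi x = 0)).card)
      (((X \ B).filter (fun x => 0 < hg phi x)).card)
      (((X \ B).filter (fun x => hg phi x < 0)).card)
      (((B \ X).filter (fun x => 0 < hg phi x)).card)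
      (((B \ X).filter (fun x => hg phi x < 0)).card) ((jp : ℤ) - jm) := by
  classical
  -- the subgroup as a finite set
  set KK : Finset G := Finset.univ.filter (fun x => x ∈ K) with hKKd
  have hKK : ∀ x, x ∈ KK ↔ x ∈ K := fun x => by simp [hKKd]
  have hk' : k = KK.card := by
    rw [hk]
    have h1 : (K : Set G) = ((KK : Finset G) : Set G) := by
      ext x; simp [hKKd]
    have h2 : Nat.card K = (K : Set G).ncard := rfl
    rw [h2, h1, Set.ncard_coe_finset]
  have hsurj : ∀ u, ∃ x, phi x = u := fun u => ⟨u.val • a, by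
    rw [map_nsmul, ha, nsmul_eq_mul, mul_one, ZMod.natCast_zmod_val]⟩
  -- heights in X
  have hval : ∀ i : ℤ, -(jm : ℤ) ≤ i → i ≤ jp → ((i : ZMod q)).valMinAbs = i := by
    intro i h1 h2
    refine (ZMod.valMinAbs_spec _ _).2 ⟨rfl, ?_, ?_⟩ <;> omega
  have hXv : ∀ x, x ∈ X ↔ -(jm : ℤ) ≤ hg phi x ∧ hg phi x ≤ jp := by
    intro x
    rw [hX x]
    constructor
    · rintro ⟨i, h1, h2, h3⟩
      have h4 := (hker _).2 h3
      rw [map_sub, map_zsmul, ha, sub_eq_zero, zsmul_eq_mul, mul_one] at h4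
      have h5 : hg phi x = i := by unfold hg; rw [h4]; exact hval i h1 h2
      rw [h5]; exact ⟨h1, h2⟩
    · rintro ⟨h1, h2⟩
      refine ⟨hg phi x, h1, h2, (hker _).1 ?_⟩
      rw [map_sub, map_zsmul, ha, sub_eq_zero, zsmul_eq_mul, mul_one]
      unfold hg
      rw [ZMod.coe_valMinAbs]
  -- p0
  have hp0 : (((X \ B).filter (fun x => hg phi x = 0)).card : ℤ) =
      ((KK \ lev phi B 0).card : ℤ) := by
    congr 2
    ext x
    simp only [Finset.mem_filter, Finset.mem_sdiff, lev, hKK]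
    constructor
    · rintro ⟨⟨_, h2⟩, h3⟩
      exact ⟨(hker x).1 ((ZMod.valMinAbs_eq_zero _).1 h3), fun h => h2 h.1⟩
    · rintro ⟨h1, h2⟩
      have h3 := (hker x).2 h1
      have h4 : hg phi x = 0 := by unfold hg; rw [h3]; simp
      refine ⟨⟨(hXv x).2 (by rw [h4]; omega), fun h => h2 ⟨h, h3⟩⟩, h4⟩
  -- positive side
  set Ip : Finset (ZMod q) := (Finset.Icc 1 jp).image (fun i : ℕ => ((i : ℤ) : ZMod q)) with hIp
  have hvp : ∀ i : ℕ, 1 ≤ i → i ≤ jp → (((i : ℤ) : ZMod q)).valMinAbs = i :=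
    fun i _ h2 => hval i (by omega) (by omega)
  have hIpc : Ip.card = jp := by
    rw [hIp, Finset.card_image_of_injOn, Nat.card_Icc]
    · omega
    · intro i hi j hj h
      simp only [Finset.coe_Icc, Set.mem_Icc] at hi hj
      have h1 := hvp i hi.1 hi.2
      have h2 := hvp j hj.1 hj.2
      have h3 : ((i : ℤ) : ZMod q) = ((j : ℤ) : ZMod q) := h
      rw [h3, h2] at h1
      exact_mod_cast h1.symm
  set In : Finset (ZMod q) := (Finset.Icc 1 jm).image (fun i : ℕ => ((-(i : ℤ) : ℤ) : ZMod q))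
    with hIn
  have hvn : ∀ i : ℕ, 1 ≤ i → i ≤ jm → (((-(i : ℤ) : ℤ) : ZMod q)).valMinAbs = -(i : ℤ) :=
    fun i _ h2 => hval _ (by omega) (by omega)
  have hInc : In.card = jm := by
    rw [hIn, Finset.card_image_of_injOn, Nat.card_Icc]
    · omega
    · intro i hi j hj h
      simp only [Finset.coe_Icc, Set.mem_Icc] at hi hj
      have h1 := hvn i hi.1 hi.2
      have h2 := hvn j hj.1 hj.2
      have h3 : ((-(i : ℤ) : ℤ) : ZMod q) = ((-(j : ℤ) : ℤ) : ZMod q) := h
      rw [h3, h2] at h1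
      have h4 : (j : ℤ) = i := by linarith
      exact_mod_cast h4.symm
  have hcoe : ∀ x : G, phi x = ((hg phi x : ℤ) : ZMod q) := fun x => by
    unfold hg; rw [ZMod.coe_valMinAbs]
  obtain ⟨hc1, hd1⟩ := sh3_side phi K KK hKK hker hsurj X B k hk' hX0 _ rfl
    (fun u => 0 < u.valMinAbs) (by simp) Ip
    (by
      intro u hu
      obtain ⟨i, hi, rfl⟩ := Finset.mem_image.1 hu
      rw [Finset.mem_Icc] at hi
      rw [hvp i hi.1 hi.2]; omega)
    (by
      intro x hx
      change 0 < hg phi x at hx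
      rw [hXv x]
      constructor
      · rintro ⟨_, h2⟩
        refine Finset.mem_image.2 ⟨(hg phi x).toNat, Finset.mem_Icc.2 ⟨by omega, by omega⟩, ?_⟩
        rw [hcoe x]; congr 1; omega
      · intro h
        obtain ⟨i, hi, hix⟩ := Finset.mem_image.1 h
        rw [Finset.mem_Icc] at hi
        have : hg phi x = i := by unfold hg; rw [← hix]; exact hvp i hi.1 hi.2
        rw [this]; omega)
    _ _ rfl rfl
  obtain ⟨hc2, hd2⟩ := sh3_side phi K KK hKK hker hsurj X B k hk' hX0 _ rfl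
    (fun u => u.valMinAbs < 0) (by simp) In
    (by
      intro u hu
      obtain ⟨i, hi, rfl⟩ := Finset.mem_image.1 hu
      rw [Finset.mem_Icc] at hi
      rw [hvn i hi.1 hi.2]; omega)
    (by
      intro x hx
      change hg phi x < 0 at hx
      rw [hXv x]
      constructor
      · rintro ⟨h1, _⟩
        refine Finset.mem_image.2 ⟨(-hg phi x).toNat, Finset.mem_Icc.2 ⟨by omega, by omega⟩, ?_⟩
        rw [hcoe x]; congr 1; omega
      · intro h
        obtain ⟨i, hi, hix⟩ := Finset.mem_image.1 h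
        rw [Finset.mem_Icc] at hi
        have : hg phi x = -(i : ℤ) := by unfold hg; rw [← hix]; exact hvn i hi.1 hi.2
        rw [this]; omega)
    _ _ rfl rfl
  have hstar := pl_star phi B hB
  have hff := ff0 K KK hKK (lev phi B 0) k _ 0 hk' rfl (by
    have : lev phi B 0 \ KK = ∅ := by
      rw [Finset.sdiff_eq_empty_iff_subset]
      intro x hx
      exact (hKK x).2 ((hker x).1 (Finset.mem_filter.1 hx).2)
    rw [this]; simp)
  -- splitting of the sum
  have hsplit : ∑ u ∈ (B.image phi).erase 0, cost (lev phi B u) (lev phi B 0) =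
      ∑ u ∈ ((B.image phi).erase 0).filter (fun u => 0 < u.valMinAbs),
        cost (lev phi B u) (lev phi B 0) +
      ∑ u ∈ ((B.image phi).erase 0).filter (fun u => u.valMinAbs < 0),
        cost (lev phi B u) (lev phi B 0) := by
    rw [← Finset.sum_filter_add_sum_filter_not ((B.image phi).erase 0)
      (fun u => 0 < u.valMinAbs)]
    congr 1
    refine Finset.sum_congr (Finset.filter_congr fun u hu => ?_) fun _ _ => rfl
    have h1 : u.valMinAbs ≠ 0 := fun h => (Finset.mem_erase.1 hu).1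
      ((ZMod.valMinAbs_eq_zero _).1 h)
    constructor
    · intro h; omega
    · intro h; omega
  rw [hsplit] at hstar
  have hDD : DD phi B = ((B.filter (fun x => 0 < (phi x).valMinAbs)).card : ℤ) -
    ((B.filter (fun x => (phi x).valMinAbs < 0)).card : ℤ) := rfl
  rw [hDD, hd1, hd2, hIpc, hInc] at hstar
  rw [hIpc] at hc1
  rw [hInc] at hc2
  rw [hp0]
  unfold UB
  unfold hg
  set p0 := ((KK \ lev phi B 0).card : ℤ)
  set P := (((X \ B).filter (fun x => 0 < (phi x).valMinAbs)).card : ℤ)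
  set P' := (((X \ B).filter (fun x => (phi x).valMinAbs < 0)).card : ℤ)
  set R := (((B \ X).filter (fun x => 0 < (phi x).valMinAbs)).card : ℤ)
  set R' := (((B \ X).filter (fun x => (phi x).valMinAbs < 0)).card : ℤ)
  have e1 : ((jp : ℤ) * k - P + R - (jm * k - P' + R')) =
      ((jp : ℤ) - jm) * k + R - P - R' + P' := by ring
  rw [e1] at hstar
  linarith

end

theorem prof_bound : type_of% @prof_bound_pr := @prof_bound_pr

end Pool.Agent.ST
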