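import Mathlib
import Pool.Agent.Lib_helper28.ST.Defs
import Pool.Agent.Lib_helper28.GL.Glue
import Pool.Agent.Lib_helper28.ST.Defs2

set_option autoImplicit false

namespace Pool.Agent.ST

open Finset Pool.Agent.Lib_helper13.PL Pool.Agent.POS

theorem sh4_psi {G : Type*} [AddCommGroup G] [Finite G] (M : AddSubgroup G) (hM : M ≠ ⊤) :
    ∃ (p : ℕ) (psi : G →+ ZMod p), 2 ≤ p ∧ Function.Surjective psi ∧ ∀ x ∈ M, psi x = 0 := by
  obtain ⟨N, hN, hMN⟩ := (eq_top_or_exists_le_coatom M).resolve_left hM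
  have hnt : Nontrivial (G ⧸ N) := by
    rw [QuotientAddGroup.nontrivial_iff]
    exact hN.1
  have hs : IsSimpleAddGroup (G ⧸ N) := by
    refine ⟨fun H _ => ?_⟩
    have h1 : N ≤ H.comap (QuotientAddGroup.mk' N) := by
      intro x hx
      rw [AddSubgroup.mem_comap]
      have : QuotientAddGroup.mk' N x = 0 := by
        rw [QuotientAddGroup.mk'_apply, QuotientAddGroup.eq_zero_iff]
        exact hx
      rw [this]
      exact H.zero_mem
    rcases eq_or_lt_of_le h1 with h2 | h2
    · left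
      rw [eq_bot_iff]
      intro y hy
      obtain ⟨x, rfl⟩ := QuotientAddGroup.mk'_surjective N y
      have h3 : x ∈ H.comap (QuotientAddGroup.mk' N) := hy
      rw [← h2] at h3
      rw [AddSubgroup.mem_bot, QuotientAddGroup.mk'_apply, QuotientAddGroup.eq_zero_iff]
      exact h3
    · right
      have h3 := hN.2 _ h2
      rw [eq_top_iff]
      intro y _
      obtain ⟨x, rfl⟩ := QuotientAddGroup.mk'_surjective N y
      have h4 : x ∈ H.comap (QuotientAddGroup.mk' N) := by
        rw [h3]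
        exact AddSubgroup.mem_top x
      exact h4
  have hp : (Nat.card (G ⧸ N)).Prime := AddCommGroup.is_simple_iff_prime_card.1 hs
  have hfact : Fact (Nat.card (G ⧸ N)).Prime := ⟨hp⟩
  have hc : IsAddCyclic (G ⧸ N) := isAddCyclic_of_prime_card (p := Nat.card (G ⧸ N)) rfl
  refine ⟨Nat.card (G ⧸ N), (zmodAddCyclicAddEquiv hc).symm.toAddMonoidHom.comp
    (QuotientAddGroup.mk' N), hp.two_le, ?_, ?_⟩
  · intro y
    obtain ⟨x, hx⟩ := QuotientAddGroup.mk'_surjective N ((zmodAddCyclicAddEquiv hc) y)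
    refine ⟨x, ?_⟩
    rw [AddMonoidHom.comp_apply, hx]
    exact (zmodAddCyclicAddEquiv hc).symm_apply_apply y
  · intro x hx
    rw [AddMonoidHom.comp_apply]
    have : QuotientAddGroup.mk' N x = 0 := by
      rw [QuotientAddGroup.mk'_apply, QuotientAddGroup.eq_zero_iff]
      exact hMN hx
    rw [this]
    exact map_zero _

/-- SH4 : gluing -/
theorem glue_ap_pr {G : Type*} [AddCommGroup G] [DecidableEq G] [Fintype G]
    (IH : ∀ M : AddSubgroup G, M ≠ ⊤ → ∀ B' : Finset M, GL.Bd M B'.card (GL.FF B'))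
    (B X : Finset G) (M : AddSubgroup G) (hM : M ≠ ⊤) (hX : ∀ x ∈ X, x ∈ M)
    (h : 2 * (B \ X).card + (X \ B).card ≤ X.card) : GL.Bd G B.card (GL.FF B) := by
  obtain ⟨p, psi, hp, hsurj, hpsi⟩ := sh4_psi M hM
  have h1 : (B ∩ X).card ≤ (B.filter (fun x => psi x = 0)).card := by
    apply card_le_card
    intro x hx
    rw [mem_inter] at hx
    rw [mem_filter]
    exact ⟨hx.1, hpsi x (hX x hx.2)⟩
  have h2 : (B \ X).card + (B ∩ X).card = B.card := card_sdiff_add_card_inter B X
  have h3 : (X \ B).card + (X ∩ B).card = X.card := card_sdiff_add_card_inter X B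
  rw [inter_comm X B] at h3
  apply GL.gluing_zmod IH B p hp psi hsurj
  · omega
  · intro _
    omega

theorem glue_ap : type_of% @glue_ap_pr := @glue_ap_pr

end Pool.Agent.ST
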