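import Mathlib
import Pool.Agent.Lib_helper28.ST.Defs
import Pool.Agent.Lib_helper13.PL.KKT
import Pool.Agent.Lib_helper28.GL.Comb
import Pool.Agent.Lib_helper28.ST.Defs2

/-!
# Theorem ST: block SH5, removing the outer part
-/

set_option autoImplicit false

namespace Pool.Agent.ST

open Finset Pool.Agent.Lib_helper13.PL Pool.Agent.POS

section
variable {G : Type*} [AddCommGroup G] [DecidableEq G]

lemma sh5_TT_sum1 (R B : Finset G) : TT R B B = ∑ x ∈ R, ((B.card : ℤ) - dlt B x) := by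
  have h : TT R B B = ∑ x ∈ R, TT {x} B B := by
    unfold TT
    refine Finset.sum_congr rfl fun x _ => ?_
    rw [Finset.sum_singleton]
  rw [h]
  exact Finset.sum_congr rfl fun x _ => TT_single1 B x

lemma sh5_TT_sum3 (B : Finset G) (R : Finset G) :
    TT B B R = ∑ x ∈ R, ((B.card : ℤ) - dlt' B x) := by
  classical
  induction R using Finset.induction_on with
  | empty => simp [TT]
  | insert a R ha ih =>
    rw [Finset.sum_insert ha]
    have hd : Disjoint ({a} : Finset G) R := Finset.disjoint_singleton_left.mpr ha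
    have hu : insert a R = {a} ∪ R := rfl
    rw [hu, TT_union3 _ _ hd, ih, TT_single3]

lemma sh5_FF (B : Finset G) : GL.FF B = 4 * TT B B B - 3 * (B.card : ℤ) ^ 2 := by
  unfold GL.FF
  rw [GL.sch_eq]
  rfl

/-- SH5 : removing the outer part -/
theorem remove_outer_pr [Fintype G] (B R : Finset G) (hd : Disjoint B R) (D : ℤ)
    (hD : ∀ x ∈ R, 3 * (B.card : ℤ) - (2 * dlt B x + dlt' B x) ≤ D) :
    GL.FF (B ∪ R) ≤ GL.FF B + 4 * (R.card : ℤ) * D - 6 * (B.card : ℤ) * R.card
      + 9 * (R.card : ℤ) ^ 2 := by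
  rw [sh5_FF, sh5_FF, Finset.card_union_of_disjoint hd, TT_union1 _ _ hd, TT_union2 _ _ hd,
    TT_union2 _ _ hd, TT_union3 _ _ hd, TT_union3 _ _ hd, TT_union3 _ _ hd, TT_union3 _ _ hd]
  have e1 := sh5_TT_sum1 R B
  have e2 := sh5_TT_sum3 B R
  have e3 : TT B R B = TT R B B := TT_comm _ _ _
  have h1 : TT R R B + TT R R R ≤ (R.card : ℤ) * R.card := by
    rw [← TT_union3 _ _ hd]
    exact TT_le12 _ _ _
  have h2 : TT R B R ≤ (R.card : ℤ) * R.card := TT_le13 _ _ _
  have h3 : TT B R R ≤ (R.card : ℤ) * R.card := TT_le23 _ _ _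
  have h4 : 2 * TT R B B + TT B B R ≤ (R.card : ℤ) * D := by
    have h5 : 2 * TT R B B + TT B B R =
        ∑ x ∈ R, (3 * (B.card : ℤ) - (2 * dlt B x + dlt' B x)) := by
      rw [e1, e2, Finset.mul_sum, ← Finset.sum_add_distrib]
      exact Finset.sum_congr rfl fun x _ => by ring
    rw [h5]
    calc ∑ x ∈ R, (3 * (B.card : ℤ) - (2 * dlt B x + dlt' B x)) ≤ ∑ _x ∈ R, D :=
          Finset.sum_le_sum hD
      _ = (R.card : ℤ) * D := by rw [Finset.sum_const, nsmul_eq_mul]
  rw [e3]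
  push_cast
  nlinarith [h1, h2, h3, h4]

end

theorem remove_outer : type_of% @remove_outer_pr := @remove_outer_pr

end Pool.Agent.ST
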