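import Mathlib
import Pool.Agent.Lib_helper28.ST.Defs
import Pool.Agent.Lib_helper28.ST.Defs2
import Pool.Agent.Lib_helper25.PR.PD
import Pool.Agent.Lib_helper25.PR.PE
import Pool.Agent.Lib_helper28.ST.L.SA1

/-!
# Theorem ST, block SE: closed sets are arithmetic progressions of cosets
-/

set_option autoImplicit false

namespace Pool.Agent.ST

open Finset Pool.Agent.Lib_helper13.PL Pool.Agent.POS

section
variable {G : Type*} [AddCommGroup G] [DecidableEq G]

theorem se_chi_eq {m : ℕ} {chi : G →+ ZMod m} {x y : G} (h : hg chi x = hg chi y) :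
    chi x = chi y :=
  ZMod.injective_valMinAbs h

theorem se_chi_zero {m : ℕ} {chi : G →+ ZMod m} {x : G} (h : hg chi x = 0) : chi x = 0 :=
  (ZMod.valMinAbs_eq_zero _).1 h

theorem se_hg_ker {m : ℕ} {chi : G →+ ZMod m} {K : AddSubgroup G} (hKL : ∀ x ∈ K, chi x = 0)
    {x y : G} (h : x - y ∈ K) : hg chi x = hg chi y := by
  have h1 := hKL _ h
  rw [map_sub, sub_eq_zero] at h1
  unfold hg
  rw [h1]

theorem se_card {K : AddSubgroup G} {X : Finset G} (hKX : ∀ x ∈ K, x ∈ X) :
    ∃ KK : Finset G, (∀ x, x ∈ KK ↔ x ∈ K) ∧ (KK.card : ℤ) = Nat.card K := by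
  classical
  refine ⟨X.filter (fun x => x ∈ K), fun x => ?_, ?_⟩
  · simp only [Finset.mem_filter]
    exact ⟨fun h => h.2, fun h => ⟨hKX x h, h⟩⟩
  · have h1 : (K : Set G) = ((X.filter (fun x => x ∈ K) : Finset G) : Set G) := by
      ext x
      simp only [SetLike.mem_coe, Finset.coe_filter, Set.mem_ofPred_eq]
      exact ⟨fun h => ⟨hKX x h, h⟩, fun h => h.2⟩
    have h2 : Nat.card K = (K : Set G).ncard := rfl
    rw [h2, h1, Set.ncard_coe_finset]

/-- one side -/
theorem se_side {m : ℕ} [NeZero m] (chi : G →+ ZMod m) (K : AddSubgroup G)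
    (hKL : ∀ x ∈ K, chi x = 0) (X : Finset G) (hnw : NoWrap chi X) (h0 : (0 : G) ∈ X)
    (hper : ∀ x ∈ X, ∀ y, y - x ∈ K → y ∈ X)
    (hone : ∀ x ∈ X, ∀ y ∈ X, chi x = chi y → x - y ∈ K)
    (hp : ∀ x ∈ X, ∀ z ∈ X, 0 < hg chi x → hg chi x < hg chi z → z - x ∈ X)
    (k : ℤ) (hk : k = Nat.card K) (np : ℕ) (hN : 1 ≤ np)
    (hcp : ((X.filter (fun x => 0 < hg chi x)).card : ℤ) = np * k) :
    ∃ a : G, a ∈ X ∧ 0 < hg chi a ∧ (∀ x ∈ X, 0 < hg chi x → hg chi a ≤ hg chi x) ∧
      (∀ x ∈ X, 0 < hg chi x → ∃ i : ℕ, 1 ≤ i ∧ i ≤ np ∧ x - i • a ∈ K) ∧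
      (∀ i : ℕ, 1 ≤ i → i ≤ np → i • a ∈ X ∧ hg chi (i • a) = i * hg chi a) := by
  classical
  obtain ⟨KK, hKK, hKc⟩ := se_card (K := K) (X := X)
    (fun x hx => hper 0 h0 x (by simpa using hx))
  have hk' : k = KK.card := by rw [hk, hKc]
  have hkpos : 0 < k := by
    rw [hk']
    exact_mod_cast Finset.card_pos.2 ⟨0, (hKK 0).2 K.zero_mem⟩
  set Xp := X.filter (fun x => 0 < hg chi x) with hXp
  have hne : Xp.Nonempty := by
    rw [← Finset.card_pos]
    have : 0 < ((Xp.card : ℕ) : ℤ) := by
      rw [hcp]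
      have : (1 : ℤ) ≤ np := by exact_mod_cast hN
      positivity
    exact_mod_cast this
  obtain ⟨a, haXp, hamin⟩ := Finset.exists_min_image Xp (fun x => hg chi x) hne
  have haX : a ∈ X := (Finset.mem_filter.1 haXp).1
  have ha0 : 0 < hg chi a := (Finset.mem_filter.1 haXp).2
  have hmin : ∀ x ∈ X, 0 < hg chi x → hg chi a ≤ hg chi x := fun x hx h =>
    hamin x (Finset.mem_filter.2 ⟨hx, h⟩)
  -- the inductive claim
  have hstep : ∀ n : ℕ, ∀ x ∈ X, 0 < hg chi x → (hg chi x).toNat = n →
      ∃ i : ℕ, 1 ≤ i ∧ x - i • a ∈ K ∧ hg chi x = i * hg chi a ∧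
        ∀ i' : ℕ, 1 ≤ i' → i' ≤ i → i' • a ∈ X := by
    intro n
    induction n using Nat.strong_induction_on with
    | _ n ih =>
      intro x hx hx0 hxn
      rcases (hmin x hx hx0).eq_or_lt with h | h
      · refine ⟨1, le_rfl, ?_, ?_, ?_⟩
        · rw [one_smul]; exact hone x hx a haX (se_chi_eq h.symm)
        · rw [← h]; simp
        · intro i' h1 h2
          have : i' = 1 := by omega
          rw [this, one_smul]; exact haX
      · have hxa : x - a ∈ X := hp a haX x hx ha0 h
        have hadd : hg chi x = hg chi (x - a) + hg chi a := by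
          have := hg_add chi X hnw hxa haX (by rw [sub_add_cancel]; exact hx)
          rwa [sub_add_cancel] at this
        obtain ⟨i, hi1, hiK, hih, hiX⟩ := ih (hg chi (x - a)).toNat (by omega) (x - a) hxa
          (by linarith) rfl
        have hK1 : x - (i + 1) • a ∈ K := by
          have : x - (i + 1) • a = x - a - i • a := by rw [add_smul, one_smul]; abel
          rw [this]; exact hiK
        refine ⟨i + 1, by omega, hK1, ?_, ?_⟩
        · rw [hadd, hih]; push_cast; ring
        · intro i' h1 h2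
          rcases Nat.lt_or_ge i i' with h3 | h3
          · have : i' = i + 1 := by omega
            rw [this]
            refine hper x hx _ ?_
            have := K.neg_mem hK1
            rwa [neg_sub] at this
          · exact hiX i' h1 h3
  -- the largest element
  obtain ⟨b, hbXp, hbmax⟩ := Finset.exists_max_image Xp (fun x => hg chi x) hne
  have hbX : b ∈ X := (Finset.mem_filter.1 hbXp).1
  have hb0 : 0 < hg chi b := (Finset.mem_filter.1 hbXp).2
  obtain ⟨j, hj1, hjK, hjh, hjX⟩ := hstep _ b hbX hb0 rfl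
  have hheight : ∀ i : ℕ, 1 ≤ i → i ≤ j → hg chi (i • a) = i * hg chi a := by
    intro i
    induction i with
    | zero => intro h; omega
    | succ i ih =>
      intro _ h2
      rcases Nat.eq_zero_or_pos i with h3 | h3
      · rw [h3]; simp
      · have h4 := hg_add chi X hnw (hjX i h3 (by omega)) haX
          (by
            have := hjX (i + 1) (by omega) h2
            rwa [add_smul, one_smul] at this)
        rw [add_smul, one_smul, h4, ih h3 (by omega)]
        push_cast; ring
  have himg : Xp = (Finset.Icc 1 j ×ˢ KK).image (fun p => p.1 • a + p.2) := by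
    ext x
    simp only [Finset.mem_image, Finset.mem_product, Finset.mem_Icc, Prod.exists]
    constructor
    · intro hx
      have hxX : x ∈ X := (Finset.mem_filter.1 hx).1
      have hx0 : 0 < hg chi x := (Finset.mem_filter.1 hx).2
      obtain ⟨i, hi1, hiK, hih, _⟩ := hstep _ x hxX hx0 rfl
      refine ⟨i, x - i • a, ⟨⟨hi1, ?_⟩, (hKK _).2 hiK⟩, by abel⟩
      have h1 := hbmax x hx
      rw [hih, hjh] at h1
      have h2 : (i : ℤ) ≤ j := le_of_mul_le_mul_right h1 ha0
      exact_mod_cast h2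
    · rintro ⟨i, κ, ⟨⟨hi1, hij⟩, hκ⟩, rfl⟩
      have hκ' := (hKK κ).1 hκ
      have hm : i • a + κ - i • a ∈ K := by simpa using hκ'
      refine Finset.mem_filter.2 ⟨hper _ (hjX i hi1 hij) _ hm, ?_⟩
      rw [se_hg_ker hKL hm, hheight i hi1 hij]
      have : (1 : ℤ) ≤ i := by exact_mod_cast hi1
      positivity
  have hcard : Xp.card = j * KK.card := by
    rw [himg, Finset.card_image_of_injOn, Finset.card_product, Nat.card_Icc]
    · congr 1
    · rintro ⟨i, κ⟩ h1 ⟨i', κ'⟩ h2 h3
      simp only [Finset.coe_product, Set.mem_prod, Finset.mem_coe, Finset.mem_Icc] at h1 h2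
      simp only at h3
      have e1 : hg chi (i • a + κ) = i * hg chi a := by
        rw [se_hg_ker hKL (x := i • a + κ) (y := i • a) (by simpa using (hKK κ).1 h1.2),
          hheight i h1.1.1 h1.1.2]
      have e2 : hg chi (i' • a + κ') = i' * hg chi a := by
        rw [se_hg_ker hKL (x := i' • a + κ') (y := i' • a) (by simpa using (hKK κ').1 h2.2),
          hheight i' h2.1.1 h2.1.2]
      rw [h3, e2] at e1
      have e3 : (i' : ℤ) = i := mul_right_cancel₀ ha0.ne' e1
      have e4 : i' = i := by exact_mod_cast e3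
      subst e4
      have e5 : κ = κ' := add_left_cancel h3
      rw [e5]
  have hj : j = np := by
    have h1 : (j : ℤ) * k = np * k := by
      rw [← hcp, hk', hcard]; push_cast; ring
    exact_mod_cast mul_right_cancel₀ hkpos.ne' h1
  subst hj
  refine ⟨a, haX, ha0, hmin, ?_, fun i h1 h2 => ⟨hjX i h1 h2, hheight i h1 h2⟩⟩
  intro x hx hx0
  have hx' : x ∈ Xp := Finset.mem_filter.2 ⟨hx, hx0⟩
  rw [himg] at hx'
  simp only [Finset.mem_image, Finset.mem_product, Finset.mem_Icc, Prod.exists] at hx'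
  obtain ⟨i, κ, ⟨⟨hi1, hij⟩, hκ⟩, rfl⟩ := hx'
  exact ⟨i, hi1, hij, by simpa using (hKK κ).1 hκ⟩

theorem se_hg_neg {m : ℕ} [NeZero m] (chi : G →+ ZMod m) (x : G)
    (h : 3 * |hg chi x| < (m : ℤ)) : (-(chi x)).valMinAbs = -hg chi x := by
  unfold hg at *
  refine ZMod.valMinAbs_neg_of_ne_half ?_
  intro h2
  have h3 := ZMod.valMinAbs_nonneg_iff (chi x)
  have h4 : (chi x).val ≤ m / 2 := by omega
  have h5 := h3.2 h4
  rw [abs_of_nonneg h5] at h
  have h6 := ZMod.valMinAbs_def_pos (chi x)
  rw [if_pos h4] at h6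
  rw [h6] at h
  have : (2 : ℤ) * (chi x).val = m := by exact_mod_cast h2
  have hm : 0 < m := Nat.pos_of_ne_zero (NeZero.ne m)
  omega

/-- SE -/
theorem ap_struct_pr {m : ℕ} [NeZero m] (chi : G →+ ZMod m) (K : AddSubgroup G)
    (hKL : ∀ x ∈ K, chi x = 0) (X : Finset G) (hnw : NoWrap chi X) (h0 : (0 : G) ∈ X)
    (hper : ∀ x ∈ X, ∀ y, y - x ∈ K → y ∈ X)
    (hone : ∀ x ∈ X, ∀ y ∈ X, chi x = chi y → x - y ∈ K)
    (hp : ∀ x ∈ X, ∀ z ∈ X, 0 < hg chi x → hg chi x < hg chi z → z - x ∈ X)
    (hn : ∀ x ∈ X, ∀ z ∈ X, hg chi x < 0 → hg chi z < hg chi x → z - x ∈ X)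
    (hm : ∀ x ∈ X, ∀ z ∈ X, 0 < hg chi x → hg chi z < 0 → x + z ∈ X)
    (k : ℤ) (hk : k = Nat.card K) (np nm : ℕ) (hN : 1 ≤ np + nm)
    (hcp : ((X.filter (fun x => 0 < hg chi x)).card : ℤ) = np * k)
    (hcn : ((X.filter (fun x => hg chi x < 0)).card : ℤ) = nm * k) :
    ∃ a : G, 0 < hg chi a ∧ APS K a nm np X ∧ 3 * ((max np nm : ℕ) : ℤ) * hg chi a < m := by
  classical
  -- the negative side by the opposite character
  have hneg : ∀ x ∈ X, hg (-chi) x = -hg chi x := fun x hx => by
    have := se_hg_neg chi x (hnw x hx)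
    simpa [hg] using this
  have hnw' : NoWrap (-chi) X := fun x hx => by
    have h1 := hneg x hx
    have h2 := hnw x hx
    unfold hg at h1
    rw [h1, abs_neg]
    exact h2
  have hone' : ∀ x ∈ X, ∀ y ∈ X, (-chi) x = (-chi) y → x - y ∈ K := fun x hx y hy h =>
    hone x hx y hy (by simpa using h)
  have hKL' : ∀ x ∈ K, (-chi) x = 0 := fun x hx => by simp [hKL x hx]
  have hp' : ∀ x ∈ X, ∀ z ∈ X, 0 < hg (-chi) x → hg (-chi) x < hg (-chi) z → z - x ∈ X := by
    intro x hx z hz h1 h2
    rw [hneg x hx] at h1 h2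
    rw [hneg z hz] at h2
    exact hn x hx z hz (by linarith) (by linarith)
  have hcn' : ((X.filter (fun x => 0 < hg (-chi) x)).card : ℤ) = nm * k := by
    rw [← hcn]
    congr 2
    refine Finset.filter_congr fun x hx => ?_
    rw [hneg x hx]
    constructor <;> intro h <;> linarith
  have hKX : ∀ x ∈ K, x ∈ X := fun x hx => hper 0 h0 x (by simpa using hx)
  obtain ⟨KK, hKK, hKc⟩ := se_card (K := K) (X := X) hKX
  have hkpos : 0 < k := by
    rw [hk, ← hKc]
    exact_mod_cast Finset.card_pos.2 ⟨0, (hKK 0).2 K.zero_mem⟩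
  have hempty : np = 0 → ∀ x ∈ X, ¬ 0 < hg chi x := by
    intro h x hx hx0
    rw [h] at hcp
    simp only [Nat.cast_zero, zero_mul, Nat.cast_eq_zero, Finset.card_eq_zero] at hcp
    have : x ∈ X.filter (fun x => 0 < hg chi x) := Finset.mem_filter.2 ⟨hx, hx0⟩
    rw [hcp] at this
    exact absurd this (Finset.notMem_empty x)
  have hempty' : nm = 0 → ∀ x ∈ X, ¬ hg chi x < 0 := by
    intro h x hx hx0
    rw [h] at hcn
    simp only [Nat.cast_zero, zero_mul, Nat.cast_eq_zero, Finset.card_eq_zero] at hcn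
    have : x ∈ X.filter (fun x => hg chi x < 0) := Finset.mem_filter.2 ⟨hx, hx0⟩
    rw [hcn] at this
    exact absurd this (Finset.notMem_empty x)
  -- common end
  have key : ∀ a a' : G, 0 < hg chi a → a + a' ∈ K →
      (1 ≤ np → (∀ x ∈ X, 0 < hg chi x → ∃ i : ℕ, 1 ≤ i ∧ i ≤ np ∧ x - i • a ∈ K) ∧
        (∀ i : ℕ, 1 ≤ i → i ≤ np → i • a ∈ X ∧ hg chi (i • a) = i * hg chi a)) →
      (1 ≤ nm → (∀ x ∈ X, hg chi x < 0 → ∃ i : ℕ, 1 ≤ i ∧ i ≤ nm ∧ x - i • a' ∈ K) ∧
        (∀ i : ℕ, 1 ≤ i → i ≤ nm → i • a' ∈ X ∧ hg chi (i • a') = -(i * hg chi a))) →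
      ∃ a : G, 0 < hg chi a ∧ APS K a nm np X ∧
        3 * ((max np nm : ℕ) : ℤ) * hg chi a < m := by
    intro a a' ha haa hP hM
    have hrel : ∀ i : ℕ, i • a + i • a' ∈ K := fun i => by
      rw [← smul_add]; exact K.nsmul_mem haa i
    refine ⟨a, ha, ?_, ?_⟩
    · intro x
      constructor
      · intro hx
        rcases lt_trichotomy (hg chi x) 0 with h | h | h
        · have hnm : 1 ≤ nm := by
            by_contra hc
            exact hempty' (by omega) x hx h
          obtain ⟨i, h1, h2, h3⟩ := (hM hnm).1 x hx h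
          refine ⟨-(i : ℤ), by omega, by omega, ?_⟩
          have : x - -(i : ℤ) • a = (x - i • a') + (i • a + i • a') := by
            rw [neg_smul, natCast_zsmul]; abel
          rw [this]
          exact K.add_mem h3 (hrel i)
        · refine ⟨0, by omega, by omega, ?_⟩
          have := hone x hx 0 h0 (by rw [se_chi_zero h, map_zero])
          simpa using this
        · have hnp : 1 ≤ np := by
            by_contra hc
            exact hempty (by omega) x hx h
          obtain ⟨i, h1, h2, h3⟩ := (hP hnp).1 x hx h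
          refine ⟨(i : ℤ), by omega, by omega, ?_⟩
          rw [natCast_zsmul]; exact h3
      · rintro ⟨i, h1, h2, h3⟩
        rcases lt_trichotomy i 0 with h | h | h
        · obtain ⟨n, hn⟩ := Int.eq_ofNat_of_zero_le (a := -i) (by omega)
          have hin : i = -(n : ℤ) := by omega
          subst hin
          have hnm : 1 ≤ nm := by omega
          refine hper _ ((hM hnm).2 n (by omega) (by omega)).1 x ?_
          have : x - n • a' = (x - -(n : ℤ) • a) - (n • a + n • a') := by
            rw [neg_smul, natCast_zsmul]; abel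
          rw [this]
          exact K.sub_mem h3 (hrel n)
        · subst h
          exact hKX x (by simpa using h3)
        · obtain ⟨n, hn⟩ := Int.eq_ofNat_of_zero_le (a := i) (by omega)
          subst hn
          have hnp : 1 ≤ np := by omega
          refine hper _ ((hP hnp).2 n (by omega) (by omega)).1 x ?_
          rwa [natCast_zsmul] at h3
    · rcases le_total nm np with h | h
      · rw [max_eq_left h]
        have hnp : 1 ≤ np := by omega
        obtain ⟨h1, h2⟩ := (hP hnp).2 np hnp le_rfl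
        have h3 := hnw _ h1
        have h4 : (chi (np • a)).valMinAbs = np * hg chi a := h2
        rw [h4, abs_of_nonneg (by positivity)] at h3
        linarith
      · rw [max_eq_right h]
        have hnm : 1 ≤ nm := by omega
        obtain ⟨h1, h2⟩ := (hM hnm).2 nm hnm le_rfl
        have h3 := hnw _ h1
        have h4 : (chi (nm • a')).valMinAbs = -(nm * hg chi a) := h2
        rw [h4, abs_neg, abs_of_nonneg (by positivity)] at h3
        linarith
  by_cases hnp : 1 ≤ np
  · obtain ⟨a, haX, ha0, hamin, haX1, haX2⟩ :=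
      se_side chi K hKL X hnw h0 hper hone hp k hk np hnp hcp
    by_cases hnm : 1 ≤ nm
    · obtain ⟨a', haX', ha0', hamin', haX1', haX2'⟩ :=
        se_side (-chi) K hKL' X hnw' h0 hper hone' hp' k hk nm hnm hcn'
      rw [hneg a' haX'] at ha0'
      have hsum : a + a' ∈ X := hm a haX a' haX' ha0 (by linarith)
      have hadd := hg_add chi X hnw haX haX' hsum
      have hz : hg chi (a + a') = 0 := by
        rcases lt_trichotomy (hg chi (a + a')) 0 with h | h | h
        · exfalso
          have h1 := hamin' _ hsum (by rw [hneg _ hsum]; linarith)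
          rw [hneg _ hsum, hneg _ haX'] at h1
          linarith
        · exact h
        · exfalso
          have h1 := hamin _ hsum h
          linarith
      have hK : a + a' ∈ K := by
        have := hone _ hsum 0 h0 (by rw [se_chi_zero hz, map_zero])
        simpa using this
      refine key a a' ha0 hK (fun _ => ⟨haX1, haX2⟩) (fun _ => ⟨?_, ?_⟩)
      · intro x hx hx0
        exact haX1' x hx (by rw [hneg x hx]; linarith)
      · intro i h1 h2
        obtain ⟨h3, h4⟩ := haX2' i h1 h2
        refine ⟨h3, ?_⟩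
        rw [hneg _ h3, hneg _ haX'] at h4
        have : hg chi a' = -hg chi a := by linarith
        rw [this] at h4
        linarith
    · refine key a (-a) ha0 (by simp [K.zero_mem]) (fun _ => ⟨haX1, haX2⟩) (fun h => absurd h hnm)
  · have hnm : 1 ≤ nm := by omega
    obtain ⟨a', haX', ha0', hamin', haX1', haX2'⟩ :=
      se_side (-chi) K hKL' X hnw' h0 hper hone' hp' k hk nm hnm hcn'
    rw [hneg a' haX'] at ha0'
    have hga : hg chi (-a') = -hg chi a' := by
      have := se_hg_neg chi a' (hnw a' haX')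
      unfold hg at *
      rw [map_neg]; exact this
    refine key (-a') a' (by rw [hga]; exact ha0') (by simp [K.zero_mem])
      (fun h => absurd h hnp) (fun _ => ⟨?_, ?_⟩)
    · intro x hx hx0
      exact haX1' x hx (by rw [hneg x hx]; linarith)
    · intro i h1 h2
      obtain ⟨h3, h4⟩ := haX2' i h1 h2
      refine ⟨h3, ?_⟩
      rw [hneg _ h3, hneg _ haX'] at h4
      rw [hga]
      linarith

end

theorem ap_struct : type_of% @ap_struct_pr := @ap_struct_pr

end Pool.Agent.ST
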